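import Pool.Agent.Y119.HY.Gal

/-!
# Joint hypergeometric families: horizontal matrices which are holomorphic at `0` and at `1`

Let `M' = (A' / z + B' / (1 - z)) M - M (A / z + B / (1 - z))`, with `M` holomorphic in the disc of radius `6 / 7` around
`1 / 2`, which contains both singularities. Then `M` is a polynomial. Proof: the coefficients of the expansion at `1 / 2`
satisfy a recursion which can be solved for the coefficient of lowest index, and which is contracting in this direction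
since the coefficients are those of a function holomorphic in a disc of radius larger than `1 / 2`.
-/

set_option autoImplicit false

open Filter Topology Matrix

namespace Run7.h309.JH

open Pool.Agent.Y119.HY

/-- uniqueness of the coefficients -/
lemma ps_unique {c : ℕ → ℂ} (hc : PG c) (h : ∀ᶠ z in 𝓝[≠] (0 : ℂ), ps c z = 0) (k : ℕ) : c k = 0 := by
  have han : ∀ {c : ℕ → ℂ}, PG c → AnalyticAt ℂ (ps c) 0 := fun hc => ps_an hc 0 (Metric.mem_ball_self one_pos)
  induction k generalizing c with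
  | zero =>
    have h1 := ((han hc).frequently_zero_iff_eventually_zero).1 h.frequently
    rw [← ps_zero c]
    exact h1.self_of_nhds
  | succ k ih =>
    have h1 := ((han hc).frequently_zero_iff_eventually_zero).1 h.frequently
    have h0 : c 0 = 0 := by
      rw [← ps_zero c]
      exact h1.self_of_nhds
    refine ih (c := fun k => c (k + 1)) hc.shift ?_
    have h2 : ∀ᶠ z in 𝓝[≠] (0 : ℂ), ‖z‖ < 1 := by
      refine eventually_nhdsWithin_of_eventually_nhds ?_
      filter_upwards [Metric.ball_mem_nhds (0 : ℂ) one_pos] with z hz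
      rwa [Metric.mem_ball, dist_zero_right] at hz
    filter_upwards [h, h2, self_mem_nhdsWithin] with z hz hz1 hz0
    rw [ps_shift hc hz1, h0, zero_add] at hz
    exact (mul_eq_zero.1 hz).resolve_left hz0

lemma exists_ps {f : ℂ → ℂ} {R : ℝ} (hR : 1 < R) (hf : AnalyticOnNhd ℂ f (Metric.ball 0 R)) :
    ∃ c : ℕ → ℂ, (∃ C : ℝ, ∀ k, ‖c k‖ ≤ C) ∧ ∀ z, ‖z‖ < 1 → f z = ps c z := by
  obtain ⟨R', h1, h2⟩ := exists_between hR
  have hR'0 : 0 ≤ R' := by linarith
  set r : NNReal := ⟨R', hR'0⟩ with hr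
  have hr0 : 0 < r := by
    rw [← NNReal.coe_lt_coe]
    show (0 : ℝ) < R'
    linarith
  have hd : DifferentiableOn ℂ f (Metric.closedBall 0 r) := by
    intro z hz
    refine (hf z ?_).differentiableAt.differentiableWithinAt
    rw [Metric.mem_closedBall] at hz
    rw [Metric.mem_ball]
    exact lt_of_le_of_lt hz h2
  have hp := hd.hasFPowerSeriesOnBall hr0
  set p := cauchyPowerSeries f 0 r
  refine ⟨fun k => p.coeff k, ?_, fun z hz => ?_⟩
  · have h3 : ((1 : NNReal) : ENNReal) < p.radius := by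
      refine lt_of_lt_of_le ?_ hp.r_le
      rw [ENNReal.coe_lt_coe, ← NNReal.coe_lt_coe]
      exact h1
    obtain ⟨C, -, hC⟩ := p.norm_mul_pow_le_of_lt_radius h3
    refine ⟨C, fun k => ?_⟩
    have h4 := hC k
    rw [NNReal.coe_one, one_pow, mul_one] at h4
    rwa [← FormalMultilinearSeries.norm_apply_eq_norm_coef]
  · have h3 := hp.hasSum (y := z) (by
      rw [Metric.mem_eball, edist_zero_right, enorm_eq_nnnorm, ENNReal.coe_lt_coe, ← NNReal.coe_lt_coe]
      exact lt_trans hz h1)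
    rw [zero_add] at h3
    unfold ps
    rw [← h3.tsum_eq]
    refine tsum_congr fun k => ?_
    rw [FormalMultilinearSeries.apply_eq_pow_smul_coeff, smul_eq_mul, mul_comm]

section

variable {n : ℕ}

attribute [local instance] Matrix.linftyOpNormedAddCommGroup Matrix.linftyOpNormedRing Matrix.linftyOpNormedAlgebra

lemma norm_le_sum (X : Matrix (Fin n) (Fin n) ℂ) : ‖X‖ ≤ ∑ i, ∑ j, ‖X i j‖ := by
  rw [Matrix.linfty_opNorm_def]
  have h1 : (Finset.univ.sup fun i : Fin n => ∑ j : Fin n, ‖X i j‖₊) ≤ ∑ i, ∑ j, ‖X i j‖₊ :=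
    Finset.sup_le fun i _ => Finset.single_le_sum (f := fun i => ∑ j, ‖X i j‖₊) (fun _ _ => zero_le) (Finset.mem_univ i)
  refine (NNReal.coe_le_coe.2 h1).trans_eq ?_
  push_cast
  rfl

/-- the contraction -/
lemma contract {P S P' S' : Matrix (Fin n) (Fin n) ℂ} {X : ℕ → Matrix (Fin n) (Fin n) ℂ} {C : ℝ}
    (hX : ∀ k, ‖X k‖ ≤ C)
    (hrec : ∀ k : ℕ, (9 / 16 : ℂ) • ((k : ℂ) • X k - (P' * X k - X k * P)) =
      (1 / 4 : ℂ) • (((k : ℂ) + 2) • X (k + 2)) - (3 / 8 : ℂ) • (S' * X (k + 1) - X (k + 1) * S)) :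
    ∃ k₀ : ℕ, ∀ k, k₀ ≤ k → X k = 0 := by
  set d : ℝ := ‖P'‖ + ‖P‖ with hd
  set σ : ℝ := ‖S'‖ + ‖S‖ with hσ
  have hd0 : 0 ≤ d := by positivity
  have hσ0 : 0 ≤ σ := by positivity
  have hcom : ∀ (U V Z : Matrix (Fin n) (Fin n) ℂ), ‖U * Z - Z * V‖ ≤ (‖U‖ + ‖V‖) * ‖Z‖ := by
    intro U V Z
    calc ‖U * Z - Z * V‖ ≤ ‖U * Z‖ + ‖Z * V‖ := norm_sub_le _ _
      _ ≤ ‖U‖ * ‖Z‖ + ‖Z‖ * ‖V‖ := add_le_add (norm_mul_le _ _) (norm_mul_le _ _)
      _ = _ := by ring
  obtain ⟨k₀, hk₀⟩ := exists_nat_gt (16 + 12 * σ + 9 * d)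
  have hhalf : ∀ b : ℝ, 0 ≤ b → (∀ k, k₀ ≤ k → ‖X k‖ ≤ b) → ∀ k, k₀ ≤ k → ‖X k‖ ≤ b / 2 := by
    intro b hb0 hb k hk
    have hkr : (k₀ : ℝ) ≤ k := by exact_mod_cast hk
    have hkk : (0 : ℝ) ≤ k := by positivity
    have h1 : (9 / 16 : ℝ) * ((k - d) * ‖X k‖) ≤ ‖(9 / 16 : ℂ) • ((k : ℂ) • X k - (P' * X k - X k * P))‖ := by
      rw [norm_smul]
      have e1 : ‖(9 / 16 : ℂ)‖ = 9 / 16 := by norm_num
      rw [e1]
      refine mul_le_mul_of_nonneg_left ?_ (by norm_num)
      have h2 : ‖(k : ℂ) • X k‖ = k * ‖X k‖ := by rw [norm_smul, Complex.norm_natCast]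
      have h3 := norm_sub_norm_le ((k : ℂ) • X k) (P' * X k - X k * P)
      have h4 := hcom P' P (X k)
      rw [h2] at h3
      rw [sub_mul]
      linarith
    have h2 : ‖(1 / 4 : ℂ) • (((k : ℂ) + 2) • X (k + 2)) - (3 / 8 : ℂ) • (S' * X (k + 1) - X (k + 1) * S)‖ ≤
        1 / 4 * ((k + 2) * b) + 3 / 8 * (σ * b) := by
      refine (norm_sub_le _ _).trans (add_le_add ?_ ?_)
      · rw [norm_smul, norm_smul]
        have e1 : ‖(1 / 4 : ℂ)‖ = 1 / 4 := by norm_num
        have e2 : ‖((k : ℂ) + 2)‖ = k + 2 := by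
          have : ((k : ℂ) + 2) = ((k + 2 : ℕ) : ℂ) := by push_cast; rfl
          rw [this, Complex.norm_natCast]
          push_cast
          rfl
        rw [e1, e2]
        refine mul_le_mul_of_nonneg_left (mul_le_mul_of_nonneg_left (hb _ (by omega)) (by positivity)) (by norm_num)
      · rw [norm_smul]
        have e1 : ‖(3 / 8 : ℂ)‖ = 3 / 8 := by norm_num
        rw [e1]
        refine mul_le_mul_of_nonneg_left ((hcom _ _ _).trans ?_) (by norm_num)
        exact mul_le_mul_of_nonneg_left (hb _ (by omega)) hσ0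
    rw [hrec k] at h1
    have h3 := h1.trans h2
    have h4 : 1 / 4 * (((k : ℝ) + 2) * b) + 3 / 8 * (σ * b) ≤ 9 / 16 * ((k - d) * (b / 2)) := by
      have h5 : 1 / 4 * ((k : ℝ) + 2) + 3 / 8 * σ ≤ 9 / 16 * ((k - d) / 2) := by linarith
      calc 1 / 4 * (((k : ℝ) + 2) * b) + 3 / 8 * (σ * b) = (1 / 4 * ((k : ℝ) + 2) + 3 / 8 * σ) * b := by ring
        _ ≤ (9 / 16 * ((k - d) / 2)) * b := mul_le_mul_of_nonneg_right h5 hb0
        _ = _ := by ring
    have h5 : 9 / 16 * (((k : ℝ) - d) * ‖X k‖) ≤ 9 / 16 * ((k - d) * (b / 2)) := h3.trans h4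
    have h6 : (0 : ℝ) < k - d := by linarith
    have h7 : ((k : ℝ) - d) * ‖X k‖ ≤ (k - d) * (b / 2) := by linarith
    exact le_of_mul_le_mul_left h7 h6
  have hC0 : 0 ≤ C := (norm_nonneg _).trans (hX 0)
  have hpow : ∀ j : ℕ, ∀ k, k₀ ≤ k → ‖X k‖ ≤ C * (1 / 2) ^ j := by
    intro j
    induction j with
    | zero =>
      intro k _
      rw [pow_zero, mul_one]
      exact hX k
    | succ j ih =>
      intro k hk
      have h1 := hhalf _ (by positivity) ih k hk
      rw [pow_succ]
      linarith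
  refine ⟨k₀, fun k hk => ?_⟩
  have h1 : Tendsto (fun j : ℕ => C * (1 / 2 : ℝ) ^ j) atTop (𝓝 (C * 0)) :=
    (tendsto_pow_atTop_nhds_zero_of_lt_one (by norm_num) (by norm_num)).const_mul C
  rw [mul_zero] at h1
  have h2 : ‖X k‖ ≤ 0 := ge_of_tendsto' h1 fun j => hpow j k hk
  exact norm_le_zero_iff.1 h2

end

section

variable {n : ℕ}

theorem ent {A B A' B' : Matrix (Fin n) (Fin n) ℂ} {M : ℂ → Matrix (Fin n) (Fin n) ℂ}
    (hM : ∀ i j, AnalyticOnNhd ℂ (fun z => M z i j) (Metric.ball (1 / 2) (6 / 7)))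
    (hode : ∀ z ∈ Lens, HD M ((1 / z) • (A' * M z - M z * A) + (1 / (1 - z)) • (B' * M z - M z * B)) z) :
    ∃ (d : ℕ) (Z : ℕ → Matrix (Fin n) (Fin n) ℂ), (∀ k, d < k → Z k = 0) ∧ Z 0 = M (1 / 2) ∧
      Z 1 = (2 : ℂ) • ((A' + B') * Z 0 - Z 0 * (A + B)) ∧
      ∀ k : ℕ, (A' - B') * Z k - Z k * (A - B) = (k : ℂ) • Z k - (1 / 4 : ℂ) • (((k : ℂ) + 2) • Z (k + 2)) +
        (1 / 2 : ℂ) • ((A' + B') * Z (k + 1) - Z (k + 1) * (A + B)) := by
  classical
  -- the rescaled function
  set f : Fin n → Fin n → ℂ → ℂ := fun i j w => M (1 / 2 + 3 / 4 * w) i j with hf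
  have hfan : ∀ i j, AnalyticOnNhd ℂ (f i j) (Metric.ball 0 (8 / 7)) := by
    intro i j w hw
    rw [Metric.mem_ball, dist_zero_right] at hw
    have h1 : AnalyticAt ℂ (fun z => M z i j) (1 / 2 + 3 / 4 * w) := hM i j _ (by
      rw [Metric.mem_ball, dist_eq_norm, add_sub_cancel_left, norm_mul]
      have e1 : ‖(3 / 4 : ℂ)‖ = 3 / 4 := by norm_num
      rw [e1]
      linarith)
    have h2 : AnalyticAt ℂ (fun w : ℂ => 1 / 2 + 3 / 4 * w) w := analyticAt_const.add (analyticAt_const.mul analyticAt_id)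
    exact AnalyticAt.fun_comp (f := fun w : ℂ => 1 / 2 + 3 / 4 * w) h1 h2
  choose c hcb hc using fun i j => exists_ps (by norm_num : (1 : ℝ) < 8 / 7) (hfan i j)
  choose Cb hCb using hcb
  have hPG : ∀ i j, PG (c i j) := fun i j => ⟨Cb i j, 0, fun k => by simpa using hCb i j k⟩
  set X : ℕ → Matrix (Fin n) (Fin n) ℂ := fun k => Matrix.of fun i j => c i j k with hX
  have hXa : ∀ k i j, X k i j = c i j k := fun k i j => rfl
  -- sums
  have hPl : ∀ (U : Matrix (Fin n) (Fin n) ℂ) i j, PG fun k => (U * X k) i j := by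
    intro U i j
    simp only [Matrix.mul_apply, hXa]
    exact PG.sum _ fun l _ => (hPG l j).smul _
  have hPr : ∀ (U : Matrix (Fin n) (Fin n) ℂ) i j, PG fun k => (X k * U) i j := by
    intro U i j
    simp only [Matrix.mul_apply, hXa]
    refine PG.sum _ fun l _ => ?_
    simp only [mul_comm (c i l _)]
    exact (hPG i l).smul _
  have hMw : ∀ w : ℂ, ‖w‖ < 1 → ∀ i j, M (1 / 2 + 3 / 4 * w) i j = ps (fun k => X k i j) w := fun w hw i j => hc i j w hw
  have hl : ∀ (U : Matrix (Fin n) (Fin n) ℂ) (w : ℂ), ‖w‖ < 1 → ∀ i j,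
      (U * M (1 / 2 + 3 / 4 * w)) i j = ps (fun k => (U * X k) i j) w := by
    intro U w hw i j
    simp only [Matrix.mul_apply]
    rw [ps_sum (f := fun l k => U i l * X k l j) _ (fun l _ => (hPG l j).smul _) hw]
    refine Finset.sum_congr rfl fun l _ => ?_
    rw [hMw w hw]
    exact (ps_smul _ _).symm
  have hr : ∀ (U : Matrix (Fin n) (Fin n) ℂ) (w : ℂ), ‖w‖ < 1 → ∀ i j,
      (M (1 / 2 + 3 / 4 * w) * U) i j = ps (fun k => (X k * U) i j) w := by
    intro U w hw i j
    simp only [Matrix.mul_apply, mul_comm _ (U _ j)]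
    rw [ps_sum (f := fun l k => U l j * X k i l) _ (fun l _ => (hPG i l).smul _) hw]
    refine Finset.sum_congr rfl fun l _ => ?_
    rw [hMw w hw]
    exact (ps_smul _ _).symm
  -- the sequences
  set s : Fin n → Fin n → ℕ → ℂ := fun i j k => ((A' + B') * X k) i j + (-1) * (X k * (A + B)) i j with hs
  set δ : Fin n → Fin n → ℕ → ℂ := fun i j k => ((A' - B') * X k) i j + (-1) * (X k * (A - B)) i j with hδ
  set D : Fin n → Fin n → ℕ → ℂ := fun i j k => (k : ℂ) * X k i j with hD
  have hsg : ∀ i j, PG (s i j) := fun i j => (hPl _ i j).add ((hPr _ i j).smul (-1))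
  have hδg : ∀ i j, PG (δ i j) := fun i j => (hPl _ i j).add ((hPr _ i j).smul (-1))
  have hDg : ∀ i j, PG (D i j) := fun i j => (hPG i j).nat
  have hrec0 : ∀ i j, 1 / 4 * D i j 1 + -(3 / 8) * s i j 0 = 0 ∧
      ∀ k : ℕ, 1 / 4 * D i j (k + 2) + (-(9 / 16) * D i j k + (-(3 / 8) * s i j (k + 1) + 9 / 16 * δ i j k)) = 0 := by
    intro i j
    -- the sequence whose sum vanishes
    set e : ℕ → ℂ := fun k => 1 / 4 * D i j (k + 2) + (-(9 / 16) * D i j k + (-(3 / 8) * s i j (k + 1) + 9 / 16 * δ i j k)) with he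
    have heg : PG e := ((hDg i j).shift.shift.smul _).add (((hDg i j).smul _).add (((hsg i j).shift.smul _).add ((hδg i j).smul _)))
    set e' : ℕ → ℂ := fun k => 1 / 4 * D i j (k + 1) + (-(3 / 8) * s i j k + 9 / 16 * (if k = 0 then 0 else (δ i j (k - 1) - D i j (k - 1)))) with he'
    have he's : ∀ k, e' (k + 1) = e k := by
      intro k
      rw [he', he]
      simp only [Nat.add_sub_cancel, if_neg (Nat.succ_ne_zero k)]
      ring
    have he'g : PG e' := by
      obtain ⟨C, p, hC⟩ := heg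
      have hC0 := PG.nonneg hC
      refine ⟨C + ‖e' 0‖, p, fun k => ?_⟩
      rcases k with _ | k
      · simp only [Nat.cast_zero, zero_add, one_pow, mul_one]
        linarith
      · rw [he's]
        refine (hC k).trans ?_
        have h1 : ((k : ℝ) + 1) ^ p ≤ (((k + 1 : ℕ) : ℝ) + 1) ^ p :=
          pow_le_pow_left₀ (by positivity) (by push_cast; linarith) _
        calc C * ((k : ℝ) + 1) ^ p ≤ C * (((k + 1 : ℕ) : ℝ) + 1) ^ p := mul_le_mul_of_nonneg_left h1 hC0
          _ ≤ _ := mul_le_mul_of_nonneg_right (by linarith [norm_nonneg (e' 0)]) (by positivity)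
    have hzero : ∀ᶠ w in 𝓝[≠] (0 : ℂ), ps e' w = 0 := by
      have h2 : ∀ᶠ z in 𝓝[≠] (0 : ℂ), ‖z‖ < 1 / 2 := by
        refine eventually_nhdsWithin_of_eventually_nhds ?_
        filter_upwards [Metric.ball_mem_nhds (0 : ℂ) (by norm_num : (0 : ℝ) < 1 / 2)] with z hz
        rwa [Metric.mem_ball, dist_zero_right] at hz
      filter_upwards [h2, self_mem_nhdsWithin] with w hw hw0
      have hw0' : w ≠ 0 := hw0
      have hw1 : ‖w‖ < 1 := by linarith
      set z : ℂ := 1 / 2 + 3 / 4 * w with hz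
      have hn1 : ‖(3 / 4 : ℂ) * w‖ < 1 / 2 := by
        rw [norm_mul]
        have e1 : ‖(3 / 4 : ℂ)‖ = 3 / 4 := by norm_num
        rw [e1]
        linarith [norm_nonneg w]
      have hzL : z ∈ Lens := by
        rw [mem_Lens]
        have e1 : ‖(1 / 2 : ℂ)‖ = 1 / 2 := by norm_num
        constructor
        · calc ‖z‖ ≤ ‖(1 / 2 : ℂ)‖ + ‖(3 / 4 : ℂ) * w‖ := norm_add_le _ _
            _ < 1 := by rw [e1]; linarith
        · have e2 : 1 - z = 1 / 2 - 3 / 4 * w := by rw [hz]; ring
          rw [e2]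
          calc ‖(1 / 2 : ℂ) - 3 / 4 * w‖ ≤ ‖(1 / 2 : ℂ)‖ + ‖(3 / 4 : ℂ) * w‖ := norm_sub_le _ _
            _ < 1 := by rw [e1]; linarith
      have hz0 : z ≠ 0 := Complex.slitPlane_ne_zero (slit_Lens hzL)
      have hz1 : 1 - z ≠ 0 := Complex.slitPlane_ne_zero (slit_Lens (symm_Lens hzL))
      -- the derivative
      have hd1 := (hode z hzL) i j
      have hd2 : HasDerivAt (fun w : ℂ => 1 / 2 + 3 / 4 * w) (3 / 4) w := by
        simpa using ((hasDerivAt_id w).const_mul (3 / 4 : ℂ)).const_add (1 / 2)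
      have hd3 := hd1.comp w hd2
      have hd4 : HasDerivAt (ps (c i j)) (deriv (ps (c i j)) w) w :=
        ((ps_an (hPG i j)) w (by rwa [Metric.mem_ball, dist_zero_right])).differentiableAt.hasDerivAt
      have hev : ps (c i j) =ᶠ[𝓝 w] ((fun w => M w i j) ∘ fun w : ℂ => 1 / 2 + 3 / 4 * w) := by
        filter_upwards [Metric.isOpen_ball.mem_nhds (show w ∈ Metric.ball (0 : ℂ) 1 by
          rwa [Metric.mem_ball, dist_zero_right])] with y hy
        rw [Metric.mem_ball, dist_zero_right] at hy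
        exact (hc i j y hy).symm
      have hder : deriv (ps (c i j)) w = ((1 / z) • (A' * M z - M z * A) + (1 / (1 - z)) • (B' * M z - M z * B)) i j * (3 / 4) :=
        (hd4.congr_of_eventuallyEq hev.symm).unique hd3
      have hpd : w * deriv (ps (c i j)) w = ps (D i j) w := ps_deriv (hPG i j) hw1
      -- expansions
      have hS : ps (s i j) w = ((A' + B') * M z - M z * (A + B)) i j := by
        rw [hs]
        simp only
        rw [ps_add (hPl _ i j) ((hPr _ i j).smul (-1)) hw1, ps_smul, ← hl _ w hw1, ← hr _ w hw1, Matrix.sub_apply]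
        ring
      have hΔ : ps (δ i j) w = ((A' - B') * M z - M z * (A - B)) i j := by
        rw [hδ]
        simp only
        rw [ps_add (hPl _ i j) ((hPr _ i j).smul (-1)) hw1, ps_smul, ← hl _ w hw1, ← hr _ w hw1, Matrix.sub_apply]
        ring
      have hD0 : D i j 0 = 0 := by
        rw [hD]
        simp
      have hDs : ps (D i j) w = w * ps (fun k => D i j (k + 1)) w := by
        rw [ps_shift (hDg i j) hw1, hD0, zero_add]
      have hlast : ps (fun k => if k = 0 then 0 else (δ i j (k - 1) - D i j (k - 1))) w = w * (ps (δ i j) w - ps (D i j) w) := by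
        have hg1 : PG fun k => if k = 0 then 0 else (δ i j (k - 1) - D i j (k - 1)) := by
          obtain ⟨C, p, hC⟩ := (hδg i j).add ((hDg i j).smul (-1))
          have hC0 := PG.nonneg hC
          refine ⟨C, p, fun k => ?_⟩
          rcases k with _ | k
          · beta_reduce
            rw [if_pos rfl, norm_zero]
            positivity
          · beta_reduce
            rw [if_neg (Nat.succ_ne_zero k), Nat.add_sub_cancel]
            have h5 := hC k
            beta_reduce at h5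
            have h6 : δ i j k + -1 * D i j k = δ i j k - D i j k := by ring
            rw [h6] at h5
            refine h5.trans (mul_le_mul_of_nonneg_left (pow_le_pow_left₀ (by positivity) (by push_cast; linarith) _) hC0)
        rw [ps_shift hg1 hw1, if_pos rfl, zero_add]
        congr 1
        have h5 := ps_add (hδg i j) ((hDg i j).smul (-1)) hw1
        rw [ps_smul] at h5
        have h6 : (fun k : ℕ => if k + 1 = 0 then 0 else (δ i j (k + 1 - 1) - D i j (k + 1 - 1))) =
            fun k => δ i j k + -1 * D i j k := by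
          funext k
          rw [if_neg (Nat.succ_ne_zero k), Nat.add_sub_cancel]
          ring
        rw [h6, h5]
        ring
      have hgl : PG fun k => if k = 0 then 0 else (δ i j (k - 1) - D i j (k - 1)) := by
        obtain ⟨C, p, hC⟩ := (hδg i j).add ((hDg i j).smul (-1))
        have hC0 := PG.nonneg hC
        refine ⟨C, p, fun k => ?_⟩
        rcases k with _ | k
        · beta_reduce
          rw [if_pos rfl, norm_zero]
          positivity
        · beta_reduce
          rw [if_neg (Nat.succ_ne_zero k), Nat.add_sub_cancel]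
          have h5 := hC k
          beta_reduce at h5
          have h6 : δ i j k + -1 * D i j k = δ i j k - D i j k := by ring
          rw [h6] at h5
          refine h5.trans (mul_le_mul_of_nonneg_left (pow_le_pow_left₀ (by positivity) (by push_cast; linarith) _) hC0)
      have hps : ps e' w = 1 / 4 * ps (fun k => D i j (k + 1)) w + (-(3 / 8) * ps (s i j) w +
          9 / 16 * (w * (ps (δ i j) w - ps (D i j) w))) := by
        rw [he']
        rw [ps_add ((hDg i j).shift.smul _) (((hsg i j).smul _).add (hgl.smul _)) hw1, ps_smul (c := fun k => D i j (k + 1)),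
          ps_add ((hsg i j).smul _) (hgl.smul _) hw1, ps_smul (c := s i j), ps_smul (c := fun k => if k = 0 then 0 else (δ i j (k - 1) - D i j (k - 1))), hlast]
      have hwe : w * ps e' w = 0 := by
        have e3 : w * ps e' w = 1 / 4 * ps (D i j) w + (-(3 / 8) * (w * ps (s i j) w) +
          9 / 16 * (w ^ 2 * (ps (δ i j) w - ps (D i j) w))) := by
          rw [hps]
          have := hDs
          linear_combination (-(1 / 4 : ℂ)) * this
        rw [e3, ← hpd, hder, hS, hΔ]
        simp only [Matrix.add_apply, Matrix.sub_apply, Matrix.smul_apply, smul_eq_mul, add_mul, mul_add, sub_mul, mul_sub]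
        have ez : 1 / 4 - 9 / 16 * w ^ 2 = z * (1 - z) := by rw [hz]; ring
        have ew : w = 4 / 3 * z - 2 / 3 := by rw [hz]; ring
        set a1 := (A' * M z) i j
        set a2 := (M z * A) i j
        set a3 := (B' * M z) i j
        set a4 := (M z * B) i j
        rw [ew]
        field_simp
        ring
      exact (mul_eq_zero.1 hwe).resolve_left hw0'
    have h3 := ps_unique he'g hzero
    refine ⟨?_, fun k => ?_⟩
    · have h4 := h3 0
      rw [he'] at h4
      simp only [if_true, mul_zero, add_zero, zero_add] at h4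
      exact h4
    · have h4 := h3 (k + 1)
      rw [he's] at h4
      exact h4
  have hbd : ∃ C : ℝ, ∀ k, (@norm _ (Matrix.linftyOpNormedAddCommGroup (m := Fin n) (n := Fin n) (α := ℂ)).toNorm (X k)) ≤ C := by
    refine ⟨∑ i, ∑ j, Cb i j, fun k => (norm_le_sum _).trans ?_⟩
    exact Finset.sum_le_sum fun i _ => Finset.sum_le_sum fun j _ => hCb i j k
  obtain ⟨C, hC⟩ := hbd
  have hrecM : ∀ k : ℕ, (9 / 16 : ℂ) • ((k : ℂ) • X k - ((A' - B') * X k - X k * (A - B))) =
      (1 / 4 : ℂ) • (((k : ℂ) + 2) • X (k + 2)) - (3 / 8 : ℂ) • ((A' + B') * X (k + 1) - X (k + 1) * (A + B)) := by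
    intro k
    ext i j
    have h5 := (hrec0 i j).2 k
    rw [hD, hs, hδ] at h5
    simp only [Matrix.sub_apply, Matrix.smul_apply, smul_eq_mul]
    push_cast at h5
    linear_combination -h5
  obtain ⟨k₀, hk₀⟩ := contract (P := A - B) (S := A + B) (P' := A' - B') (S' := A' + B') hC hrecM
  refine ⟨k₀, fun k => (4 / 3 : ℂ) ^ k • X k, fun k hk => ?_, ?_, ?_, fun k => ?_⟩
  · beta_reduce
    rw [hk₀ k hk.le, smul_zero]
  · beta_reduce
    rw [pow_zero, one_smul]
    ext i j
    have h6 := hMw 0 (by rw [norm_zero]; exact one_pos) i j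
    rw [mul_zero, add_zero, ps_zero] at h6
    exact h6.symm
  · ext i j
    have h5 := (hrec0 i j).1
    rw [hD, hs] at h5
    simp only [Matrix.smul_apply, Matrix.sub_apply, smul_eq_mul, pow_one, pow_zero, one_smul, Nat.cast_one] at h5 ⊢
    linear_combination (16 / 3 : ℂ) * h5
  · have h5 := hrecM k
    ext i j
    have h6 := congrFun (congrFun h5 i) j
    simp only [Matrix.smul_apply, Matrix.sub_apply, Matrix.add_apply, smul_eq_mul, Matrix.mul_smul, Matrix.smul_mul] at h6 ⊢
    rw [pow_succ, pow_succ]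
    linear_combination (-(16 / 9 : ℂ) * (4 / 3) ^ k) * h6

end

end Run7.h309.JH
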