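import Mathlib

/-!
# Joint hypergeometric families: formal solutions at infinity

A polynomial horizontal matrix between two systems which is invertible at a point maps formal solutions at infinity to
formal solutions at infinity, hence the exponents at infinity coincide modulo the integers.
-/

set_option autoImplicit false

open PowerSeries

namespace Run7.h309.JH

section cf

variable {m p r : ℕ}

/-- the coefficients of a matrix of power series -/
noncomputable def cfm (P : Matrix (Fin m) (Fin p) ℂ⟦X⟧) (k : ℕ) : Matrix (Fin m) (Fin p) ℂ := P.map (coeff k)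

lemma cfm_apply (P : Matrix (Fin m) (Fin p) ℂ⟦X⟧) (k : ℕ) (i : Fin m) (j : Fin p) : cfm P k i j = coeff k (P i j) := rfl

lemma cfm_ext {P P' : Matrix (Fin m) (Fin p) ℂ⟦X⟧} (h : ∀ k, cfm P k = cfm P' k) : P = P' := by
  ext i j k
  exact congrFun (congrFun (h k) i) j

lemma cfm_sub (P P' : Matrix (Fin m) (Fin p) ℂ⟦X⟧) (k : ℕ) : cfm (P - P') k = cfm P k - cfm P' k := by
  ext i j
  simp [cfm_apply]

lemma cfm_C_smul (a : ℂ) (P : Matrix (Fin m) (Fin p) ℂ⟦X⟧) (k : ℕ) : cfm ((C a : ℂ⟦X⟧) • P) k = a • cfm P k := by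
  ext i j
  rw [cfm_apply, Matrix.smul_apply, smul_eq_mul, coeff_C_mul, Matrix.smul_apply, smul_eq_mul, cfm_apply]

/-- constant matrices -/
noncomputable def kC (M : Matrix (Fin m) (Fin m) ℂ) : Matrix (Fin m) (Fin m) ℂ⟦X⟧ := M.map (C (R := ℂ))

lemma cfm_kC_mul (M : Matrix (Fin m) (Fin m) ℂ) (P : Matrix (Fin m) (Fin p) ℂ⟦X⟧) (k : ℕ) :
    cfm (kC M * P) k = M * cfm P k := by
  ext i j
  rw [cfm_apply, Matrix.mul_apply, Matrix.mul_apply, map_sum]
  refine Finset.sum_congr rfl fun l _ => ?_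
  show coeff k (C (M i l) * P l j) = _
  rw [coeff_C_mul, cfm_apply]

lemma cfm_mul_kC (M : Matrix (Fin p) (Fin p) ℂ) (P : Matrix (Fin m) (Fin p) ℂ⟦X⟧) (k : ℕ) :
    cfm (P * kC M) k = cfm P k * M := by
  ext i j
  rw [cfm_apply, Matrix.mul_apply, Matrix.mul_apply, map_sum]
  refine Finset.sum_congr rfl fun l _ => ?_
  show coeff k (P i l * C (M l j)) = _
  rw [mul_comm, coeff_C_mul, cfm_apply, mul_comm]

lemma cfm_X_zero (P : Matrix (Fin m) (Fin p) ℂ⟦X⟧) : cfm ((X : ℂ⟦X⟧) • P) 0 = 0 := by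
  ext i j
  rw [cfm_apply, Matrix.smul_apply, smul_eq_mul, coeff_zero_X_mul, Matrix.zero_apply]

lemma cfm_X_succ (P : Matrix (Fin m) (Fin p) ℂ⟦X⟧) (k : ℕ) : cfm ((X : ℂ⟦X⟧) • P) (k + 1) = cfm P k := by
  ext i j
  rw [cfm_apply, Matrix.smul_apply, smul_eq_mul, coeff_succ_X_mul, cfm_apply]

/-- `X d/dX` entrywise -/
noncomputable def thm (M : Matrix (Fin m) (Fin p) ℂ⟦X⟧) : Matrix (Fin m) (Fin p) ℂ⟦X⟧ := Matrix.of fun i j => X * d⁄dX ℂ (M i j)

lemma thm_mul (M : Matrix (Fin m) (Fin p) ℂ⟦X⟧) (N : Matrix (Fin p) (Fin r) ℂ⟦X⟧) : thm (M * N) = thm M * N + M * thm N := by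
  ext1 i j
  unfold thm
  rw [Matrix.of_apply, Matrix.add_apply, Matrix.mul_apply, Matrix.mul_apply, Matrix.mul_apply, map_sum, Finset.mul_sum,
    ← Finset.sum_add_distrib]
  refine Finset.sum_congr rfl fun l _ => ?_
  rw [(d⁄dX ℂ).leibniz, Matrix.of_apply, Matrix.of_apply]
  simp only [smul_eq_mul]
  ring

lemma cfm_thm (M : Matrix (Fin m) (Fin p) ℂ⟦X⟧) (k : ℕ) : cfm (thm M) k = (k : ℂ) • cfm M k := by
  ext i j
  rw [cfm_apply, Matrix.smul_apply, smul_eq_mul, cfm_apply]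
  show coeff k (X * d⁄dX ℂ (M i j)) = _
  rcases k with _ | k
  · rw [coeff_zero_X_mul, Nat.cast_zero, zero_mul]
  · rw [coeff_succ_X_mul, coeff_derivative]
    push_cast
    ring

end cf

section main

variable {n : ℕ}

/-- `1 - X² / 4` -/
noncomputable def aX : ℂ⟦X⟧ := 1 - C (1 / 4 : ℂ) * (X * X)

/-- the operator on the right hand side -/
noncomputable def GX (C₀ S : Matrix (Fin n) (Fin n) ℂ) : Matrix (Fin n) (Fin n) ℂ⟦X⟧ := kC C₀ - (C (1 / 2 : ℂ) * X) • kC S

lemma aX_smul {p : ℕ} (P : Matrix (Fin n) (Fin p) ℂ⟦X⟧) : aX • P = P - (C (1 / 4 : ℂ) : ℂ⟦X⟧) • ((X : ℂ⟦X⟧) • ((X : ℂ⟦X⟧) • P)) := by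
  unfold aX
  rw [sub_smul, one_smul, mul_smul, mul_smul]

lemma GX_mul {p : ℕ} (C₀ S : Matrix (Fin n) (Fin n) ℂ) (P : Matrix (Fin n) (Fin p) ℂ⟦X⟧) :
    GX C₀ S * P = kC C₀ * P - (C (1 / 2 : ℂ) : ℂ⟦X⟧) • ((X : ℂ⟦X⟧) • (kC S * P)) := by
  unfold GX
  rw [Matrix.sub_mul, Matrix.smul_mul, mul_smul]

lemma mul_GX {p : ℕ} (C₀ S : Matrix (Fin n) (Fin n) ℂ) (P : Matrix (Fin p) (Fin n) ℂ⟦X⟧) :
    P * GX C₀ S = P * kC C₀ - (C (1 / 2 : ℂ) : ℂ⟦X⟧) • ((X : ℂ⟦X⟧) • (P * kC S)) := by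
  unfold GX
  rw [Matrix.mul_sub, Matrix.mul_smul, mul_smul]

/-- uniqueness of formal solutions -/
lemma formal_unique {C' S' : Matrix (Fin n) (Fin n) ℂ} {σ : ℂ} {u : Matrix (Fin n) (Fin 1) ℂ⟦X⟧}
    (hu : aX • ((C σ : ℂ⟦X⟧) • u - thm u) = GX C' S' * u)
    (hinj : ∀ (l : ℕ) (v : Matrix (Fin n) (Fin 1) ℂ), C' * v = (σ - l) • v → v = 0) : u = 0 := by
  have h1 : ∀ k, cfm u k = 0 := by
    intro k
    induction k using Nat.strong_induction_on with
    | _ k ih =>
      have h2 := congrArg (fun P => cfm P k) hu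
      simp only [aX_smul, GX_mul, cfm_sub, cfm_C_smul] at h2
      refine hinj k _ ?_
      rcases k with _ | _ | k
      · simp only [cfm_X_zero, smul_zero, sub_zero, cfm_sub, cfm_C_smul, cfm_thm, cfm_kC_mul] at h2
        rw [← h2, sub_smul]
      · simp only [zero_add, cfm_X_succ _ 0, cfm_X_zero, smul_zero, sub_zero, cfm_sub, cfm_C_smul, cfm_thm, cfm_kC_mul] at h2 ⊢
        rw [ih 0 (by norm_num), Matrix.mul_zero, smul_zero, sub_zero] at h2
        rw [← h2, sub_smul]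
      · simp only [cfm_X_succ, cfm_sub, cfm_C_smul, cfm_thm, cfm_kC_mul] at h2
        rw [ih k (by omega), ih (k + 1) (by omega), Matrix.mul_zero, smul_zero, smul_zero, sub_zero, smul_zero, sub_zero,
          smul_zero, sub_zero] at h2
        rw [← h2, sub_smul]
  refine cfm_ext fun k => ?_
  rw [h1 k]
  ext i j
  simp [cfm_apply]

/-- existence of a formal solution -/
lemma formal_exists {C₀ S : Matrix (Fin n) (Fin n) ℂ} {s : ℂ} {v : Matrix (Fin n) (Fin 1) ℂ} (hv : C₀ * v = s • v)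
    {R : ℕ → Matrix (Fin n) (Fin n) ℂ} (hR : ∀ l : ℕ, (C₀ - (s - ((l : ℂ) + 1)) • (1 : Matrix (Fin n) (Fin n) ℂ)) * R l = 1) :
    ∃ y : Matrix (Fin n) (Fin 1) ℂ⟦X⟧, cfm y 0 = v ∧ aX • ((C s : ℂ⟦X⟧) • y - thm y) = GX C₀ S * y := by
  set f : ℕ → Matrix (Fin n) (Fin 1) ℂ × Matrix (Fin n) (Fin 1) ℂ := fun k => Nat.rec (v, 0)
    (fun k x => (R k * ((1 / 2 : ℂ) • (S * x.1) - (1 / 4 : ℂ) • ((s - k + 1) • x.2)), x.1)) k with hf
  have hf0 : f 0 = (v, 0) := rfl
  have hfs : ∀ k, f (k + 1) = (R k * ((1 / 2 : ℂ) • (S * (f k).1) - (1 / 4 : ℂ) • ((s - k + 1) • (f k).2)), (f k).1) :=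
    fun k => rfl
  set y : Matrix (Fin n) (Fin 1) ℂ⟦X⟧ := Matrix.of fun i j => PowerSeries.mk fun k => (f k).1 i j with hy
  have hcf : ∀ k, cfm y k = (f k).1 := by
    intro k
    ext i j
    rw [cfm_apply, hy, Matrix.of_apply, coeff_mk]
  have hrec : ∀ k, C₀ * (f (k + 1)).1 - (s - ((k : ℂ) + 1)) • (f (k + 1)).1 =
      (1 / 2 : ℂ) • (S * (f k).1) - (1 / 4 : ℂ) • ((s - k + 1) • (f k).2) := by
    intro k
    have h1 : (C₀ - (s - ((k : ℂ) + 1)) • (1 : Matrix (Fin n) (Fin n) ℂ)) * (f (k + 1)).1 =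
        (1 / 2 : ℂ) • (S * (f k).1) - (1 / 4 : ℂ) • ((s - k + 1) • (f k).2) := by
      rw [hfs, ← Matrix.mul_assoc, hR, Matrix.one_mul]
    rw [← h1, Matrix.sub_mul, Matrix.smul_mul, Matrix.one_mul]
  refine ⟨y, by rw [hcf, hf0], cfm_ext fun k => ?_⟩
  simp only [aX_smul, GX_mul, cfm_sub, cfm_C_smul]
  rcases k with _ | _ | k
  · simp only [cfm_X_zero, smul_zero, sub_zero, cfm_thm, cfm_kC_mul, hcf, hf0, hv, Nat.cast_zero, zero_smul]
  · have h1 := hrec 0
    rw [hf0] at h1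
    simp only [zero_add, cfm_X_succ _ 0, cfm_X_zero, smul_zero, sub_zero, cfm_thm, cfm_kC_mul, hcf, hf0] at h1 ⊢
    rw [← h1]
    ext i j
    simp only [Matrix.sub_apply, Matrix.smul_apply, smul_eq_mul]
    push_cast
    ring
  · have h1 := hrec (k + 1)
    rw [show (f (k + 1)).2 = (f k).1 from by rw [hfs]] at h1
    simp only [cfm_X_succ, cfm_sub, cfm_C_smul, cfm_thm, cfm_kC_mul, hcf]
    ext i j
    have h2 := congrFun (congrFun h1 i) j
    simp only [Matrix.sub_apply, Matrix.smul_apply, smul_eq_mul] at h2 ⊢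
    push_cast at h2 ⊢
    linear_combination -h2

/-- the matrix in the coordinate at infinity -/
noncomputable def Mt (d : ℕ) (Z : ℕ → Matrix (Fin n) (Fin n) ℂ) : Matrix (Fin n) (Fin n) ℂ⟦X⟧ :=
  Matrix.of fun i j => PowerSeries.mk fun k => if k ≤ d then Z (d - k) i j else 0

lemma cfm_Mt (d : ℕ) (Z : ℕ → Matrix (Fin n) (Fin n) ℂ) (k : ℕ) : cfm (Mt d Z) k = if k ≤ d then Z (d - k) else 0 := by
  ext i j
  rw [cfm_apply]
  unfold Mt
  rw [Matrix.of_apply, coeff_mk]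
  split_ifs <;> rfl

lemma Mt_ode {C₀ S C' S' : Matrix (Fin n) (Fin n) ℂ} {d : ℕ} {Z : ℕ → Matrix (Fin n) (Fin n) ℂ}
    (hZ : ∀ k, d < k → Z k = 0) (h1 : Z 1 = (2 : ℂ) • (S' * Z 0 - Z 0 * S))
    (hrec : ∀ k : ℕ, C' * Z k - Z k * C₀ = (k : ℂ) • Z k - (1 / 4 : ℂ) • (((k : ℂ) + 2) • Z (k + 2)) +
        (1 / 2 : ℂ) • (S' * Z (k + 1) - Z (k + 1) * S)) :
    aX • ((C (d : ℂ) : ℂ⟦X⟧) • Mt d Z - thm (Mt d Z)) = GX C' S' * Mt d Z - Mt d Z * GX C₀ S := by
  refine cfm_ext fun k => ?_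
  simp only [aX_smul, GX_mul, mul_GX, cfm_sub, cfm_C_smul]
  rcases k with _ | _ | k
  · simp only [cfm_X_zero, smul_zero, sub_zero, cfm_thm, cfm_kC_mul, cfm_mul_kC, cfm_Mt, Nat.cast_zero, zero_smul,
      Nat.zero_le, if_true, Nat.sub_zero]
    have h2 := hrec d
    rw [hZ (d + 2) (by omega), hZ (d + 1) (by omega)] at h2
    rw [h2]
    simp
  · simp only [zero_add, cfm_X_succ _ 0, cfm_X_zero, smul_zero, sub_zero, cfm_thm, cfm_kC_mul, cfm_mul_kC, cfm_Mt,
      Nat.zero_le, if_true, Nat.sub_zero]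
    by_cases hd : 1 ≤ d
    · rw [if_pos hd]
      obtain ⟨e, rfl⟩ := Nat.exists_eq_add_of_le' hd
      have h2 := hrec e
      rw [hZ (e + 2) (by omega)] at h2
      rw [Nat.add_sub_cancel]
      ext i j
      have h3 := congrFun (congrFun h2 i) j
      simp only [Matrix.sub_apply, Matrix.add_apply, Matrix.smul_apply, smul_eq_mul, Matrix.zero_apply, mul_zero, sub_zero] at h3 ⊢
      push_cast
      linear_combination -h3
    · have hd0 : d = 0 := by omega
      subst hd0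
      rw [if_neg (by norm_num)]
      have h2 := hZ 1 (by norm_num)
      rw [h1] at h2
      have h4 : S' * Z 0 - Z 0 * S = 0 := (smul_eq_zero.1 h2).resolve_left (by norm_num)
      ext i j
      have h3 := congrFun (congrFun h4 i) j
      simp only [Matrix.sub_apply, Matrix.smul_apply, smul_eq_mul, Matrix.zero_apply, mul_zero, Matrix.mul_zero,
        Matrix.zero_mul, smul_zero, sub_zero] at h3 ⊢
      linear_combination (1 / 2 : ℂ) * h3
  · simp only [cfm_X_succ, cfm_sub, cfm_C_smul, cfm_thm, cfm_kC_mul, cfm_mul_kC, cfm_Mt]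
    rcases lt_trichotomy (k + 1) d with hlt | heq | hgt
    · rw [if_pos (by omega), if_pos (by omega), if_pos (by omega)]
      obtain ⟨e, rfl⟩ := Nat.exists_eq_add_of_le (show k + 1 + 1 ≤ d by omega)
      have e1 : k + 1 + 1 + e - (k + 1 + 1) = e := by omega
      have e2 : k + 1 + 1 + e - (k + 1) = e + 1 := by omega
      have e3 : k + 1 + 1 + e - k = e + 2 := by omega
      rw [e1, e2, e3]
      ext i j
      have h3 := congrFun (congrFun (hrec e) i) j
      simp only [Matrix.sub_apply, Matrix.add_apply, Matrix.smul_apply, smul_eq_mul] at h3 ⊢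
      push_cast
      linear_combination -h3
    · rw [if_neg (by omega), if_pos (by omega), if_pos (by omega)]
      subst heq
      have e2 : k + 1 - (k + 1) = 0 := by omega
      have e3 : k + 1 - k = 1 := by omega
      rw [e2, e3]
      ext i j
      have h3 := congrFun (congrFun h1 i) j
      simp only [Matrix.sub_apply, Matrix.smul_apply, smul_eq_mul, Matrix.zero_apply, mul_zero, Matrix.mul_zero,
        Matrix.zero_mul] at h3 ⊢
      push_cast
      linear_combination (-(1 / 4) : ℂ) * h3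
    · rw [if_neg (show ¬ (k + 1 + 1 ≤ d) by omega), if_neg (show ¬ (k + 1 ≤ d) by omega)]
      by_cases hk : k ≤ d
      · have hkd : k = d := by omega
        rw [if_pos hk, hkd]
        simp
      · rw [if_neg hk]
        simp

/-- the determinant does not vanish -/
lemma det_Mt {d : ℕ} {Z : ℕ → Matrix (Fin n) (Fin n) ℂ} (hZ : ∀ k, d < k → Z k = 0) (h0 : (Z 0).det ≠ 0) :
    (Mt d Z).det ≠ 0 := by
  classical
  set P : Matrix (Fin n) (Fin n) (Polynomial ℂ) := Matrix.of fun i j => ∑ k ∈ Finset.range (d + 1),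
    Polynomial.C (Z (d - k) i j) * Polynomial.X ^ k with hP
  have hPM : (Polynomial.coeToPowerSeries.ringHom (R := ℂ)).mapMatrix P = Mt d Z := by
    ext i j k
    rw [RingHom.mapMatrix_apply, Matrix.map_apply, Polynomial.coeToPowerSeries.ringHom_apply, Polynomial.coeff_coe, hP,
      Matrix.of_apply, Polynomial.finsetSum_coeff]
    unfold Mt
    rw [Matrix.of_apply, coeff_mk]
    simp only [Polynomial.coeff_C_mul, Polynomial.coeff_X_pow, mul_ite, mul_one, mul_zero]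
    rw [Finset.sum_ite_eq]
    by_cases hk : k ≤ d
    · rw [if_pos hk, if_pos (Finset.mem_range.2 (by omega))]
    · rw [if_neg hk, if_neg (by rw [Finset.mem_range]; omega)]
  rw [← hPM, ← RingHom.map_det]
  intro hdet
  have hdet' : P.det = 0 := by
    have h1 : ((P.det : Polynomial ℂ) : ℂ⟦X⟧) = 0 := hdet
    exact Polynomial.coe_eq_zero_iff.1 h1
  -- the reversed matrix
  set W : Matrix (Fin n) (Fin n) (Polynomial ℂ) := Matrix.of fun i j => ∑ k ∈ Finset.range (d + 1),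
    Polynomial.C (Z k i j) * Polynomial.X ^ k with hW
  have hW0 : W.det = 0 := by
    refine Polynomial.eq_zero_of_infinite_isRoot _ (Set.Infinite.mono (s := ({0} : Set ℂ)ᶜ) ?_
      (Set.finite_singleton (0 : ℂ)).infinite_compl)
    intro x hx
    have hx0 : x ≠ 0 := hx
    show W.det.eval x = 0
    have e1 : W.det.eval x = (W.map (Polynomial.eval x)).det := by
      rw [← Polynomial.coe_evalRingHom, RingHom.map_det]
      rfl
    have e2 : P.det.eval x⁻¹ = (P.map (Polynomial.eval x⁻¹)).det := by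
      rw [← Polynomial.coe_evalRingHom, RingHom.map_det]
      rfl
    have e3 : W.map (Polynomial.eval x) = x ^ d • P.map (Polynomial.eval x⁻¹) := by
      ext i j
      rw [Matrix.map_apply, Matrix.smul_apply, Matrix.map_apply, hW, hP, Matrix.of_apply, Matrix.of_apply,
        Polynomial.eval_finsetSum, Polynomial.eval_finsetSum, smul_eq_mul, Finset.mul_sum,
        ← Finset.sum_range_reflect]
      refine Finset.sum_congr rfl fun k hk => ?_
      have hk' : k ≤ d := by have := Finset.mem_range.1 hk; omega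
      have e4 : d + 1 - 1 - k = d - k := by omega
      rw [e4]
      simp only [Polynomial.eval_mul, Polynomial.eval_C, Polynomial.eval_pow, Polynomial.eval_X]
      obtain ⟨e, rfl⟩ := Nat.exists_eq_add_of_le hk'
      rw [Nat.add_sub_cancel_left, pow_add, inv_pow]
      field_simp
    rw [e1, e3, Matrix.det_smul, ← e2, hdet', Polynomial.eval_zero, mul_zero]
  apply h0
  have e1 : W.det.eval 0 = (W.map (Polynomial.eval 0)).det := by
    rw [← Polynomial.coe_evalRingHom, RingHom.map_det]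
    rfl
  have e2 : W.map (Polynomial.eval 0) = Z 0 := by
    ext i j
    rw [Matrix.map_apply, hW, Matrix.of_apply, Polynomial.eval_finsetSum, Finset.sum_range_succ']
    simp
  rw [← e2, ← e1, hW0, Polynomial.eval_zero]

/-- **exponents at infinity** -/
theorem inf_no {C₀ S C' S' : Matrix (Fin n) (Fin n) ℂ} {d : ℕ} {Z : ℕ → Matrix (Fin n) (Fin n) ℂ}
    (hZ : ∀ k, d < k → Z k = 0) (hdet : (Z 0).det ≠ 0) (h1 : Z 1 = (2 : ℂ) • (S' * Z 0 - Z 0 * S))
    (hrec : ∀ k : ℕ, C' * Z k - Z k * C₀ = (k : ℂ) • Z k - (1 / 4 : ℂ) • (((k : ℂ) + 2) • Z (k + 2)) +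
        (1 / 2 : ℂ) • (S' * Z (k + 1) - Z (k + 1) * S))
    {s : ℂ} {v : Matrix (Fin n) (Fin 1) ℂ} (hv0 : v ≠ 0) (hv : C₀ * v = s • v)
    {R : ℕ → Matrix (Fin n) (Fin n) ℂ} (hR : ∀ l : ℕ, (C₀ - (s - ((l : ℂ) + 1)) • (1 : Matrix (Fin n) (Fin n) ℂ)) * R l = 1)
    (hinj : ∀ (l : ℤ) (v : Matrix (Fin n) (Fin 1) ℂ), C' * v = (s + l) • v → v = 0) : False := by
  obtain ⟨y, hy0, hy⟩ := formal_exists (S := S) hv hR
  have hM := Mt_ode hZ h1 hrec
  set M := Mt d Z with hMd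
  have hu : aX • ((C (s + d) : ℂ⟦X⟧) • (M * y) - thm (M * y)) = GX C' S' * (M * y) := by
    rw [thm_mul, map_add, add_smul]
    have e1 : (C s : ℂ⟦X⟧) • (M * y) + (C (d : ℂ) : ℂ⟦X⟧) • (M * y) - (thm M * y + M * thm y) =
        ((C (d : ℂ) : ℂ⟦X⟧) • M - thm M) * y + M * ((C s : ℂ⟦X⟧) • y - thm y) := by
      rw [Matrix.sub_mul, Matrix.mul_sub, Matrix.smul_mul, Matrix.mul_smul]
      abel
    rw [e1, smul_add, ← Matrix.smul_mul, ← Matrix.mul_smul, hM, hy, Matrix.sub_mul, Matrix.mul_assoc, Matrix.mul_assoc,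
      sub_add_cancel]
  have hu0 := formal_unique hu fun l v hv => hinj ((d : ℤ) - l) v (by
    rw [hv]
    congr 1
    push_cast
    ring)
  have h2 : M.det • y = 0 := by
    have h3 : M.adjugate * (M * y) = 0 := by rw [hu0, Matrix.mul_zero]
    rw [← Matrix.mul_assoc, Matrix.adjugate_mul, Matrix.smul_mul, Matrix.one_mul] at h3
    exact h3
  have hdM : M.det ≠ 0 := det_Mt hZ hdet
  have h3 : y = 0 := by
    ext1 i j
    have h4 := congrFun (congrFun h2 i) j
    rw [Matrix.smul_apply, smul_eq_mul, Matrix.zero_apply] at h4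
    exact (mul_eq_zero.1 h4).resolve_left hdM
  apply hv0
  rw [← hy0, h3]
  ext i j
  simp [cfm_apply]

end main

end Run7.h309.JH
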