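import Pool.Agent.Run7.h309.JH.JGal
import Pool.Agent.Run7.h309.JH.Inf
import Pool.Agent.Y119.HY.Data2

/-!
# Joint hypergeometric families: invariance of all relations
-/

set_option autoImplicit false

open Filter Topology Matrix

namespace Run7.h309.JH

open Pool.Agent.Y119.HY

section one

variable {n : ℕ} {Q : Polynomial ℚ}

/-- the residue at infinity -/
noncomputable def Cm (n : ℕ) (Q : Polynomial ℚ) : Matrix (Fin n) (Fin n) ℚ := Am n - Bm n Q

lemma Cm_apply (i j : Fin n) : Cm n Q i j = (if (j : ℕ) = i + 1 then 1 else 0) - (if (i : ℕ) + 1 = n then Q.coeff j else 0) := by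
  unfold Cm Am Bm
  rfl

lemma Cm_row (hn : 0 < n) (i : ℕ) (hi : i < n) (j : Fin n) :
    (Cm n Q ^ i) ⟨0, hn⟩ j = if (j : ℕ) = i then 1 else 0 := by
  induction i generalizing j with
  | zero =>
    rw [pow_zero, Matrix.one_apply]
    by_cases h : (j : ℕ) = 0
    · rw [if_pos (Fin.ext h.symm), if_pos h]
    · rw [if_neg (fun h' => h (by rw [← h'])), if_neg h]
  | succ i ih =>
    rw [pow_succ, Matrix.mul_apply, Finset.sum_eq_single ⟨i, by omega⟩]
    · rw [ih (by omega), if_pos rfl, one_mul, Cm_apply]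
      simp only
      rw [if_neg (by omega : ¬ i + 1 = n), sub_zero]
    · intro l _ hl
      rw [ih (by omega), if_neg (fun h => hl (Fin.ext h)), zero_mul]
    · intro h
      exact absurd (Finset.mem_univ _) h

lemma Cm_row_last (hn : 0 < n) (j : Fin n) : (Cm n Q ^ n) ⟨0, hn⟩ j = -Q.coeff j := by
  have h0 : Cm n Q ^ n = Cm n Q ^ (n - 1) * Cm n Q := by
    rw [← pow_succ, Nat.sub_add_cancel hn]
  rw [h0, Matrix.mul_apply, Finset.sum_eq_single ⟨n - 1, by omega⟩]
  · rw [Cm_row hn (n - 1) (by omega), if_pos rfl, one_mul, Cm_apply]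
    have := j.2
    simp only
    rw [if_neg (by omega), if_pos (by omega), zero_sub]
  · intro l _ hl
    rw [Cm_row hn (n - 1) (by omega), if_neg (fun h => hl (Fin.ext h)), zero_mul]
  · intro h
    exact absurd (Finset.mem_univ _) h

/-- Cayley-Hamilton -/
lemma aeval_Cm (hQ : QD n Q) : Polynomial.aeval (Cm n Q) Q = 0 := by
  have hn : 0 < n := by have := hQ.two; omega
  have h0 : ∀ j, (Polynomial.aeval (Cm n Q) Q) ⟨0, hn⟩ j = 0 := by
    intro j
    rw [Polynomial.aeval_eq_sum_range, hQ.deg, Finset.sum_range_succ, Matrix.add_apply, Matrix.sum_apply]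
    have h2 : Q.coeff n = 1 := by
      have := hQ.monic.coeff_natDegree
      rwa [hQ.deg] at this
    rw [h2, one_smul, Cm_row_last hn, Finset.sum_eq_single (j : ℕ)]
    · rw [Matrix.smul_apply, Cm_row hn j j.2, if_pos rfl, smul_eq_mul, mul_one, add_neg_cancel]
    · intro l hl hlj
      rw [Matrix.smul_apply, Cm_row hn l (Finset.mem_range.1 hl), if_neg (Ne.symm hlj), smul_zero]
    · intro h
      exact absurd (Finset.mem_range.2 j.2) h
  ext i j
  have h1 : (Cm n Q ^ (i : ℕ) * Polynomial.aeval (Cm n Q) Q) ⟨0, hn⟩ j = (Polynomial.aeval (Cm n Q) Q) i j := by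
    rw [Matrix.mul_apply, Finset.sum_eq_single i]
    · rw [Cm_row hn i i.2, if_pos rfl, one_mul]
    · intro l _ hl
      rw [Cm_row hn i i.2, if_neg (fun h => hl (Fin.ext h)), zero_mul]
    · intro h
      exact absurd (Finset.mem_univ _) h
  have h2 : Cm n Q ^ (i : ℕ) * Polynomial.aeval (Cm n Q) Q = Polynomial.aeval (Cm n Q) Q * Cm n Q ^ (i : ℕ) := by
    have e1 : Cm n Q ^ (i : ℕ) = Polynomial.aeval (Cm n Q) (Polynomial.X ^ (i : ℕ) : Polynomial ℚ) := by
      rw [map_pow, Polynomial.aeval_X]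
    rw [e1, ← map_mul, ← map_mul, mul_comm]
  rw [← h1, h2, Matrix.mul_apply, Matrix.zero_apply]
  exact Finset.sum_eq_zero fun l _ => by rw [h0, zero_mul]

lemma aeval_cm_Cm (hQ : QD n Q) : Polynomial.aeval (cm (Cm n Q)) Q = 0 := by
  have h2 : Polynomial.aeval (cm (Cm n Q)) Q = cm (Polynomial.aeval (Cm n Q) Q) :=
    Polynomial.aeval_algHom_apply (((algebraMap ℚ ℂ).mapMatrix : Matrix (Fin n) (Fin n) ℚ →+* Matrix (Fin n) (Fin n) ℂ).toRatAlgHom)
      (Cm n Q) Q
  rw [h2, aeval_Cm hQ, cm_zero]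

lemma cm_Cm (hQ : QD n Q) : cm (Am n) + vecMulVec (uc n) (uc n ᵥ* cm (Jm n Q)) = cm (Cm n Q) := by
  have h1 : cm (Cm n Q) = cm (Am n) - cm (Bm n Q) := by
    unfold Cm cm
    rw [map_sub]
  rw [h1, cm_Bm hQ, sub_neg_eq_add]

/-- the connection data of the hypergeometric system -/
theorem cs_hyp (hQ : QD n Q) : ∃ (K : ℕ → Matrix (Fin n) (Fin n) ℂ) (M Mi : Matrix (Fin n) (Fin n) ℂ),
    CS (cm (Jm n Q)) (cm (Am n)) (uc n) (Hc n Q) K M Mi := by
  have hn := hQ.two
  have hJ := Jc_skew hQ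
  have hdet := Jc_det hQ
  set J := cm (Jm n Q) with hJd
  set A := cm (Am n) with hAd
  set u := uc n with hu
  set B : Matrix (Fin n) (Fin n) ℂ := -vecMulVec u (u ᵥ* J) with hBdef
  have hA : A ^ n = 0 := Ac_nil
  have hAJ : A.transpose * J + J * A = 0 := Jc_rel
  have hH : Sol A B (Hc n Q) := by
    have hs := sol_c hQ
    rw [cm_Bm hQ] at hs
    exact hs
  have hnB : -B = vecMulVec u (u ᵥ* J) := by rw [hBdef, neg_neg]
  have hB : (-B) ^ n = 0 := by rw [hnB]; exact tv_pow hJ u hn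
  have hBJ : B.transpose * J + J * B = 0 := by
    rw [hBdef, transpose_neg, neg_mul, mul_neg, ← neg_add, tv_skew hJ, neg_zero]
  obtain ⟨K, hK⟩ := exists_sol hB (-A)
  obtain ⟨M, Mi, hMMi, hMiM, hMJ, hconn⟩ := connect hdet hA hAJ hB hBJ hH hK
  have hMiJ : Mi.transpose * J * Mi = J := by
    calc Mi.transpose * J * Mi = Mi.transpose * (M.transpose * J * M) * Mi := by rw [hMJ]
      _ = (M * Mi).transpose * J * (M * Mi) := by rw [transpose_mul]; simp only [Matrix.mul_assoc]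
      _ = J := by rw [hMMi, transpose_one, one_mul, mul_one]
  refine ⟨K, M, Mi, hn, hJ, hdet, hA, hAJ, hH, by rwa [hnB] at hK, hMMi, hMiM, hMJ, by rwa [hnB] at hconn, ?_⟩
  have hcyc : ∀ v, om J v (ec n) ≠ 0 → om J v ((A ^ (n - 1)) *ᵥ v) ≠ 0 := by
    intro v hv
    have h1 := hv
    rw [hJd, om_ec hQ] at h1
    rw [hAd, Ac_last hn, om_smul]
    exact mul_ne_zero (left_ne_zero_of_mul h1) hv
  refine hcyc (Mi *ᵥ u) ?_
  intro h0
  have h1 : om J u (M *ᵥ ec n) = 0 := by
    have h2 : om J (Mi *ᵥ u) (Mi *ᵥ (M *ᵥ ec n)) = om J u (M *ᵥ ec n) := by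
      unfold om
      rw [mulVec_mulVec, ← vecMul_transpose, ← dotProduct_mulVec, mulVec_mulVec, ← Matrix.mul_assoc, hMiJ]
    rw [← h2, mulVec_mulVec (ec n) Mi M, hMiM, one_mulVec]
    exact h0
  have h2 : (-B) *ᵥ (M *ᵥ ec n) = 0 := by
    rw [hnB, vecMulVec_mulVec, ← om_eq, h1]
    simp
  refine sing hQ (fun z => (Hf K (1 - z) *ᵥ (M *ᵥ ec n)) ⟨0, by omega⟩) ?_ fun z hz => ?_
  · simp only [Matrix.mulVec, dotProduct]
    refine Finset.analyticOnNhd_fun_sum _ fun j _ => AnalyticOnNhd.mul ?_ analyticOnNhd_const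
    intro z hz
    have h3 : AnalyticAt ℂ (fun w => Hf K w ⟨0, by omega⟩ j) (1 - z) := Hf_an hK hB _ j (1 - z) (by
      rw [Metric.mem_ball, dist_comm, dist_eq_norm] at hz
      rwa [Metric.mem_ball, dist_zero_right])
    have h4 : AnalyticAt ℂ (fun w : ℂ => 1 - w) z := analyticAt_const.sub analyticAt_id
    exact h3.fun_comp h4
  · have h3 := congrArg (fun X : Matrix (Fin n) (Fin n) ℂ => X *ᵥ ec n) (hconn z hz)
    unfold Yf at h3
    rw [← mulVec_mulVec, E_fix (Ac_ec n), ← mulVec_mulVec, ← mulVec_mulVec, E_fix h2] at h3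
    rw [h3]

/-- the resolvent -/
lemma resolvent (hQ : QD n Q) {μ : ℂ} (hμ : (Q.map (algebraMap ℚ ℂ)).eval μ ≠ 0) :
    ∃ R : Matrix (Fin n) (Fin n) ℂ, (cm (Cm n Q) - μ • (1 : Matrix (Fin n) (Fin n) ℂ)) * R = 1 ∧
      R * (cm (Cm n Q) - μ • (1 : Matrix (Fin n) (Fin n) ℂ)) = 1 := by
  have hcop : IsCoprime (Polynomial.X - Polynomial.C μ) (Q.map (algebraMap ℚ ℂ)) := by
    refine (Polynomial.irreducible_X_sub_C μ).coprime_iff_not_dvd.2 fun h => hμ ?_
    exact Polynomial.dvd_iff_isRoot.1 h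
  obtain ⟨U, W, hUW⟩ := hcop
  have h1 := congrArg (Polynomial.aeval (cm (Cm n Q))) hUW
  have h2 : Polynomial.aeval (cm (Cm n Q)) (Q.map (algebraMap ℚ ℂ)) = 0 := by
    rw [Polynomial.aeval_map_algebraMap, aeval_cm_Cm hQ]
  rw [map_add, map_mul, map_mul, map_one, h2, mul_zero, add_zero, map_sub, Polynomial.aeval_X, Polynomial.aeval_C,
    Algebra.algebraMap_eq_smul_one] at h1
  exact ⟨Polynomial.aeval (cm (Cm n Q)) U, mul_eq_one_comm.1 h1, h1⟩

/-- the eigenvector of the companion matrix -/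
lemma eigen (hQ : QD n Q) {s : ℂ} (hs : (Q.map (algebraMap ℚ ℂ)).eval s = 0) :
    cm (Cm n Q) * (Matrix.of fun (i : Fin n) (_ : Fin 1) => s ^ (i : ℕ)) =
      s • (Matrix.of fun (i : Fin n) (_ : Fin 1) => s ^ (i : ℕ)) := by
  ext i j
  rw [Matrix.mul_apply, Matrix.smul_apply, Matrix.of_apply, smul_eq_mul, ← pow_succ']
  have hC : ∀ l : Fin n, cm (Cm n Q) i l = (if (l : ℕ) = i + 1 then 1 else 0) - (if (i : ℕ) + 1 = n then (Q.coeff l : ℂ) else 0) := by
    intro l
    rw [cm_apply, Cm_apply]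
    push_cast
    split_ifs <;> simp
  simp only [hC, Matrix.of_apply, sub_mul, Finset.sum_sub_distrib, ite_mul, one_mul, zero_mul]
  by_cases hi : (i : ℕ) + 1 = n
  · simp only [if_pos hi]
    rw [Finset.sum_eq_zero fun l _ => if_neg (by have := l.2; omega), zero_sub]
    have h1 : (Q.map (algebraMap ℚ ℂ)).eval s = ∑ l ∈ Finset.range n, ((Q.coeff l : ℚ) : ℂ) * s ^ l + s ^ n := by
      rw [Polynomial.eval_eq_sum_range, Polynomial.natDegree_map, hQ.deg, Finset.sum_range_succ]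
      have h2 : Q.coeff n = 1 := by
        have := hQ.monic.coeff_natDegree
        rwa [hQ.deg] at this
      simp only [Polynomial.coeff_map, h2, map_one, one_mul]
      rfl
    rw [hs, Finset.sum_range] at h1
    rw [hi]
    linear_combination h1
  · simp only [if_neg hi, Finset.sum_const_zero, sub_zero]
    have hi' : (i : ℕ) + 1 < n := by have := i.2; omega
    rw [Finset.sum_eq_single ⟨(i : ℕ) + 1, hi'⟩]
    · rw [if_pos rfl]
    · intro l _ hl
      rw [if_neg fun h => hl (Fin.ext h)]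
    · intro h
      exact absurd (Finset.mem_univ _) h

/-- an exponent of the first system which is not congruent to an exponent of the second system -/
theorem nohom_hyp {n' : ℕ} {Q' : Polynomial ℚ} (hQ : QD n Q) (hQ' : QD n' Q') (hnn : n = n')
    (hs : ∃ s : ℚ, Q.eval s = 0 ∧ ∀ z : ℤ, Q'.eval (s + z) ≠ 0) (S : Matrix (Fin n) (Fin n) ℂ)
    (S' : Matrix (Fin n') (Fin n') ℂ) : NoHom (cm (Cm n Q)) S (cm (Cm n' Q')) S' := by
  classical
  subst hnn
  obtain ⟨s₀, hs₀, hno⟩ := hs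
  have hn := hQ.two
  -- the last root in the class
  obtain ⟨s, hsr, hsl, hsn⟩ : ∃ s : ℚ, Q.eval s = 0 ∧ (∀ l : ℕ, Q.eval (s - ((l : ℚ) + 1)) ≠ 0) ∧
      ∀ z : ℤ, Q'.eval (s + z) ≠ 0 := by
    have hQ0 : Q ≠ 0 := hQ.monic.ne_zero
    have hfin : {m : ℕ | Q.eval (s₀ - (m : ℚ)) = 0}.Finite := by
      refine Set.Finite.of_finite_image (f := fun m : ℕ => s₀ - (m : ℚ)) ?_ fun a _ b _ hab => ?_
      · refine (Q.rootSet_finite ℚ).subset ?_
        rintro _ ⟨m, hm, rfl⟩
        rw [Polynomial.mem_rootSet]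
        refine ⟨hQ0, ?_⟩
        rw [Polynomial.coe_aeval_eq_eval]
        exact hm
      · have h1 : (a : ℚ) = b := by
          have : s₀ - (a : ℚ) = s₀ - (b : ℚ) := hab
          linarith
        exact_mod_cast h1
    have hne : hfin.toFinset.Nonempty := ⟨0, by
      rw [Set.Finite.mem_toFinset]
      show Q.eval (s₀ - ((0 : ℕ) : ℚ)) = 0
      rw [Nat.cast_zero, sub_zero]
      exact hs₀⟩
    set m := hfin.toFinset.max' hne with hm
    have hmem := hfin.toFinset.max'_mem hne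
    rw [Set.Finite.mem_toFinset] at hmem
    refine ⟨s₀ - (m : ℚ), hmem, fun l hl => ?_, fun z => ?_⟩
    · have h1 : m + (l + 1) ∈ hfin.toFinset := by
        rw [Set.Finite.mem_toFinset]
        show Q.eval (s₀ - ((m + (l + 1) : ℕ) : ℚ)) = 0
        rw [← hl]
        congr 1
        push_cast
        ring
      have h2 := hfin.toFinset.le_max' _ h1
      omega
    · have h1 := hno (z - m)
      have h2 : s₀ + ((z - m : ℤ) : ℚ) = s₀ - (m : ℚ) + z := by push_cast; ring
      rwa [h2] at h1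
  have hmap : ∀ (P : Polynomial ℚ) (x : ℚ), (P.map (algebraMap ℚ ℂ)).eval (x : ℂ) = ((P.eval x : ℚ) : ℂ) := by
    intro P x
    have := Polynomial.eval_map_apply (p := P) (algebraMap ℚ ℂ) x
    exact this
  intro d Z W hZd hWZ _ hZ1 hrec
  have hdet : (Z 0).det ≠ 0 := by
    intro h0
    have h1 := congrArg Matrix.det hWZ
    rw [Matrix.det_mul, h0, mul_zero, Matrix.det_one] at h1
    exact zero_ne_one h1
  choose R hR _ using fun l : ℕ => resolvent hQ (μ := (s : ℂ) - ((l : ℂ) + 1)) (by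
    have h1 := hsl l
    have h2 : (s : ℂ) - ((l : ℂ) + 1) = ((s - ((l : ℚ) + 1) : ℚ) : ℂ) := by push_cast; ring
    rw [h2, hmap]
    exact_mod_cast h1)
  refine inf_no hZd hdet hZ1 hrec (s := (s : ℂ)) (v := Matrix.of fun (i : Fin n) (_ : Fin 1) => (s : ℂ) ^ (i : ℕ)) ?_
    (eigen hQ (by rw [hmap, hsr, Rat.cast_zero])) hR fun l v hv => ?_
  · intro h0
    have h1 := congrFun (congrFun h0 ⟨0, by omega⟩) 0
    rw [Matrix.of_apply, pow_zero, Matrix.zero_apply] at h1
    exact one_ne_zero h1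
  · obtain ⟨R', -, hR'⟩ := resolvent hQ' (μ := (s : ℂ) + l) (by
      have h1 := hsn l
      have h2 : (s : ℂ) + l = ((s + l : ℚ) : ℂ) := by push_cast; ring
      rw [h2, hmap]
      exact_mod_cast h1)
    calc v = R' * ((cm (Cm n Q') - ((s : ℂ) + l) • (1 : Matrix (Fin n) (Fin n) ℂ)) * v) := by
          rw [← Matrix.mul_assoc, hR', Matrix.one_mul]
      _ = 0 := by rw [Matrix.sub_mul, hv, Matrix.smul_mul, Matrix.one_mul, sub_self, Matrix.mul_zero]

/-- the condition on the exponents: there is an exponent of one of the two which is not congruent to an exponent of the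
other -/
def Diff (Q Q' : Polynomial ℚ) : Prop :=
  (∃ s : ℚ, Q.eval s = 0 ∧ ∀ z : ℤ, Q'.eval (s + z) ≠ 0) ∨ ∃ s : ℚ, Q'.eval s = 0 ∧ ∀ z : ℤ, Q.eval (s + z) ≠ 0

end one

variable {q : ℕ} {n : Fin q → ℕ} {Q : Fin q → Polynomial ℚ}

/-- **The relations between the solutions of several hypergeometric systems are invariant under the product of the
symplectic groups.** -/
theorem hyp_invarj (hQ : ∀ a, QD (n a) (Q a)) (hsep : ∀ a b, a ≠ b → n a = n b → Diff (Q a) (Q b)) (g : TM n)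
    (hg : ∀ a, (g a).transpose * cm (Jm (n a) (Q a)) * g a = cm (Jm (n a) (Q a))) :
    g ∈ Galj (Yj (fun a => cm (Am (n a))) fun a => Hc (n a) (Q a)) := by
  choose K M Mi h using fun a => cs_hyp (hQ a)
  refine invarj h (fun a b hab => ?_) g hg
  by_cases hn : n a = n b
  · rcases hsep a b hab hn with h1 | h1
    · refine sep_two (h a) (h b) fun _ => ?_
      rw [cm_Cm (hQ a), cm_Cm (hQ b)]
      exact nohom_hyp (hQ a) (hQ b) hn h1 _ _
    · refine (sep_two (h b) (h a) fun _ => ?_).symm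
      rw [cm_Cm (hQ a), cm_Cm (hQ b)]
      exact nohom_hyp (hQ b) (hQ a) hn.symm h1 _ _
  · exact sep_two (h a) (h b) fun h' => absurd h' hn

end Run7.h309.JH
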