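import Pool.Agent.Run7.h309.JH.JRl

/-!
# Several hypergeometric systems together satisfy the hypotheses of the theorem on tuples of families of G-functions
-/

set_option autoImplicit false

open PowerSeries Pool.Agent.Y113 Pool.Agent.Y120.GF Pool.Agent.Y120.GH

namespace Run7.h309.JH

open Pool.Agent.Y119.HY (QD Am Jm cm Ep E)
open Pool.Agent.Y119.HZ (Hp Phi A2 T1 cxR cxR_apply pE pE_bound rho rho_Phi Phi_coeff Phi_ode ode_A2 exists_b gsys_Hp)

section blocks

variable {q : ℕ} {ι : Fin q → Type} [∀ a, Fintype (ι a)] {R S : Type} [CommRing R] [CommRing S]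

lemma sum_block (f : R → S) (hf : f 0 = 0) (M : ∀ a, Matrix (ι a) (ι a) R) (a : Fin q) (i : ι a)
    (x : (Σ a, ι a) → S) : ∑ p, f (Matrix.blockDiagonal' M ⟨a, i⟩ p) * x p = ∑ j, f (M a i j) * x ⟨a, j⟩ := by
  rw [Fintype.sum_sigma, Finset.sum_eq_single a]
  · exact Finset.sum_congr rfl fun j _ => by rw [Matrix.blockDiagonal'_apply_eq]
  · intro b _ hb
    exact Finset.sum_eq_zero fun j _ => by rw [Matrix.blockDiagonal'_apply_ne _ _ _ hb.symm, hf, zero_mul]
  · intro h
    exact absurd (Finset.mem_univ _) h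

end blocks

/-- the union of G-systems with the same denominator -/
theorem gsys_union {q : ℕ} {ι : Fin q → Type} [∀ a, Fintype (ι a)] {T : Polynomial ℤ} {y : ∀ a, ι a → ℚ⟦X⟧}
    (h : ∀ a, ∃ (d : ℕ) (C : ℝ), GSys d C T (y a)) :
    ∃ (d : ℕ) (C : ℝ), GSys d C T (fun p : Σ a, ι a => y p.1 p.2) := by
  classical
  choose d0 C0 hG0 using h
  have hC0 : ∀ a, 1 ≤ C0 a := fun a => (hG0 a).one_le
  set d : ℕ := T.natDegree + ∑ a, d0 a with hd
  set c : ℝ := 1 + (∑ l ∈ T.support, |((T.coeff l : ℤ) : ℝ)|) + ∑ a, C0 a with hc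
  have hS0 : 0 ≤ ∑ l ∈ T.support, |((T.coeff l : ℤ) : ℝ)| := Finset.sum_nonneg fun _ _ => abs_nonneg _
  have hS1 : 0 ≤ ∑ a, C0 a := Finset.sum_nonneg fun a _ => by linarith [hC0 a]
  have hc1 : 1 ≤ c := by linarith
  have hG : ∀ a, GSys d c T (y a) := fun a => (hG0 a).mono
    ((Finset.single_le_sum (f := d0) (fun _ _ => Nat.zero_le _) (Finset.mem_univ a)).trans (Nat.le_add_left _ _))
    (by
      have := Finset.single_le_sum (f := C0) (fun a _ => by linarith [hC0 a]) (Finset.mem_univ a)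
      linarith)
  have hcq : ∀ m : ℕ, (c ^ q) ^ m * c ^ m = (c ^ (q + 1)) ^ m := fun m => by rw [← mul_pow, ← pow_succ]
  have hcc : c ≤ c ^ (q + 1) := le_self_pow₀ hc1 (Nat.succ_ne_zero q)
  refine ⟨d, c ^ (q + 1), ⟨one_le_pow₀ hc1, Nat.le_add_right _ _, fun l => ?_, fun p m => ?_, fun m => ?_, fun k => ?_⟩⟩
  · refine le_trans ?_ hcc
    by_cases hl : l ∈ T.support
    · have := Finset.single_le_sum (f := fun l => |((T.coeff l : ℤ) : ℝ)|) (fun _ _ => abs_nonneg _) hl
      linarith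
    · rw [Polynomial.notMem_support_iff.1 hl, Int.cast_zero, abs_zero]
      linarith
  · exact ((hG p.1).size p.2 m).trans (pow_le_pow_left₀ (by linarith) hcc _)
  · choose e he0 heC he using fun a => (hG a).den m
    refine ⟨∏ a, e a, Finset.prod_pos fun a _ => he0 a, ?_, fun p j hj => ?_⟩
    · push_cast
      calc ∏ a, (e a : ℝ) ≤ ∏ _a : Fin q, c ^ (m + 1) := Finset.prod_le_prod (fun a _ => Nat.cast_nonneg _) fun a _ => heC a
        _ = (c ^ q) ^ (m + 1) := by rw [Finset.prod_const, Finset.card_univ, Fintype.card_fin, ← pow_mul, ← pow_mul, mul_comm]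
        _ ≤ (c ^ (q + 1)) ^ (m + 1) := pow_le_pow_left₀ (by positivity) (pow_le_pow_right₀ hc1 (Nat.le_succ q)) _
    · obtain ⟨z, hz⟩ := he p.1 p.2 j hj
      refine ⟨(∏ b ∈ Finset.univ.erase p.1, (e b : ℤ)) * z, ?_⟩
      push_cast
      rw [← hz, ← Finset.mul_prod_erase Finset.univ (fun b => (e b : ℚ)) (Finset.mem_univ p.1)]
      ring
  · choose g hg0 hgC hg using fun a => (hG a).der k
    have hprod : (∏ a, (g a : ℝ)) ≤ (c ^ q) ^ (k + 1) := by
      calc ∏ a, (g a : ℝ) ≤ ∏ _a : Fin q, c ^ (k + 1) := Finset.prod_le_prod (fun a _ => Nat.cast_nonneg _) fun a _ => hgC a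
        _ = (c ^ q) ^ (k + 1) := by rw [Finset.prod_const, Finset.card_univ, Fintype.card_fin, ← pow_mul, ← pow_mul, mul_comm]
    refine ⟨∏ a, g a, Finset.prod_pos fun a _ => hg0 a, ?_, fun s hs => ?_⟩
    · push_cast
      exact hprod.trans (pow_le_pow_left₀ (by positivity) (pow_le_pow_right₀ hc1 (Nat.le_succ q)) _)
    · choose G hGd hGb hGe using fun a => hg a s hs
      set e : Fin q → ℕ := fun a => ∏ b ∈ Finset.univ.erase a, g b with he
      have heg : ∀ a, g a * e a = ∏ b, g b := fun a => Finset.mul_prod_erase Finset.univ g (Finset.mem_univ a)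
      have hele : ∀ a, (e a : ℝ) ≤ (c ^ q) ^ (k + 1) := by
        intro a
        refine le_trans ?_ hprod
        have h1 : e a ≤ ∏ b, g b := by
          rw [← heg a]
          exact Nat.le_mul_of_pos_left _ (hg0 a)
        calc (e a : ℝ) ≤ ((∏ b, g b : ℕ) : ℝ) := by exact_mod_cast h1
          _ = _ := by push_cast; rfl
      set M : ∀ a, Matrix (ι a) (ι a) (Polynomial ℤ) := fun a => Matrix.of fun i j => Polynomial.C (e a : ℤ) * G a i j with hM
      refine ⟨fun p p' => Matrix.blockDiagonal' M p p', fun p p' => ?_, fun p p' l => ?_, fun p => ?_⟩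
      · obtain ⟨a, i⟩ := p
        obtain ⟨b, j⟩ := p'
        beta_reduce
        by_cases hab : a = b
        · subst hab
          rw [Matrix.blockDiagonal'_apply_eq]
          exact (Polynomial.natDegree_C_mul_le _ _).trans (hGd a i j)
        · rw [Matrix.blockDiagonal'_apply_ne _ _ _ hab, Polynomial.natDegree_zero]
          exact Nat.zero_le _
      · obtain ⟨a, i⟩ := p
        obtain ⟨b, j⟩ := p'
        beta_reduce
        by_cases hab : a = b
        · subst hab
          rw [Matrix.blockDiagonal'_apply_eq]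
          show |((((Polynomial.C (e a : ℤ) * G a i j).coeff l : ℤ)) : ℝ)| ≤ _
          rw [Polynomial.coeff_C_mul]
          push_cast
          rw [abs_mul, Nat.abs_cast, ← hcq]
          exact mul_le_mul (hele a) (hGb a i j l) (abs_nonneg _) (by positivity)
        · rw [Matrix.blockDiagonal'_apply_ne _ _ _ hab, Polynomial.coeff_zero, Int.cast_zero, abs_zero]
          positivity
      · obtain ⟨a, i⟩ := p
        have h1 := sum_block (fun P : Polynomial ℤ => ps P) (by simp [ps]) M a i (fun p : Σ a, ι a => y p.1 p.2)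
        refine Eq.trans ?_ h1.symm
        have h2 : ((∏ b, g b : ℕ) : ℚ⟦X⟧) = (e a : ℚ⟦X⟧) * (g a : ℚ⟦X⟧) := by
          rw [← heg a]
          push_cast
          ring
        rw [h2, mul_assoc, hGe a i, Finset.mul_sum]
        refine Finset.sum_congr rfl fun j _ => ?_
        rw [hM]
        simp only [Matrix.of_apply]
        rw [ps_mul, ps_C]
        push_cast
        ring

section

variable {n : ℕ} {Q : Polynomial ℚ}

lemma Phi_bound (hH : ∀ i j, SDc (Hp n Q i j)) : ∃ K : ℝ, 0 ≤ K ∧ ∀ (p p' : Fin n × Fin n) (k m : ℕ),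
    ‖coeff m ((Phi n Q p p').coeff k)‖ ≤ K ^ (m + 1) := by
  obtain ⟨B, hB0, hB⟩ := pE_bound (cm (Am n))
  obtain ⟨C₁, hC₁, hs, -⟩ := Pool.Agent.Y119.HY.SDc.unif (y := fun p : Fin n × Fin n => Hp n Q p.1 p.2) fun p => hH p.1 p.2
  have hC₁0 : 0 ≤ C₁ := by linarith
  refine ⟨(n * B + 1) * C₁, by positivity, fun a c k m => ?_⟩
  rw [Phi_coeff, map_sum]
  have h1 : ∀ d, ‖coeff m (cx (Hp n Q a.1 d) * C ((pE (cm (Am n)) d c.1 c.2 a.2).coeff k))‖ ≤ C₁ ^ (m + 1) * B := by
    intro d
    rw [coeff_mul_C, norm_mul, norm_coeff_cx]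
    exact mul_le_mul (hs (_, d) m) (hB _ _ _ _ _) (norm_nonneg _) (by positivity)
  refine (norm_sum_le _ _).trans ((Finset.sum_le_sum fun d _ => h1 d).trans ?_)
  rw [Finset.sum_const, Finset.card_univ, Fintype.card_fin, nsmul_eq_mul, mul_pow]
  have h2 : (n : ℝ) * B ≤ (n * B + 1) ^ (m + 1) := by
    have h3 : 0 ≤ (n : ℝ) * B := by positivity
    exact le_trans (by linarith) (le_self_pow₀ (by linarith) (by omega))
  calc (n : ℝ) * (C₁ ^ (m + 1) * B) = (n * B) * C₁ ^ (m + 1) := by ring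
    _ ≤ _ := mul_le_mul_of_nonneg_right h2 (by positivity)

end

variable {q : ℕ} {n : Fin q → ℕ} {Q : Fin q → Polynomial ℚ}

/-- a common denominator -/
lemma exists_bj (n : Fin q → ℕ) (Q : Fin q → Polynomial ℚ) : ∃ (D : ℕ) (b : ∀ a, Fin (n a) → Fin (n a) → ℤ), D ≠ 0 ∧
    ∀ a i j, (b a i j : ℚ) = D * Pool.Agent.Y119.HY.Bm (n a) (Q a) i j := by
  classical
  choose D b hD hb using fun a => exists_b (n a) (Q a)
  refine ⟨∏ a, D a, fun a i j => (∏ c ∈ Finset.univ.erase a, (D c : ℤ)) * b a i j,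
    Finset.prod_ne_zero_iff.2 fun a _ => hD a, fun a i j => ?_⟩
  push_cast
  rw [hb, ← Finset.mul_prod_erase Finset.univ (fun c => (D c : ℚ)) (Finset.mem_univ a)]
  ring

/-- the joint matrix of the system -/
noncomputable def A2j (n : Fin q → ℕ) (D : ℕ) (b : ∀ a, Fin (n a) → Fin (n a) → ℤ) : Matrix (Ej n) (Ej n) (Polynomial ℤ) :=
  Matrix.blockDiagonal' fun a => Matrix.of (A2 (n a) D (b a))

/-- the joint fundamental matrix -/
noncomputable def Phij (n : Fin q → ℕ) (Q : Fin q → Polynomial ℚ) : Matrix (Ej n) (Ej n) (Polynomial (PowerSeries ℂ)) :=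
  Matrix.blockDiagonal' fun a => Matrix.of (Phi (n a) (Q a))

theorem qu_hj (hQ : ∀ a, QD (n a) (Q a)) (hH : ∀ a i j, SDc (Hp (n a) (Q a) i j)) {D : ℕ}
    {b : ∀ a, Fin (n a) → Fin (n a) → ℤ} (hb : ∀ a i j, (b a i j : ℚ) = D * Pool.Agent.Y119.HY.Bm (n a) (Q a) i j) :
    QU0 (Polynomial.X * T1 D) (fun x y : Fin (rj n) => A2j n D b (ixj n x) (ixj n y)) := by
  classical
  choose K hK0 hK using fun a => Phi_bound (hH a)
  have hKs : ∀ a, K a ≤ ∑ a, K a := fun a => Finset.single_le_sum (f := K) (fun a _ => hK0 a) (Finset.mem_univ a)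
  have hS0 : 0 ≤ ∑ a, K a := Finset.sum_nonneg fun a _ => hK0 a
  refine ⟨1, one_ne_zero, 0, ∑ a, K a, Matrix.of fun x y => Phij n Q (ixj n x) (ixj n y), fun x y k m => ?_,
    fun x y k => ?_, ?_⟩
  · rw [Matrix.of_apply]
    obtain ⟨a, i⟩ := ixj n x
    obtain ⟨c, j⟩ := ixj n y
    unfold Phij
    by_cases hac : a = c
    · subst hac
      rw [Matrix.blockDiagonal'_apply_eq]
      exact (hK a i j k m).trans (pow_le_pow_left₀ (hK0 a) (hKs a) _)
    · rw [Matrix.blockDiagonal'_apply_ne _ _ _ hac, Polynomial.coeff_zero, map_zero, norm_zero]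
      positivity
  · simp only [expand_poly one_ne_zero, Polynomial.expand_one]
    simp only [← cxR_apply]
    rw [Nat.cast_zero, zero_mul, sub_zero, Nat.cast_one, one_mul, pow_one]
    have h2 : ∑ l : Fin (rj n), cxR (A2j n D b (ixj n x) (ixj n l)) *
        ((Matrix.of fun x y => Phij n Q (ixj n x) (ixj n y)) l y).coeff k =
        ∑ l, cxR (A2j n D b (ixj n x) l) * (Phij n Q l (ixj n y)).coeff k :=
      Equiv.sum_comp (ixj n) fun l => cxR (A2j n D b (ixj n x) l) * (Phij n Q l (ixj n y)).coeff k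
    rw [h2]
    have h3 : cxR Polynomial.X = (X : PowerSeries ℂ) := by
      rw [cxR_apply, Polynomial.map_X, Polynomial.coe_X]
    rw [map_mul, h3, mul_assoc]
    congr 1
    show cxR (T1 D) * (X * PowerSeries.derivative ℂ ((Phij n Q (ixj n x) (ixj n y)).coeff k) +
      ((k : PowerSeries ℂ) + 1) * (Phij n Q (ixj n x) (ixj n y)).coeff (k + 1)) = _
    obtain ⟨a, i⟩ := ixj n x
    obtain ⟨c, j⟩ := ixj n y
    have h4 := sum_block (fun P : Polynomial ℤ => cxR P) (map_zero _) (fun a => Matrix.of (A2 (n a) D (b a))) a i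
      (fun l : Ej n => (Phij n Q l ⟨c, j⟩).coeff k)
    refine Eq.trans ?_ h4.symm
    unfold Phij
    by_cases hac : a = c
    · subst hac
      simp only [Matrix.blockDiagonal'_apply_eq]
      exact Phi_ode (hQ a) (hb a) i j k
    · simp only [Matrix.blockDiagonal'_apply_ne _ _ _ hac, Polynomial.coeff_zero, map_zero, mul_zero, add_zero,
        Finset.sum_const_zero]
  · intro h0
    have h1 := congrArg rho h0
    rw [RingHom.map_det, map_zero] at h1
    have h2 : rho.mapMatrix (Matrix.of fun x y : Fin (rj n) => Phij n Q (ixj n x) (ixj n y)) = 1 := by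
      ext x y
      rw [RingHom.mapMatrix_apply, Matrix.map_apply, Matrix.of_apply, Matrix.one_apply]
      have h3 : rho (Phij n Q (ixj n x) (ixj n y)) = if ixj n x = ixj n y then 1 else 0 := by
        obtain ⟨a, i⟩ := ixj n x
        obtain ⟨c, j⟩ := ixj n y
        unfold Phij
        by_cases hac : a = c
        · subst hac
          rw [Matrix.blockDiagonal'_apply_eq]
          show rho (Phi (n a) (Q a) i j) = _
          rw [rho_Phi]
          by_cases hij : i = j
          · rw [if_pos hij, if_pos (by rw [hij])]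
          · rw [if_neg hij, if_neg fun h => hij (by simpa using h)]
        · rw [Matrix.blockDiagonal'_apply_ne _ _ _ hac, map_zero, if_neg fun h => hac (congrArg Sigma.fst h)]
      rw [h3]
      by_cases hxy : x = y
      · rw [if_pos hxy, if_pos (by rw [hxy])]
      · rw [if_neg hxy, if_neg fun h => hxy ((ixj n).injective h)]
    rw [h2, Matrix.det_one] at h1
    exact one_ne_zero h1

/-- **the hypothesis of the theorem on tuples** -/
theorem hfam_hj (hQ : ∀ a, QD (n a) (Q a)) (hH : ∀ a i j, SDc (Hp (n a) (Q a) i j)) (δ : ℕ) :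
    ∃ (B : Finset (Fin δ → Option (Fin (rj n)))) (a : Polynomial ℤ)
      (M : (Fin δ → Option (Fin (rj n))) → B → Polynomial ℤ), a ≠ 0 ∧
      (∀ b, ps a * yw (hj n Q) b = ∑ β, ps (M b β) * yw (hj n Q) β.1) ∧ One (XF δ fun β : B => yw (hj n Q) β.1) := by
  classical
  obtain ⟨D, b, hD, hb⟩ := exists_bj n Q
  obtain ⟨d, C, hG⟩ := gsys_union (T := Polynomial.X * T1 D) (y := fun a (p : Fin (n a) × Fin (n a)) => Hp (n a) (Q a) p.1 p.2)
    fun a => gsys_Hp (hQ a) (hH a) (hb a)
  have hG' := hG.reindex (ixj n)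
  have hT : Polynomial.X * T1 D ≠ 0 := by
    refine mul_ne_zero Polynomial.X_ne_zero (mul_ne_zero (Polynomial.C_ne_zero.2 (by exact_mod_cast hD)) ?_)
    intro h0
    have := congrArg (Polynomial.eval 0) h0
    simp at this
  refine Pool.Agent.Y119.HZ.family_gsys (h := hj n Q) (A := fun x y => A2j n D b (ixj n x) (ixj n y)) hT (fun i => ?_) hG'
    (qu_hj hQ hH hb) δ
  have h2 : ∑ j : Fin (rj n), ps (A2j n D b (ixj n i) (ixj n j)) * hj n Q j =
      ∑ p, ps (A2j n D b (ixj n i) p) * Hp (n p.1) (Q p.1) p.2.1 p.2.2 :=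
    Equiv.sum_comp (ixj n) fun p : Ej n => ps (A2j n D b (ixj n i) p) * Hp (n p.1) (Q p.1) p.2.1 p.2.2
  rw [h2]
  unfold hj
  obtain ⟨a, p⟩ := ixj n i
  have h4 := sum_block (fun P : Polynomial ℤ => ps P) (by simp [ps]) (fun a => Matrix.of (A2 (n a) D (b a))) a p
    (fun l : Ej n => Hp (n l.1) (Q l.1) l.2.1 l.2.2)
  refine Eq.trans ?_ h4.symm
  exact ode_A2 (hQ a) (hb a) p

end Run7.h309.JH
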