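import Pool.Agent.Run7.h309.JH.JFam
import Pool.Agent.Y119.HY.Fin2

/-!
# Several hypergeometric families at the same fibre: for almost all tuples of fibres all relations of bounded degree are
invariant under the products of the symplectic groups
-/

set_option autoImplicit false

open PowerSeries Pool.Agent.Y113 Pool.Agent.Y120.GF Pool.Agent.Y120.GH

namespace Run7.h309.JH

open Pool.Agent.Y119.HY (QD Am Jm cm E Hf Hc Yf E_mul_neg E_isom)
open Pool.Agent.Y119.HZ (Hp qe E_qe evq spec_eq Yt Yt_form isom_inv isom_mul)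

section gen

variable {σ : Type}

/-- polynomials with coefficients in `V` -/
def MVg (V : Submodule ℚ ℂ) (p : MvPolynomial σ ℂ) : Prop := ∀ m, p.coeff m ∈ V

lemma MVg.sum {V : Submodule ℚ ℂ} {τ : Type} (S : Finset τ) {p : τ → MvPolynomial σ ℂ} (h : ∀ i ∈ S, MVg V (p i)) :
    MVg V (∑ i ∈ S, p i) := fun m => by
  rw [MvPolynomial.coeff_sum]
  exact Submodule.sum_mem _ fun i hi => h i hi m

lemma MVg.mul_rat {V : Submodule ℚ ℂ} {p : MvPolynomial σ ℂ} (hp : MVg V p) (q : MvPolynomial σ ℚ) :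
    MVg V (p * MvPolynomial.map (algebraMap ℚ ℂ) q) := fun m => by
  classical
  rw [MvPolynomial.coeff_mul]
  refine Submodule.sum_mem _ fun x _ => ?_
  rw [MvPolynomial.coeff_map]
  have h1 : p.coeff x.1 * algebraMap ℚ ℂ (q.coeff x.2) = q.coeff x.2 • p.coeff x.1 := by
    rw [Algebra.smul_def, mul_comm]
  rw [h1]
  exact V.smul_mem _ (hp _)

variable {β : Type} [Fintype β]

/-- the constants, with `1` -/
def foo (w : β → ℂ) (o : Option β) : ℂ := o.elim 1 w

lemma mem_Ext_foo {V : Submodule ℚ ℂ} (w : β → ℂ) (o : Option β) {c : ℂ} (hc : c ∈ V) : c * foo w o ∈ Ext V (foo w) := by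
  classical
  have h1 := mem_Ext V (foo w) (v := fun b => if b = o then c else 0) (fun b => by
    split_ifs
    · exact hc
    · exact V.zero_mem)
  simpa using h1

lemma MVg.ext {V : Submodule ℚ ℂ} (w : β → ℂ) {p : MvPolynomial σ ℂ} (hp : MVg V p) : MVg (Ext V (foo w)) p := fun m => by
  have := mem_Ext_foo w none (hp m)
  rwa [show foo w none = 1 from rfl, mul_one] at this

/-- the iterated extensions -/
noncomputable def Vng (w : β → ℂ) (V : Submodule ℚ ℂ) : ℕ → Submodule ℚ ℂ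
  | 0 => V
  | d + 1 => Ext (Vng w V d) (foo w)

lemma Vng_fin (w : β → ℂ) (V : Submodule ℚ ℂ) [Module.Finite ℚ V] (d : ℕ) :
    Module.Finite ℚ (Vng w V d) ∧ Module.finrank ℚ (Vng w V d) ≤ (Fintype.card (Option β)) ^ d * Module.finrank ℚ V := by
  induction d with
  | zero =>
    refine ⟨?_, ?_⟩
    · show Module.Finite ℚ V
      infer_instance
    · rw [pow_zero, one_mul]
      exact le_rfl
  | succ d ih =>
    have := ih.1
    refine ⟨?_, ?_⟩
    · show Module.Finite ℚ (Ext (Vng w V d) (foo w))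
      infer_instance
    · have h1 := finrank_Ext (Vng w V d) (foo w)
      refine h1.trans ?_
      rw [pow_succ', mul_assoc]
      exact Nat.mul_le_mul_left _ ih.2

lemma MVg_mono (w : β → ℂ) {V : Submodule ℚ ℂ} {d e : ℕ} (h : d ≤ e) {p : MvPolynomial σ ℂ} (hp : MVg (Vng w V d) p) :
    MVg (Vng w V e) p := by
  induction e, h using Nat.le_induction with
  | base => exact hp
  | succ e _ ih => exact MVg.ext w ih

variable {υ : Type}

/-- the substituted polynomial -/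
theorem aeval_MVg (w : β → ℂ) (s : υ → MvPolynomial σ ℂ) {g : ℕ} (hdeg : ∀ v, (s v).totalDegree ≤ g)
    (hmul : ∀ (V : Submodule ℚ ℂ) (p : MvPolynomial σ ℂ), MVg V p → ∀ v, MVg (Ext V (foo w)) (p * s v))
    {V : Submodule ℚ ℂ} {δ : ℕ} {P : MvPolynomial υ ℂ} (hP : P.totalDegree ≤ δ) (hV : ∀ m, P.coeff m ∈ V) :
    MVg (Vng w V δ) (MvPolynomial.aeval s P) ∧ (MvPolynomial.aeval s P).totalDegree ≤ δ * g := by
  classical
  have hms : ∀ {c : ℂ}, c ∈ V → ∀ ms : Multiset υ,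
      MVg (Vng w V (Multiset.card ms)) (MvPolynomial.C c * (ms.map s).prod) ∧
      (MvPolynomial.C c * (ms.map s).prod).totalDegree ≤ Multiset.card ms * g := by
    intro c hc ms
    induction ms using Multiset.induction_on with
    | empty =>
      rw [Multiset.map_zero, Multiset.prod_zero, mul_one, Multiset.card_zero, zero_mul, MvPolynomial.totalDegree_C]
      refine ⟨fun m => ?_, le_rfl⟩
      rw [MvPolynomial.coeff_C]
      split_ifs
      · exact hc
      · exact V.zero_mem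
    | cons v ms ih =>
      have h1 : MvPolynomial.C c * ((v ::ₘ ms).map s).prod = (MvPolynomial.C c * (ms.map s).prod) * s v := by
        rw [Multiset.map_cons, Multiset.prod_cons]
        ring
      rw [h1, Multiset.card_cons]
      refine ⟨hmul _ _ ih.1 v, (MvPolynomial.totalDegree_mul _ _).trans ?_⟩
      rw [add_mul, one_mul]
      exact add_le_add ih.2 (hdeg v)
  have h1 : MvPolynomial.aeval s P = ∑ m ∈ P.support, MvPolynomial.C (P.coeff m) * ((Finsupp.toMultiset m).map s).prod := by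
    rw [MvPolynomial.aeval_def, MvPolynomial.eval₂_eq]
    refine Finset.sum_congr rfl fun m _ => ?_
    congr 1
    rw [Finsupp.toMultiset_map, Finsupp.prod_toMultiset, Finsupp.prod_mapDomain_index (by simp) (by
      intro a b c
      rw [pow_add])]
    rfl
  have h2 : ∀ m ∈ P.support, Multiset.card (Finsupp.toMultiset m) ≤ δ := by
    intro m hm
    rw [Finsupp.card_toMultiset]
    exact (MvPolynomial.le_totalDegree hm).trans hP
  rw [h1]
  refine ⟨MVg.sum _ fun m hm => MVg_mono w (h2 m hm) (hms (hV m) _).1, ?_⟩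
  refine (MvPolynomial.totalDegree_finsetSum _ _).trans (Finset.sup_le fun m hm => ?_)
  exact (hms (hV m) _).2.trans (Nat.mul_le_mul_right _ (h2 m hm))

end gen

variable {k q : ℕ} {n : Fin q → ℕ}

/-- the variables of the engine -/
abbrev Vxj (k : ℕ) (n : Fin q → ℕ) : Type := Σ _ : Fin k, Option (Fin (rj n))

/-- the variables: for every fibre a number and the entries of the matrices of all families -/
abbrev Uv (k : ℕ) (n : Fin q → ℕ) : Type := Fin k × Option (Ej n)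

/-- the point given by numbers and matrices -/
def pu (l : Fin k → ℂ) (X : Fin k → TM n) : Uv k n → ℂ
  | (i, none) => l i
  | (i, some e) => X i e.1 e.2.1 e.2.2

/-- the part with rational coefficients -/
noncomputable def rpj (i : Fin k) (a : Fin q) (r c d : Fin (n a)) : MvPolynomial (Vxj k n) ℚ :=
  MvPolynomial.X ⟨i, some ((ixj n).symm ⟨a, r, c⟩)⟩ *
    ∑ l ∈ Finset.range (n a), MvPolynomial.C (qe (n a) l c d) * MvPolynomial.X ⟨i, none⟩ ^ l

/-- the substitution -/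
noncomputable def subj (Ω : Fin k → TM n) : Uv k n → MvPolynomial (Vxj k n) ℂ
  | (i, none) => MvPolynomial.X ⟨i, none⟩
  | (i, some e) => ∑ c, ∑ d, MvPolynomial.map (algebraMap ℚ ℂ) (rpj i e.1 e.2.1 c d) * MvPolynomial.C (Ω i e.1 d e.2.2)

lemma aeval_rpj (Z : Fin k → TM n) (l : Fin k → ℂ) (i : Fin k) (a : Fin q) (r c d : Fin (n a)) :
    MvPolynomial.aeval (pt (r := fun _ => rj n) (fun i j => Z i (ixj n j).1 (ixj n j).2.1 (ixj n j).2.2) l)
      (MvPolynomial.map (algebraMap ℚ ℂ) (rpj i a r c d)) = Z i a r c * E (cm (Am (n a))) (-l i) c d := by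
  unfold rpj
  rw [map_mul, map_mul, MvPolynomial.map_X, MvPolynomial.aeval_X, map_sum, map_sum, E_qe]
  congr 1
  · show Z i (ixj n ((ixj n).symm ⟨a, r, c⟩)).1 (ixj n ((ixj n).symm ⟨a, r, c⟩)).2.1 (ixj n ((ixj n).symm ⟨a, r, c⟩)).2.2 = _
    rw [Equiv.apply_symm_apply]
  · refine Finset.sum_congr rfl fun e _ => ?_
    rw [map_mul, map_mul, map_pow, map_pow, MvPolynomial.map_X, MvPolynomial.aeval_X, MvPolynomial.map_C, MvPolynomial.aeval_C]
    rfl

lemma aeval_subj (Ω : Fin k → TM n) (Z : Fin k → TM n) (l : Fin k → ℂ) (v : Uv k n) :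
    MvPolynomial.aeval (pt (r := fun _ => rj n) (fun i j => Z i (ixj n j).1 (ixj n j).2.1 (ixj n j).2.2) l) (subj Ω v) =
      pu l (fun i a => Z i a * E (cm (Am (n a))) (-l i) * Ω i a) v := by
  obtain ⟨i, _ | ⟨a, r, s⟩⟩ := v
  · show MvPolynomial.aeval _ (MvPolynomial.X _) = _
    rw [MvPolynomial.aeval_X]
    rfl
  · show MvPolynomial.aeval _ (∑ c, ∑ d, MvPolynomial.map (algebraMap ℚ ℂ) (rpj i a r c d) * MvPolynomial.C (Ω i a d s)) =
      (Z i a * E (cm (Am (n a))) (-l i) * Ω i a) r s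
    rw [map_sum, Matrix.mul_apply]
    simp only [map_sum, map_mul, aeval_rpj, Matrix.mul_apply, Finset.sum_mul]
    rw [Finset.sum_comm]
    refine Finset.sum_congr rfl fun d _ => Finset.sum_congr rfl fun c _ => ?_
    rw [MvPolynomial.aeval_C]
    rfl

/-- the degree of the substitution -/
def dgj (n : Fin q → ℕ) : ℕ := 1 + ∑ a, n a

lemma deg_subj (Ω : Fin k → TM n) (v : Uv k n) : (subj Ω v).totalDegree ≤ dgj n := by
  obtain ⟨i, _ | ⟨a, r, s⟩⟩ := v
  · show (MvPolynomial.X _ : MvPolynomial (Vxj k n) ℂ).totalDegree ≤ _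
    rw [MvPolynomial.totalDegree_X]
    unfold dgj
    omega
  · show (∑ c, ∑ d, MvPolynomial.map (algebraMap ℚ ℂ) (rpj i a r c d) * MvPolynomial.C (Ω i a d s)).totalDegree ≤ _
    refine (MvPolynomial.totalDegree_finsetSum _ _).trans (Finset.sup_le fun c _ => ?_)
    refine (MvPolynomial.totalDegree_finsetSum _ _).trans (Finset.sup_le fun d _ => ?_)
    refine (MvPolynomial.totalDegree_mul _ _).trans ?_
    rw [MvPolynomial.totalDegree_C, add_zero]
    have h0 : (MvPolynomial.map (algebraMap ℚ ℂ) (rpj (k := k) i a r c d)).totalDegree ≤ (rpj (k := k) i a r c d).totalDegree :=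
      Finset.sup_mono (MvPolynomial.support_map_subset _ _)
    refine h0.trans ?_
    unfold rpj
    refine (MvPolynomial.totalDegree_mul _ _).trans ?_
    rw [MvPolynomial.totalDegree_X]
    have h1 : n a ≤ ∑ a, n a := Finset.single_le_sum (f := n) (fun _ _ => Nat.zero_le _) (Finset.mem_univ _)
    have h2 : (∑ l ∈ Finset.range (n a), MvPolynomial.C (qe (n a) l c d) *
        (MvPolynomial.X ⟨i, none⟩ : MvPolynomial (Vxj k n) ℚ) ^ l).totalDegree ≤ n a := by
      refine (MvPolynomial.totalDegree_finsetSum _ _).trans (Finset.sup_le fun l hl => ?_)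
      refine (MvPolynomial.totalDegree_mul _ _).trans ?_
      rw [MvPolynomial.totalDegree_C, zero_add, MvPolynomial.totalDegree_X_pow]
      exact (Finset.mem_range.1 hl).le
    unfold dgj
    omega

/-- the constants -/
def wj (Ω : Fin k → TM n) (v : Fin k × Ej n) : ℂ := Ω v.1 v.2.1 v.2.2.1 v.2.2.2

lemma mul_subj (Ω : Fin k → TM n) (V : Submodule ℚ ℂ) (p : MvPolynomial (Vxj k n) ℂ) (hp : MVg V p) (v : Uv k n) :
    MVg (Ext V (foo (wj Ω))) (p * subj Ω v) := by
  obtain ⟨i, _ | ⟨a, r, s⟩⟩ := v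
  · have h1 := MVg.ext (wj Ω) (hp.mul_rat (MvPolynomial.X (⟨i, none⟩ : Vxj k n)))
    rwa [MvPolynomial.map_X] at h1
  · show MVg _ (p * ∑ c, ∑ d, MvPolynomial.map (algebraMap ℚ ℂ) (rpj i a r c d) * MvPolynomial.C (Ω i a d s))
    rw [Finset.mul_sum]
    refine MVg.sum _ fun c _ => ?_
    rw [Finset.mul_sum]
    refine MVg.sum _ fun d _ => ?_
    rw [← mul_assoc]
    intro m
    rw [mul_comm, MvPolynomial.coeff_C_mul, mul_comm]
    exact mem_Ext_foo (wj Ω) (some (i, ⟨a, d, s⟩)) (hp.mul_rat _ m)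

variable {Q : Fin q → Polynomial ℚ}

theorem relI_vanishj (hQ : ∀ a, QD (n a) (Q a))
    (hsep : ∀ a b, a ≠ b → n a = n b → Diff (Q a) (Q b)) {δ : ℕ}
    {t : Fin k → ℕ} (ht : ∀ i, 2 ≤ t i) {κ : Fin k → TM n}
    (hκ : ∀ i a, (κ i a).transpose * cm (Jm (n a) (Q a)) * κ i a = cm (Jm (n a) (Q a))) (l : Fin k → ℂ)
    {P : MvPolynomial (Vxj k n) ℂ} (hP : P ∈ relI δ (r := fun _ => rj n) (fun _ => hj n Q) t) :
    MvPolynomial.aeval (pt (r := fun _ => rj n) (fun i j => (Hf (Hc (n (ixj n j).1) (Q (ixj n j).1))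
      (((1 / (t i : ℝ) : ℝ)) : ℂ) * κ i (ixj n j).1) (ixj n j).2.1 (ixj n j).2.2) l) P = 0 := by
  set θ := pt (r := fun _ => rj n) (fun i j => (Hf (Hc (n (ixj n j).1) (Q (ixj n j).1))
      (((1 / (t i : ℝ) : ℝ)) : ℂ) * κ i (ixj n j).1) (ixj n j).2.1 (ixj n j).2.2) l with hθ
  have h1 : relI δ (r := fun _ => rj n) (fun _ => hj n Q) t ≤ RingHom.ker (MvPolynomial.aeval (R := ℂ) θ).toRingHom := by
    unfold relI
    rw [Ideal.span_le]
    rintro _ ⟨i, R, -, hR, rfl⟩
    show (MvPolynomial.aeval θ) (MvPolynomial.rename (fun j => (⟨i, some j⟩ : Vxj k n)) (MvPolynomial.map (spec (t i)) R)) = 0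
    rw [MvPolynomial.aeval_rename, MvPolynomial.aeval_def, MvPolynomial.eval₂_map]
    have h2 : (algebraMap ℂ ℂ).comp (spec (t i)) = evq (((1 / (t i : ℝ) : ℝ)) : ℂ) := by
      rw [← spec_eq]
      rfl
    rw [h2]
    have h3 : (2 : ℝ) ≤ t i := by exact_mod_cast ht i
    have h4 := rel_invj hQ hsep hR (x := 1 / (t i : ℝ)) (by positivity) (by rw [div_lt_one (by linarith)]; linarith) (hκ i)
    have h5 : (θ ∘ fun j => (⟨i, some j⟩ : Vxj k n)) = fun j : Fin (rj n) =>
        (Hf (Hc (n (ixj n j).1) (Q (ixj n j).1)) (((1 / (t i : ℝ) : ℝ)) : ℂ) * κ i (ixj n j).1)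
          (ixj n j).2.1 (ixj n j).2.2 := by
      funext j
      rfl
    rw [h5]
    exact h4
  exact h1 hP

/-- **Few exceptional tuples.** -/
theorem tuples_joint (k δ D : ℕ) (n : Fin q → ℕ) (Q : Fin q → Polynomial ℚ) (hQ : ∀ a, QD (n a) (Q a))
    (hsep : ∀ a b, a ≠ b → n a = n b → Diff (Q a) (Q b))
    (hH : ∀ a i j, SDc (Hp (n a) (Q a) i j)) :
    ∃ c C : ℝ, 0 < c ∧ 0 ≤ C ∧ ∀ (V : Submodule ℚ ℂ) [Module.Finite ℚ V], Module.finrank ℚ V ≤ D →
      ∀ Ω : Fin k → TM n, ∀ (x : Fin k → ℕ) (N : ℕ), (∀ i, 1 ≤ x i) → 1 ≤ N →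
      ∀ S : Finset (Fin k → ℕ), (∀ t ∈ S, (∀ i, x i < t i ∧ t i ≤ x i + N) ∧ ∃ P : MvPolynomial (Uv k n) ℂ,
        P.totalDegree ≤ δ ∧ (∀ s, P.coeff s ∈ V) ∧
        MvPolynomial.aeval (pu (fun i => ((Real.log (t i) : ℝ) : ℂ)) fun i a => Yt (n a) (Q a) (t i) * Ω i a) P = 0 ∧
        ∃ (l : Fin k → ℂ) (g : Fin k → TM n),
          (∀ i a, (g i a).transpose * cm (Jm (n a) (Q a)) * g i a = cm (Jm (n a) (Q a))) ∧
          MvPolynomial.aeval (pu l fun i a => g i a * Ω i a) P ≠ 0) →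
      (S.card : ℝ) ≤ C * (N : ℝ) ^ (k - 1) * ∑ i, (1 + N / ((x i : ℝ) + N) ^ c) := by
  classical
  obtain ⟨c, C, hc, hC, hmain⟩ := tuples k (δ * dgj n) ((Fintype.card (Option (Fin k × Ej n))) ^ δ * D)
    (fun _ => rj n) (fun _ => hj n Q) (fun i => by
      choose C₁ hC₁ hs _ using fun a => Pool.Agent.Y119.HY.SDc.unif
        (y := fun p : Fin (n a) × Fin (n a) => Hp (n a) (Q a) p.1 p.2) fun p => hH a p.1 p.2
      have h0 : ∀ a, 0 ≤ C₁ a := fun a => le_trans zero_le_one (hC₁ a)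
      refine ⟨∑ a, C₁ a, fun j m => (hs (ixj n j).1 (ixj n j).2 m).trans ?_⟩
      exact pow_le_pow_left₀ (h0 _) (Finset.single_le_sum (f := C₁) (fun a _ => h0 a) (Finset.mem_univ _)) _)
    (fun i => hfam_hj hQ hH _)
  refine ⟨c, C, hc, hC, ?_⟩
  intro V _ hV Ω x N hx hN S hS
  obtain ⟨hfin, hrank⟩ := Vng_fin (wj Ω) V δ
  refine hmain (Vng (wj Ω) V δ) (hrank.trans (Nat.mul_le_mul_left _ hV)) x N hN S fun t htS => ?_
  obtain ⟨hbox, P, hPd, hPV, hP0, l, g, hg, hPg⟩ := hS t htS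
  have hMV := aeval_MVg (wj Ω) (subj Ω) (deg_subj Ω) (fun V p hp v => mul_subj Ω V p hp v) hPd hPV
  refine ⟨hbox, MvPolynomial.aeval (subj Ω) P, hMV.2, hMV.1, ?_, ?_⟩
  · -- the value
    have h1 : valpt (r := fun _ => rj n) (fun _ => hj n Q) t =
        pt (r := fun _ => rj n) (fun i j => Hf (Hc (n (ixj n j).1) (Q (ixj n j).1)) (((1 / (t i : ℝ) : ℝ)) : ℂ)
          (ixj n j).2.1 (ixj n j).2.2) (fun i => ((Real.log (t i) : ℝ) : ℂ)) := by
      unfold valpt
      congr 1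
      funext i j
      exact Pool.Agent.Y119.HZ.ev_Hp _ _ _
    have h2 : MvPolynomial.aeval (valpt (r := fun _ => rj n) (fun _ => hj n Q) t) (MvPolynomial.aeval (subj Ω) P) =
        MvPolynomial.aeval (fun v => MvPolynomial.aeval (valpt (r := fun _ => rj n) (fun _ => hj n Q) t) (subj Ω v)) P :=
      MvPolynomial.aeval_bind₁ _ _ _
    rw [h2, h1]
    have h3 := fun v => aeval_subj Ω (fun i a => Hf (Hc (n a) (Q a)) (((1 / (t i : ℝ) : ℝ)) : ℂ))
      (fun i => ((Real.log (t i) : ℝ) : ℂ)) v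
    simp only [h3]
    exact hP0
  · intro hmem
    apply hPg
    set N' := fun a => cm (Am (n a)) with hN'
    have ht2 : ∀ i, 2 ≤ t i := fun i => by
      have := (hbox i).1
      have := hx i
      omega
    have hdet : ∀ a, (cm (Jm (n a) (Q a))).det ≠ 0 := fun a => Pool.Agent.Y119.HY.Jc_det (hQ a)
    have hN : ∀ a, (N' a) ^ n a = 0 := fun a => Pool.Agent.Y119.HY.Ac_nil
    have hEiso : ∀ a (s : ℂ), (E (N' a) s).transpose * cm (Jm (n a) (Q a)) * E (N' a) s = cm (Jm (n a) (Q a)) :=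
      fun a s => E_isom (hN a) Pool.Agent.Y119.HY.Jc_rel s
    -- the holomorphic part is an isometry
    have hHf : ∀ i a, (Hf (Hc (n a) (Q a)) (((1 / (t i : ℝ) : ℝ)) : ℂ)).transpose * cm (Jm (n a) (Q a)) *
        Hf (Hc (n a) (Q a)) (((1 / (t i : ℝ) : ℝ)) : ℂ) = cm (Jm (n a) (Q a)) := by
      intro i a
      have h1 := isom_mul (Yt_form (hQ a) (ht2 i)) (hEiso a ((Real.log (t i) : ℝ) : ℂ))
      have h2 : Yt (n a) (Q a) (t i) * E (N' a) ((Real.log (t i) : ℝ) : ℂ) =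
          Hf (Hc (n a) (Q a)) (((1 / (t i : ℝ) : ℝ)) : ℂ) := by
        unfold Yt
        have h3 : E (N' a) (-((Real.log (t i) : ℝ) : ℂ)) * E (N' a) ((Real.log (t i) : ℝ) : ℂ) = 1 := by
          have := E_mul_neg (hN a) (-((Real.log (t i) : ℝ) : ℂ))
          rwa [neg_neg] at this
        rw [Matrix.mul_assoc, h3, mul_one]
      rwa [h2] at h1
    have hinv := fun i a => isom_inv (hdet a) (hHf i a)
    choose W hW1 hW2 hW3 using hinv
    let κ : Fin k → TM n := fun i a => W i a * g i a * E (N' a) (l i)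
    have hκ : ∀ i a, (κ i a).transpose * cm (Jm (n a) (Q a)) * κ i a = cm (Jm (n a) (Q a)) := fun i a =>
      isom_mul (isom_mul (hW3 i a) (hg i a)) (hEiso a (l i))
    have h1 := relI_vanishj hQ hsep ht2 hκ l hmem
    have h2 : MvPolynomial.aeval (pt (r := fun _ => rj n) (fun i j => (Hf (Hc (n (ixj n j).1) (Q (ixj n j).1))
        (((1 / (t i : ℝ) : ℝ)) : ℂ) * κ i (ixj n j).1) (ixj n j).2.1 (ixj n j).2.2) l) (MvPolynomial.aeval (subj Ω) P) =
        MvPolynomial.aeval (fun v => MvPolynomial.aeval (pt (r := fun _ => rj n)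
          (fun i j => (Hf (Hc (n (ixj n j).1) (Q (ixj n j).1)) (((1 / (t i : ℝ) : ℝ)) : ℂ) * κ i (ixj n j).1)
            (ixj n j).2.1 (ixj n j).2.2) l) (subj Ω v)) P := MvPolynomial.aeval_bind₁ _ _ _
    rw [h2] at h1
    have h3 := fun v => aeval_subj Ω (fun i a => Hf (Hc (n a) (Q a)) (((1 / (t i : ℝ) : ℝ)) : ℂ) * κ i a) l v
    simp only [h3] at h1
    have h4 : (fun i a => Hf (Hc (n a) (Q a)) (((1 / (t i : ℝ) : ℝ)) : ℂ) * κ i a * E (cm (Am (n a))) (-l i) * Ω i a) =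
        fun i a => g i a * Ω i a := by
      funext i a
      have e1 : E (N' a) (l i) * E (N' a) (-l i) = 1 := E_mul_neg (hN a) (l i)
      calc Hf (Hc (n a) (Q a)) (((1 / (t i : ℝ) : ℝ)) : ℂ) * κ i a * E (N' a) (-l i) * Ω i a =
          (Hf (Hc (n a) (Q a)) (((1 / (t i : ℝ) : ℝ)) : ℂ) * W i a) * g i a * (E (N' a) (l i) * E (N' a) (-l i)) * Ω i a := by
            show Hf (Hc (n a) (Q a)) (((1 / (t i : ℝ) : ℝ)) : ℂ) * (W i a * g i a * E (N' a) (l i)) * E (N' a) (-l i) * Ω i a = _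
            simp only [Matrix.mul_assoc]
        _ = g i a * Ω i a := by rw [hW1, e1, one_mul, mul_one]
    rw [h4] at h1
    exact h1

end Run7.h309.JH
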