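import Pool.Agent.Run7.h309.JH.TwoSys

/-!
# Joint hypergeometric families: the relations between the solutions of several systems are invariant under the product of
the symplectic groups
-/

set_option autoImplicit false

open Filter Topology Matrix Polynomial

namespace Run7.h309.JH

open Pool.Agent.Y119.HY

variable {q : ℕ} {n : Fin q → ℕ}

/-- the variables: `z`, `log z` and the entries of the matrices -/
abbrev Vj (n : Fin q → ℕ) : Type := Option (Option (Σ a : Fin q, Fin (n a) × Fin (n a)))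

/-- the point with coordinates `z`, `L` and the entries of `X` -/
def ptj {R : Type*} (z L : R) (X : ∀ a, Matrix (Fin (n a)) (Fin (n a)) R) (o : Vj n) : R :=
  o.elim z fun o => o.elim L fun x => X x.1 x.2.1 x.2.2

/-- evaluation at `z`, `L` and the entries of `X` -/
noncomputable def evj (P : MvPolynomial (Vj n) ℂ) (z L : ℂ) (X : TM n) : ℂ := MvPolynomial.eval (ptj z L X) P

/-- evaluation at polynomials -/
noncomputable def evpj (P : MvPolynomial (Vj n) ℂ) (z L : ℂ[X]) (X : ∀ a, Matrix (Fin (n a)) (Fin (n a)) ℂ[X]) : ℂ[X] :=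
  MvPolynomial.aeval (ptj z L X) P

lemma eval_evpj (P : MvPolynomial (Vj n) ℂ) (z L : ℂ[X]) (X : ∀ a, Matrix (Fin (n a)) (Fin (n a)) ℂ[X]) (s : ℂ) :
    (evpj P z L X).eval s = evj P (z.eval s) (L.eval s) fun a => (X a).map (Polynomial.eval s) := by
  unfold evpj evj
  induction P using MvPolynomial.induction_on with
  | C a => simp
  | add p q hp hq => simp only [map_add, eval_add, hp, hq]
  | mul_X p i hp =>
    simp only [map_mul, eval_mul, hp, MvPolynomial.aeval_X, MvPolynomial.eval_X]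
    congr 1
    rcases i with _ | _ | x
    · rfl
    · rfl
    · rfl

/-- substitution `L ↦ L + c`, `X ↦ X g` -/
noncomputable def sbj (c : ℂ) (g : TM n) (P : MvPolynomial (Vj n) ℂ) : MvPolynomial (Vj n) ℂ :=
  MvPolynomial.bind₁ (ptj (MvPolynomial.X none) (MvPolynomial.X (some none) + MvPolynomial.C c)
    fun a => (Matrix.of fun i j => ∑ k, MvPolynomial.X (some (some ⟨a, i, k⟩)) * MvPolynomial.C (g a k j))) P

lemma evj_sbj (c : ℂ) (g : TM n) (P : MvPolynomial (Vj n) ℂ) (z L : ℂ) (X : TM n) :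
    evj (sbj c g P) z L X = evj P z (L + c) fun a => X a * g a := by
  unfold evj sbj
  induction P using MvPolynomial.induction_on with
  | C a => simp
  | add p q hp hq => simp only [map_add, hp, hq]
  | mul_X p i hp =>
    simp only [map_mul, hp, MvPolynomial.bind₁_X_right, MvPolynomial.eval_X]
    congr 1
    rcases i with _ | _ | x
    · simp [ptj]
    · simp [ptj]
    · simp [ptj, Matrix.mul_apply]

/-- relations on `(0, 1)` -/
def Relj (Y : ℂ → TM n) : Set (MvPolynomial (Vj n) ℂ) :=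
  {P | ∀ x : ℝ, 0 < x → x < 1 → evj P (x : ℂ) (Complex.log x) (Y (x : ℂ)) = 0}

/-- matrices which preserve the relations -/
def Galj (Y : ℂ → TM n) : Submonoid (TM n) where
  carrier := {g | ∀ P ∈ Relj Y, ∀ x : ℝ, 0 < x → x < 1 → evj P (x : ℂ) (Complex.log x) (fun a => Y (x : ℂ) a * g a) = 0}
  mul_mem' := by
    intro g h hg hh P hP x hx hx1
    have h1 : sbj 0 h P ∈ Relj Y := fun y hy hy1 => by rw [evj_sbj, add_zero]; exact hh P hP y hy hy1
    have h2 := hg _ h1 x hx hx1
    rw [evj_sbj, add_zero] at h2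
    simp only [Matrix.mul_assoc] at h2
    exact h2
  one_mem' := by
    intro P hP x hx hx1
    have h1 := hP x hx hx1
    refine (congrArg (evj P (x : ℂ) (Complex.log x)) ?_).trans h1
    funext a
    exact mul_one _

lemma Galj_closed (Y : ℂ → TM n) (M : ∀ a, Matrix (Fin (n a)) (Fin (n a)) (Polynomial ℂ))
    (hM : ∀ c : ℂ, c ≠ 0 → (fun a => (M a).map (Polynomial.eval c)) ∈ Galj Y) :
    (fun a => (M a).map (Polynomial.eval 0)) ∈ Galj Y := by
  intro P hP x hx hx1
  set q : ℂ[X] := evpj P (C (x : ℂ)) (C (Complex.log x)) (fun a => (Y (x : ℂ) a).map C * M a) with hq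
  have hqe : ∀ c, q.eval c = evj P (x : ℂ) (Complex.log x) (fun a => Y (x : ℂ) a * (M a).map (Polynomial.eval c)) := by
    intro c
    rw [hq, eval_evpj, eval_C, eval_C]
    congr 1
    funext a
    ext i j
    simp only [Matrix.map_apply, Matrix.mul_apply, Polynomial.eval_finsetSum, Polynomial.eval_mul, Polynomial.eval_C]
  have h0 : q = 0 := by
    refine Polynomial.eq_zero_of_infinite_isRoot q (Set.Infinite.mono (s := ({0} : Set ℂ)ᶜ) ?_
      (Set.finite_singleton (0 : ℂ)).infinite_compl)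
    intro c hc
    show q.eval c = 0
    rw [hqe]
    exact hM c hc P hP x hx hx1
  rw [← hqe, h0, Polynomial.eval_zero]

variable {N0 N1 : TM n} {H : ∀ a, ℕ → Matrix (Fin (n a)) (Fin (n a)) ℂ}

/-- the joint solution -/
noncomputable def Yj (N0 : TM n) (H : ∀ a, ℕ → Matrix (Fin (n a)) (Fin (n a)) ℂ) (z : ℂ) : TM n := fun a =>
  Yf (N0 a) (H a) z

/-- the monodromy at `0` preserves the relations -/
theorem mono_zeroj (h0 : ∀ a, (N0 a) ^ n a = 0) (hH : ∀ a, Sol (N0 a) (N1 a) (H a)) (c : ℂ) {P : MvPolynomial (Vj n) ℂ}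
    (hP : P ∈ Relj (Yj N0 H)) {x : ℝ} (hx : 0 < x) (hx1 : x < 1) :
    evj P (x : ℂ) (Complex.log x + c) (fun a => Yj N0 H x a * E (N0 a) c) = 0 := by
  have h1 : ∀ w ∈ Metric.ball (0 : ℂ) 1, evpj P (C w) X (fun a => (Hf (H a) w).map C * Ep (N0 a)) = 0 := by
    refine PA.log_zero (f := fun w => evpj P (C w) X (fun a => (Hf (H a) w).map C * Ep (N0 a))) ?_ fun y hy hy1 => ?_
    · refine PA.aeval (fun o => ?_) P
      rcases o with _ | _ | x
      · exact PA.ofFun analyticOnNhd_id
      · exact PA.const _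
      · simp only [ptj, Option.elim_some, Matrix.mul_apply, Matrix.map_apply]
        exact PA.sum _ fun l _ => (PA.ofFun (Hf_an (hH _) (h0 _) _ _)).mul (PA.const _)
    · rw [eval_evpj]
      simp only [map_mul_eval, map_C_eval, Ep_eval]
      rw [Complex.ofReal_log hy.le, eval_C, eval_X]
      exact hP y hy hy1
  have h2 := congrArg (Polynomial.eval (Complex.log x + c)) (h1 x (by
    rw [Metric.mem_ball, dist_zero_right, Complex.norm_real, Real.norm_of_nonneg hx.le]
    exact hx1))
  rw [eval_evpj] at h2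
  simp only [map_mul_eval, map_C_eval, Ep_eval, eval_zero] at h2
  rw [eval_C, eval_X] at h2
  refine (congrArg (evj P (x : ℂ) (Complex.log x + c)) ?_).trans h2
  funext a
  show Hf (H a) x * E (N0 a) (Complex.log x) * E (N0 a) c = _
  rw [E_add (h0 a), Matrix.mul_assoc]

/-- conjugation by the monodromy at `0` -/
theorem conj_Ej (h0 : ∀ a, (N0 a) ^ n a = 0) (hH : ∀ a, Sol (N0 a) (N1 a) (H a)) (c : ℂ) (g : TM n)
    (hg : g ∈ Galj (Yj N0 H)) : (fun a => E (N0 a) c * g a * E (N0 a) (-c)) ∈ Galj (Yj N0 H) := by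
  intro P hP x hx hx1
  have h1 : sbj (-c) (fun a => E (N0 a) (-c)) P ∈ Relj (Yj N0 H) := fun y hy hy1 => by
    rw [evj_sbj]
    exact mono_zeroj h0 hH (-c) hP hy hy1
  have h2 : sbj (-c) (fun a => g a * E (N0 a) (-c)) P ∈ Relj (Yj N0 H) := fun y hy hy1 => by
    have h3 := hg _ h1 y hy hy1
    rw [evj_sbj] at h3
    simp only [Matrix.mul_assoc] at h3
    rw [evj_sbj]
    exact h3
  have h3 := mono_zeroj h0 hH c h2 hx hx1
  rw [evj_sbj, add_neg_cancel_right] at h3
  simp only [Matrix.mul_assoc] at h3 ⊢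
  exact h3

/-- the monodromy at `1` preserves the relations -/
theorem conj_mem_Galj {K : ∀ a, ℕ → Matrix (Fin (n a)) (Fin (n a)) ℂ} {N2 N3 : TM n} (h2 : ∀ a, (N2 a) ^ n a = 0)
    (hK : ∀ a, Sol (N2 a) (N3 a) (K a)) {Y : ℂ → TM n} {M Mi : TM n} (hMi : ∀ a, M a * Mi a = 1)
    (hY : ∀ x : ℝ, 0 < x → x < 1 → ∀ a, Y x a = Yf (N2 a) (K a) (1 - (x : ℂ)) * M a) (c : ℂ) :
    (fun a => Mi a * E (N2 a) c * M a) ∈ Galj Y := by
  intro P hP x hx hx1
  have hlog : AnalyticOnNhd ℂ (fun w : ℂ => Complex.log (1 - w)) (Metric.ball 0 1) := by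
    intro w hw
    rw [Metric.mem_ball, dist_zero_right] at hw
    refine AnalyticAt.clog (analyticAt_const.sub analyticAt_id) ?_
    left
    have h1 : w.re ≤ ‖w‖ := Complex.re_le_norm _
    rw [Complex.sub_re, Complex.one_re]
    linarith
  have h1 : ∀ w ∈ Metric.ball (0 : ℂ) 1, evpj P (C (1 - w)) (C (Complex.log (1 - w)))
      (fun a => (Hf (K a) w).map C * Ep (N2 a) * (M a).map C) = 0 := by
    refine PA.log_zero (f := fun w => evpj P (C (1 - w)) (C (Complex.log (1 - w)))
      (fun a => (Hf (K a) w).map C * Ep (N2 a) * (M a).map C)) ?_ fun y hy hy1 => ?_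
    · refine PA.aeval (fun o => ?_) P
      rcases o with _ | _ | x
      · exact PA.ofFun (analyticOnNhd_const.sub analyticOnNhd_id)
      · exact PA.ofFun hlog
      · simp only [ptj, Option.elim_some, Matrix.mul_apply, Matrix.map_apply]
        exact PA.sum _ fun l _ => (PA.sum _ fun k _ => (PA.ofFun (Hf_an (hK _) (h2 _) _ _)).mul (PA.const _)).mul (PA.const _)
    · rw [eval_evpj]
      simp only [map_mul_eval, map_C_eval, Ep_eval]
      rw [Complex.ofReal_log hy.le, eval_C, eval_C]
      have h3 := hP (1 - y) (by linarith) (by linarith)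
      have h4 := hY (1 - y) (by linarith) (by linarith)
      have h5 : Y ((1 - y : ℝ) : ℂ) = fun a => Hf (K a) (y : ℂ) * E (N2 a) (Complex.log (y : ℂ)) * M a := by
        funext a
        rw [h4 a]
        push_cast
        rw [sub_sub_cancel]
        rfl
      rw [h5] at h3
      push_cast at h3
      exact h3
  have e1 : (1 - (x : ℂ)) ∈ Metric.ball (0 : ℂ) 1 := by
    rw [Metric.mem_ball, dist_zero_right]
    exact (mem_Lens.1 (real_mem_Lens hx hx1)).2
  have h4 := congrArg (Polynomial.eval (Complex.log (1 - (x : ℂ)) + c)) (h1 _ e1)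
  rw [eval_evpj] at h4
  simp only [map_mul_eval, map_C_eval, Ep_eval, eval_zero] at h4
  rw [sub_sub_cancel, eval_C, eval_C] at h4
  refine (congrArg (evj P (x : ℂ) (Complex.log x)) ?_).trans h4
  funext a
  rw [hY x hx hx1 a]
  unfold Yf
  calc Hf (K a) (1 - (x : ℂ)) * E (N2 a) (Complex.log (1 - (x : ℂ))) * M a * (Mi a * E (N2 a) c * M a)
      = Hf (K a) (1 - (x : ℂ)) * E (N2 a) (Complex.log (1 - (x : ℂ))) * (M a * Mi a) * E (N2 a) c * M a := by
        simp only [Matrix.mul_assoc]
    _ = _ := by rw [hMi a, mul_one, E_add (h2 a)]; simp only [Matrix.mul_assoc]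

/-- **All relations between the solutions of several separated systems are invariant under the product of the symplectic
groups.** -/
theorem invarj {J A : TM n} {u : ∀ a, Fin (n a) → ℂ} {H K : ∀ a, ℕ → Matrix (Fin (n a)) (Fin (n a)) ℂ} {M Mi : TM n}
    (h : ∀ a, CS (J a) (A a) (u a) (H a) (K a) (M a) (Mi a))
    (hsep : ∀ a b, a ≠ b → pq (J a) (A a) (Mi a *ᵥ u a) ≠ pq (J b) (A b) (Mi b *ᵥ u b)) (g : TM n)
    (hg : ∀ a, (g a).transpose * J a * g a = J a) : g ∈ Galj (Yj A H) := by
  refine sp_joint (v := fun a => Mi a *ᵥ u a) (fun a => (h a).skew) (fun a => (h a).det) (fun a => (h a).nil)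
    (fun a => (h a).rel) (fun c g hg => conj_Ej (fun a => (h a).nil) (fun a => (h a).solH) c g hg) (Galj_closed _)
    (fun a => (h a).om) (fun s => ?_) hsep g hg
  have h1 := conj_mem_Galj (Y := Yj A H) (fun a => (h a).nilB) (fun a => (h a).solK) (fun a => (h a).inv)
    (fun x hx hx1 a => (h a).conn x (real_mem_Lens hx hx1)) s
  refine (congrArg (· ∈ Galj (Yj A H)) ?_).mp h1
  funext a
  have hMiJ : (Mi a).transpose * J a * Mi a = J a := by
    calc (Mi a).transpose * J a * Mi a = (Mi a).transpose * ((M a).transpose * J a * M a) * Mi a := by rw [(h a).iso]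
      _ = (M a * Mi a).transpose * J a * (M a * Mi a) := by rw [transpose_mul]; simp only [Matrix.mul_assoc]
      _ = J a := by rw [(h a).inv, transpose_one, one_mul, mul_one]
  rw [E_tv (h a).two (h a).skew, tv_conj (Mi a) (M a) (h a).inv' hMiJ]

end Run7.h309.JH
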