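import Pool.Agent.Run7.h309.JH.HypJ
import Pool.Agent.Y119.HY.Rl

/-!
# Relations between the entries of the holomorphic parts of several systems
-/

set_option autoImplicit false

open PowerSeries Pool.Agent.Y113

namespace Run7.h309.JH

open Pool.Agent.Y119.HY (QD Am Jm cm Ep E Ep_eval E_neg Hf Hc Yf E_add E_zero E_mul_neg E_isom)
open Pool.Agent.Y119.HZ (Hp Cv_Hp ev_Hp evq)

/-- evaluation of polynomials in convergent power series -/
lemma ev_aeval_gen {r : ℕ} {h : Fin r → ℚ⟦X⟧} {t : ℝ} (ht : 1 < t) (hh : ∀ j, Cv t (h j))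
    (R : MvPolynomial (Fin r) (Polynomial ℚ)) :
    Cv t (MvPolynomial.aeval h R) ∧ ((ev t (MvPolynomial.aeval h R) : ℝ) : ℂ) =
      MvPolynomial.eval₂ (evq (((1 / t : ℝ)) : ℂ)) (fun j => ((ev t (h j) : ℝ) : ℂ)) R := by
  have ht0 : 0 < t := by linarith
  induction R using MvPolynomial.induction_on with
  | C p =>
    have h1 : MvPolynomial.aeval h (MvPolynomial.C p) = (p : ℚ⟦X⟧) := by
      rw [MvPolynomial.aeval_C, PowerSeries.algebraMap_apply']
      simp
    rw [h1, MvPolynomial.eval₂_C]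
    refine ⟨Cv.coe p, ?_⟩
    rw [ev_coe]
    unfold evq
    have h2 : (((1 / t : ℝ)) : ℂ) = algebraMap ℝ ℂ (1 / t) := rfl
    rw [h2]
    show _ = Polynomial.aeval (algebraMap ℝ ℂ (1 / t)) p
    rw [Polynomial.aeval_algebraMap_apply]
    rfl
  | add p q hp hq =>
    rw [map_add, MvPolynomial.eval₂_add, ← hp.2, ← hq.2, Cv.ev_add ht0 hp.1 hq.1]
    refine ⟨Cv.add ht0 hp.1 hq.1, ?_⟩
    push_cast
    rfl
  | mul_X p j hp =>
    rw [map_mul, MvPolynomial.aeval_X, MvPolynomial.eval₂_mul, MvPolynomial.eval₂_X, ← hp.2, Cv.ev_mul ht0 hp.1 (hh j)]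
    refine ⟨Cv.mul ht0 hp.1 (hh j), ?_⟩
    push_cast
    rfl

variable {q : ℕ} {n : Fin q → ℕ} {Q : Fin q → Polynomial ℚ}

/-- the indices of the entries of all matrices -/
abbrev Ej (n : Fin q → ℕ) : Type := Σ a : Fin q, Fin (n a) × Fin (n a)

/-- the number of entries -/
def rj (n : Fin q → ℕ) : ℕ := Fintype.card (Ej n)

/-- the numbering of the entries -/
noncomputable def ixj (n : Fin q → ℕ) : Fin (rj n) ≃ Ej n := (Fintype.equivFin (Ej n)).symm

/-- the entries of all holomorphic parts -/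
noncomputable def hj (n : Fin q → ℕ) (Q : Fin q → Polynomial ℚ) (j : Fin (rj n)) : ℚ⟦X⟧ :=
  Hp (n (ixj n j).1) (Q (ixj n j).1) (ixj n j).2.1 (ixj n j).2.2

/-- the relation as a polynomial in `z`, `log z` and the entries of the `Y_a` -/
noncomputable def PRj (N : TM n) (R : MvPolynomial (Fin (rj n)) (Polynomial ℚ)) : MvPolynomial (Vj n) ℂ :=
  MvPolynomial.eval₂ (Polynomial.aeval (R := ℚ) (MvPolynomial.X none : MvPolynomial (Vj n) ℂ)).toRingHom
    (fun j => ∑ c, MvPolynomial.X (some (some ⟨(ixj n j).1, (ixj n j).2.1, c⟩)) *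
      Polynomial.aeval (-MvPolynomial.X (some none)) (Ep (N (ixj n j).1) c (ixj n j).2.2)) R

lemma evj_PRj (N : TM n) (R : MvPolynomial (Fin (rj n)) (Polynomial ℚ)) (z L : ℂ) (M : TM n) :
    evj (PRj N R) z L M =
      MvPolynomial.eval₂ (evq z) (fun j => (M (ixj n j).1 * E (N (ixj n j).1) (-L)) (ixj n j).2.1 (ixj n j).2.2) R := by
  unfold PRj evj
  induction R using MvPolynomial.induction_on with
  | C p =>
    rw [MvPolynomial.eval₂_C, MvPolynomial.eval₂_C]
    have h1 : ((MvPolynomial.eval (ptj z L M)).comp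
        (Polynomial.aeval (R := ℚ) (MvPolynomial.X none : MvPolynomial (Vj n) ℂ)).toRingHom) = evq z := by
      refine Polynomial.ringHom_ext (fun a => ?_) ?_
      · simp [evq]
      · rw [RingHom.comp_apply]
        unfold evq
        show (MvPolynomial.eval (ptj z L M)) (Polynomial.aeval _ Polynomial.X) = Polynomial.aeval z Polynomial.X
        rw [Polynomial.aeval_X, Polynomial.aeval_X, MvPolynomial.eval_X]
        rfl
    rw [← h1]
    rfl
  | add p q hp hq => rw [MvPolynomial.eval₂_add, MvPolynomial.eval₂_add, map_add, hp, hq]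
  | mul_X p j hp =>
    rw [MvPolynomial.eval₂_mul, MvPolynomial.eval₂_mul, map_mul, hp, MvPolynomial.eval₂_X, MvPolynomial.eval₂_X]
    congr 1
    rw [map_sum, Matrix.mul_apply]
    refine Finset.sum_congr rfl fun c _ => ?_
    rw [map_mul, MvPolynomial.eval_X]
    congr 1
    have h1 : (MvPolynomial.eval (ptj z L M)) (Polynomial.aeval (-MvPolynomial.X (some none))
        (Ep (N (ixj n j).1) c (ixj n j).2.2)) = (Ep (N (ixj n j).1) c (ixj n j).2.2).eval (-L) := by
      have h2 : (MvPolynomial.aeval (ptj z L M) : MvPolynomial (Vj n) ℂ →ₐ[ℂ] ℂ)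
          (Polynomial.aeval (-MvPolynomial.X (some none)) (Ep (N (ixj n j).1) c (ixj n j).2.2)) =
          Polynomial.aeval ((MvPolynomial.aeval (ptj z L M) : MvPolynomial (Vj n) ℂ →ₐ[ℂ] ℂ)
            (-MvPolynomial.X (some none))) (Ep (N (ixj n j).1) c (ixj n j).2.2) := (Polynomial.aeval_algHom_apply _ _ _).symm
      rw [map_neg, MvPolynomial.aeval_X, ← MvPolynomial.coe_aeval_eq_eval] at *
      exact h2
    rw [h1, ← Ep_eval]
    rfl

/-- **invariance of the relations between the entries of the holomorphic parts** -/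
theorem rel_invj (hQ : ∀ a, QD (n a) (Q a))
    (hsep : ∀ a b, a ≠ b → n a = n b → Diff (Q a) (Q b))
    {R : MvPolynomial (Fin (rj n)) (Polynomial ℚ)} (hR : MvPolynomial.aeval (hj n Q) R = 0)
    {x : ℝ} (hx : 0 < x) (hx1 : x < 1) {κ : TM n}
    (hκ : ∀ a, (κ a).transpose * cm (Jm (n a) (Q a)) * κ a = cm (Jm (n a) (Q a))) :
    MvPolynomial.eval₂ (evq (x : ℂ)) (fun j => (Hf (Hc (n (ixj n j).1) (Q (ixj n j).1)) (x : ℂ) * κ (ixj n j).1)
      (ixj n j).2.1 (ixj n j).2.2) R = 0 := by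
  set N : TM n := fun a => cm (Am (n a)) with hNd
  have hN : ∀ a, (N a) ^ n a = 0 := fun a => Pool.Agent.Y119.HY.Ac_nil
  have hNJ : ∀ a, (N a).transpose * cm (Jm (n a) (Q a)) + cm (Jm (n a) (Q a)) * N a = 0 := fun a => Pool.Agent.Y119.HY.Jc_rel
  -- the relation
  have hrel : PRj N R ∈ Relj (Yj N fun a => Hc (n a) (Q a)) := by
    intro y hy hy1
    rw [evj_PRj]
    have e1 : ∀ a, Yj N (fun a => Hc (n a) (Q a)) (y : ℂ) a * E (N a) (-Complex.log y) = Hf (Hc (n a) (Q a)) (y : ℂ) := by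
      intro a
      unfold Yj Yf
      rw [Matrix.mul_assoc, E_mul_neg (hN a), mul_one]
    simp only [e1]
    have hy' : 1 < 1 / y := by rw [lt_div_iff₀ hy]; linarith
    have h1 := (ev_aeval_gen (h := hj n Q) hy' (fun j => Cv_Hp (hQ (ixj n j).1) hy' _ _) R).2
    rw [hR] at h1
    have h2 : ev (1 / y) (0 : ℚ⟦X⟧) = 0 := by
      unfold ev
      simp
    rw [h2, Complex.ofReal_zero, one_div_one_div] at h1
    have h3 : (fun j => ((ev (1 / y) (hj n Q j) : ℝ) : ℂ)) = fun j =>
        Hf (Hc (n (ixj n j).1) (Q (ixj n j).1)) (y : ℂ) (ixj n j).2.1 (ixj n j).2.2 := by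
      funext j
      unfold hj
      rw [ev_Hp, one_div_one_div]
    rw [h3] at h1
    exact h1.symm
  set L : ℂ := Complex.log x with hL
  set g : TM n := fun a => E (N a) (-L) * κ a * E (N a) L with hg
  have hgJ : ∀ a, (g a).transpose * cm (Jm (n a) (Q a)) * g a = cm (Jm (n a) (Q a)) := by
    intro a
    have i1 := E_isom (hN a) (hNJ a) (-L)
    have i2 := E_isom (hN a) (hNJ a) L
    calc (g a).transpose * cm (Jm (n a) (Q a)) * g a = (E (N a) L).transpose * ((κ a).transpose *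
          ((E (N a) (-L)).transpose * cm (Jm (n a) (Q a)) * E (N a) (-L)) * κ a) * E (N a) L := by
            rw [hg, Matrix.transpose_mul, Matrix.transpose_mul]
            simp only [Matrix.mul_assoc]
      _ = _ := by rw [i1, hκ a, i2]
  have h1 := hyp_invarj hQ hsep g hgJ _ hrel x hx hx1
  rw [evj_PRj] at h1
  have e2 : ∀ a, Yj N (fun a => Hc (n a) (Q a)) (x : ℂ) a * g a * E (N a) (-L) = Hf (Hc (n a) (Q a)) (x : ℂ) * κ a := by
    intro a
    unfold Yj Yf
    have e3 : E (N a) L * E (N a) (-L) = 1 := E_mul_neg (hN a) L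
    calc Hf (Hc (n a) (Q a)) (x : ℂ) * E (N a) (Complex.log x) * g a * E (N a) (-L) =
          Hf (Hc (n a) (Q a)) (x : ℂ) * (E (N a) L * E (N a) (-L)) * κ a * (E (N a) L * E (N a) (-L)) := by
            rw [hg]
            simp only [Matrix.mul_assoc]
            rfl
      _ = _ := by rw [e3, mul_one, mul_one]
  rw [← hL] at h1
  refine (congrArg (fun f => MvPolynomial.eval₂ (evq (x : ℂ)) f R) ?_).trans h1
  funext j
  exact (congrFun (congrFun (e2 (ixj n j).1) (ixj n j).2.1) (ixj n j).2.2).symm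

end Run7.h309.JH
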