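import Pool.Agent.Y119.HY.Main

/-!
# Joint hypergeometric families: the group generated by a common regular unipotent group and a common transvection

`J_a` invertible alternating matrices, `N_a` nilpotent elements of their Lie algebras, `v_a` vectors with
`ω(v_a, N_a ^ (n_a - 1) v_a) ≠ 0`. A monoid of tuples of matrices which is closed under specialisation of polynomial
families and under simultaneous conjugation by `exp (c N_a)` and which contains the simultaneous transvections in the
directions `v_a` contains the product of the symplectic groups, provided that the functions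
`c ↦ ω(v_a, exp (c N_a) v_a)` are different for different `a`.
-/

set_option autoImplicit false

open Matrix

namespace Run7.h309.JH

open Pool.Agent.Y119.HY

variable {q : ℕ} {n : Fin q → ℕ}

/-- tuples of matrices -/
abbrev TM (n : Fin q → ℕ) : Type := ∀ a, Matrix (Fin (n a)) (Fin (n a)) ℂ

lemma om_smul_left {n : ℕ} (J : Matrix (Fin n) (Fin n) ℂ) (c : ℂ) (u v : Fin n → ℂ) : om J (c • u) v = c * om J u v := by
  unfold om
  rw [smul_dotProduct, smul_eq_mul]

lemma tv_mul {n : ℕ} {J : Matrix (Fin n) (Fin n) ℂ} (hJ : J.transpose = -J) (v : Fin n → ℂ) (s t : ℂ) :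
    tv J v s * tv J v t = tv J v (s + t) := by
  unfold tv
  rw [add_mul, one_mul, mul_add, mul_one, smul_mul_smul_comm, tv_sq hJ, smul_zero, add_zero, add_smul]
  abel

lemma tv_zero {n : ℕ} (J : Matrix (Fin n) (Fin n) ℂ) (v : Fin n → ℂ) : tv J v 0 = 1 := by
  unfold tv
  rw [zero_smul, add_zero]

variable {J N : TM n} {S : Submonoid (TM n)}

/-- the directions of simultaneous transvections -/
def Dr (J : TM n) (S : Submonoid (TM n)) (x : ∀ a, Fin (n a) → ℂ) : Prop := ∀ s, (fun a => tv (J a) (x a) s) ∈ S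

lemma Dr.smul {x : ∀ a, Fin (n a) → ℂ} (h : Dr J S x) (c : ℂ) : Dr J S fun a => c • x a := by
  intro s
  simp only [tv_smul]
  exact h _

section

variable (hN : ∀ a, (N a) ^ n a = 0) (hNJ : ∀ a, (N a).transpose * J a + J a * N a = 0)
  (hE : ∀ c : ℂ, ∀ g ∈ S, (fun a => E (N a) c * g a * E (N a) (-c)) ∈ S)

include hN hNJ hE in
lemma Dr.conj {x : ∀ a, Fin (n a) → ℂ} (h : Dr J S x) (c : ℂ) : Dr J S fun a => E (N a) c *ᵥ x a := by
  intro s
  have h1 := hE c _ (h s)
  have h2 : (fun a => E (N a) c * tv (J a) (x a) s * E (N a) (-c)) = fun a => tv (J a) (E (N a) c *ᵥ x a) s := by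
    funext a
    exact tv_conj _ _ (E_mul_neg (hN a) c) (E_isom (hN a) (hNJ a) c) _ _
  rw [h2] at h1
  exact h1

end

section

variable (hJ : ∀ a, (J a).transpose = -J a)
  (hcl : ∀ M : (∀ a, Matrix (Fin (n a)) (Fin (n a)) (Polynomial ℂ)),
    (∀ c : ℂ, c ≠ 0 → (fun a => (M a).map (Polynomial.eval c)) ∈ S) → (fun a => (M a).map (Polynomial.eval 0)) ∈ S)

include hJ in
lemma Dr.trans {x y : ∀ a, Fin (n a) → ℂ} (hx : Dr J S x) (hy : Dr J S y) (c : ℂ) :
    Dr J S fun a => y a + (c * om (J a) (x a) (y a)) • x a := by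
  intro s
  have h1 := mul_mem (mul_mem (hx c) (hy s)) (hx (-c))
  have h2 : ((fun a => tv (J a) (x a) c) * fun a => tv (J a) (y a) s) * (fun a => tv (J a) (x a) (-c)) =
      fun a => tv (J a) (y a + (c * om (J a) (x a) (y a)) • x a) s := by
    funext a
    show tv (J a) (x a) c * tv (J a) (y a) s * tv (J a) (x a) (-c) = _
    rw [tv_conj _ _ (tv_mul_neg (hJ a) _ _) (tv_isom (hJ a) _ _), tv_mulVec]
  rw [h2] at h1
  exact h1

include hcl in
lemma Dr.closed {x w : ∀ a, Fin (n a) → ℂ} (h : ∀ c : ℂ, c ≠ 0 → Dr J S fun a => x a + c • w a) : Dr J S x := by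
  intro s
  set M : ∀ a, Matrix (Fin (n a)) (Fin (n a)) (Polynomial ℂ) := fun a =>
    1 + (Polynomial.C s : Polynomial ℂ) • vecMulVec
      (fun l => Polynomial.C (x a l) + Polynomial.X * Polynomial.C (w a l))
      (fun l => Polynomial.C ((x a ᵥ* J a) l) + Polynomial.X * Polynomial.C ((w a ᵥ* J a) l)) with hM
  have hMe : ∀ (c : ℂ) (a : Fin q), (M a).map (Polynomial.eval c) = tv (J a) (x a + c • w a) s := by
    intro c a
    ext l k
    unfold tv
    rw [hM]
    simp only [Matrix.map_apply, Matrix.add_apply, Matrix.smul_apply, smul_eq_mul, vecMulVec_apply,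
      Polynomial.eval_add, Polynomial.eval_mul, Polynomial.eval_X, Polynomial.eval_C, add_vecMul, smul_vecMul,
      Pi.add_apply, Pi.smul_apply]
    congr 1
    rw [Matrix.one_apply, Matrix.one_apply]
    split_ifs <;> simp
  have h1 := hcl M fun c hc => by
    simp only [hMe]
    exact h c hc s
  simp only [hMe] at h1
  simpa using h1

include hJ hcl in
/-- the limit -/
lemma Dr.lim {x y : ∀ a, Fin (n a) → ℂ} (hx : Dr J S x) (hy : Dr J S y) :
    Dr J S fun a => om (J a) (x a) (y a) • x a := by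
  refine Dr.closed hcl (w := y) fun c hc => ?_
  have h1 := (Dr.trans hJ hx hy c⁻¹).smul c
  refine (congrArg (Dr J S) ?_).mp h1
  funext a
  rw [smul_add, smul_smul, ← mul_assoc, mul_inv_cancel₀ hc, one_mul, add_comm]

/-- the weights -/
def Wt (J : TM n) (S : Submonoid (TM n)) (x : ∀ a, Fin (n a) → ℂ) (w : Fin q → ℂ) : Prop :=
  ∀ s, (fun a => tv (J a) (x a) (w a * s)) ∈ S

include hJ in
lemma Wt.add {x : ∀ a, Fin (n a) → ℂ} {w w' : Fin q → ℂ} (h : Wt J S x w) (h' : Wt J S x w') :
    Wt J S x fun a => w a + w' a := by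
  intro s
  have h1 := mul_mem (h s) (h' s)
  refine (congrArg (· ∈ S) ?_).mp h1
  funext a
  show tv (J a) (x a) (w a * s) * tv (J a) (x a) (w' a * s) = _
  rw [tv_mul (hJ a), add_mul]

lemma Wt.smul {x : ∀ a, Fin (n a) → ℂ} {w : Fin q → ℂ} (h : Wt J S x w) (c : ℂ) : Wt J S x fun a => c * w a := by
  intro s
  refine (congrArg (· ∈ S) ?_).mp (h (c * s))
  funext a
  congr 1
  ring

lemma Wt.one {x : ∀ a, Fin (n a) → ℂ} (h : Dr J S x) : Wt J S x fun _ => 1 := by
  intro s
  simp only [one_mul]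
  exact h s

lemma Wt.dr {x : ∀ a, Fin (n a) → ℂ} {w r : Fin q → ℂ} (h : Wt J S x w) (hr : ∀ a, r a ^ 2 = w a) :
    Dr J S fun a => r a • x a := by
  intro s
  simp only [tv_smul, hr]
  exact h s

lemma Wt.of_dr {x : ∀ a, Fin (n a) → ℂ} {r : Fin q → ℂ} (h : Dr J S fun a => r a • x a) : Wt J S x fun a => r a ^ 2 := by
  intro s
  have := h s
  simp only [tv_smul] at this
  exact this

include hJ hcl in
lemma Wt.sq {x y : ∀ a, Fin (n a) → ℂ} (hy : Dr J S y) {w : Fin q → ℂ} (h : Wt J S x w) :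
    Wt J S x fun a => (w a * om (J a) (x a) (y a)) ^ 2 := by
  choose r hr using fun a => IsAlgClosed.exists_pow_nat_eq (w a) (n := 2) (by norm_num)
  have h1 := Dr.lim hJ hcl (h.dr hr) hy
  refine Wt.of_dr ?_
  refine (congrArg (Dr J S) ?_).mp h1
  funext a
  rw [om_smul_left, smul_smul, ← hr a]
  congr 1
  ring

include hJ hcl in
/-- the weights are a module over the ring generated by the squares `ω(x, y)²` -/
lemma Wt.mul {x y : ∀ a, Fin (n a) → ℂ} (hx : Dr J S x) (hy : Dr J S y) {w : Fin q → ℂ} (h : Wt J S x w) :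
    Wt J S x fun a => w a * om (J a) (x a) (y a) ^ 2 := by
  have h1 := Wt.sq hJ hcl hy (Wt.add hJ h (Wt.one hx))
  have h2 := (Wt.sq hJ hcl hy h).smul (-1)
  have h3 := (Wt.sq hJ hcl hy (Wt.one hx)).smul (-1)
  have h4 := (Wt.add hJ (Wt.add hJ h1 h2) h3).smul (1 / 2)
  refine (congrArg (Wt J S x) ?_).mp h4
  funext a
  ring

include hJ hcl in
/-- separated weights -/
lemma Wt.single {x : ∀ a, Fin (n a) → ℂ} (hx : Dr J S x)
    (hsep : ∀ a b, a ≠ b → ∃ y, Dr J S y ∧ om (J a) (x a) (y a) ^ 2 ≠ om (J b) (x b) (y b) ^ 2) (a : Fin q) (s : ℂ) :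
    (Pi.mulSingle a (tv (J a) (x a) s) : TM n) ∈ S := by
  classical
  have key : ∀ T : Finset (Fin q), a ∉ T → ∃ w : Fin q → ℂ, Wt J S x w ∧ w a ≠ 0 ∧ ∀ b ∈ T, w b = 0 := by
    intro T
    induction T using Finset.induction_on with
    | empty => exact fun _ => ⟨fun _ => 1, Wt.one hx, one_ne_zero, fun b hb => absurd hb (Finset.notMem_empty _)⟩
    | insert b T hb ih =>
      intro ha
      rw [Finset.mem_insert, not_or] at ha
      obtain ⟨w, hw, hwa, hwT⟩ := ih ha.2
      obtain ⟨y, hy, hne⟩ := hsep a b ha.1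
      refine ⟨fun c => w c * om (J c) (x c) (y c) ^ 2 + -(om (J b) (x b) (y b) ^ 2) * w c,
        Wt.add hJ (Wt.mul hJ hcl hx hy hw) (hw.smul _), ?_, fun c hc => ?_⟩
      · have h1 : w a * om (J a) (x a) (y a) ^ 2 + -(om (J b) (x b) (y b) ^ 2) * w a =
            w a * (om (J a) (x a) (y a) ^ 2 - om (J b) (x b) (y b) ^ 2) := by ring
        beta_reduce
        rw [h1]
        exact mul_ne_zero hwa (sub_ne_zero.2 hne)
      · rcases Finset.mem_insert.1 hc with rfl | hc'
        · simp only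
          ring
        · simp only
          rw [hwT c hc']
          ring
  obtain ⟨w, hw, hwa, hw0⟩ := key (Finset.univ.erase a) (Finset.notMem_erase _ _)
  have h1 := (hw.smul (w a)⁻¹) s
  refine (congrArg (· ∈ S) ?_).mp h1
  funext b
  beta_reduce
  by_cases hb : b = a
  · subst hb
    rw [Pi.mulSingle_eq_same, inv_mul_cancel₀ hwa, one_mul]
  · rw [Pi.mulSingle_eq_of_ne hb, hw0 b (Finset.mem_erase.2 ⟨hb, Finset.mem_univ _⟩), mul_zero, zero_mul, tv_zero]

end

/-- `ω(v, exp (c N) v)` as a polynomial -/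
noncomputable def pq {n : ℕ} (J N : Matrix (Fin n) (Fin n) ℂ) (v : Fin n → ℂ) : Polynomial ℂ :=
  pl N v { toFun := fun x => om J v x, map_add' := om_add v, map_smul' := fun c x => om_smul c v x }

lemma pq_eval {n : ℕ} (J N : Matrix (Fin n) (Fin n) ℂ) (v : Fin n → ℂ) (c : ℂ) :
    (pq J N v).eval c = om J v (E N c *ᵥ v) := by
  unfold pq
  rw [pl_eval]
  rfl

lemma pq_ne {n : ℕ} {J N : Matrix (Fin n) (Fin n) ℂ} (hN : N ^ n = 0) {v : Fin n → ℂ}
    (hv : om J v ((N ^ (n - 1)) *ᵥ v) ≠ 0) : pq J N v ≠ 0 := by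
  unfold pq
  refine pl_ne hN (fun h => hv ?_) fun h => hv ?_
  · rw [h]
    unfold om
    rw [mulVec_zero, dotProduct_zero]
  · exact congrArg (fun l : (Fin n → ℂ) →ₗ[ℂ] ℂ => l ((N ^ (n - 1)) *ᵥ v)) h

section

variable (hJ : ∀ a, (J a).transpose = -J a) (hdet : ∀ a, (J a).det ≠ 0) (hN : ∀ a, (N a) ^ n a = 0)
  (hNJ : ∀ a, (N a).transpose * J a + J a * N a = 0)
  (hE : ∀ c : ℂ, ∀ g ∈ S, (fun a => E (N a) c * g a * E (N a) (-c)) ∈ S)
  (hcl : ∀ M : (∀ a, Matrix (Fin (n a)) (Fin (n a)) (Polynomial ℂ)),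
    (∀ c : ℂ, c ≠ 0 → (fun a => (M a).map (Polynomial.eval c)) ∈ S) → (fun a => (M a).map (Polynomial.eval 0)) ∈ S)
  {v : ∀ a, Fin (n a) → ℂ} (hv : ∀ a, om (J a) (v a) ((N a ^ (n a - 1)) *ᵥ v a) ≠ 0) (hvS : Dr J S v)

include hJ hN hNJ hE hv hvS in
/-- different polynomials are separated -/
lemma separate {a b : Fin q} (h : pq (J a) (N a) (v a) ≠ pq (J b) (N b) (v b)) :
    ∃ y, Dr J S y ∧ om (J a) (v a) (y a) ^ 2 ≠ om (J b) (v b) (y b) ^ 2 := by
  by_cases h1 : ∃ c, (pq (J a) (N a) (v a)).eval c ^ 2 ≠ (pq (J b) (N b) (v b)).eval c ^ 2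
  · obtain ⟨c, hc⟩ := h1
    refine ⟨_, Dr.conj hN hNJ hE hvS c, ?_⟩
    rw [pq_eval, pq_eval] at hc
    exact hc
  · push Not at h1
    set P := pq (J a) (N a) (v a) with hP
    set R := pq (J b) (N b) (v b) with hR
    have h2 : (P - R) * (P + R) = 0 := by
      refine Polynomial.funext fun c => ?_
      rw [Polynomial.eval_mul, Polynomial.eval_sub, Polynomial.eval_add, Polynomial.eval_zero]
      linear_combination h1 c
    have h3 : R = -P := by
      have := (mul_eq_zero.1 h2).resolve_left (sub_ne_zero.2 h)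
      exact (neg_eq_of_add_eq_zero_right this).symm
    have hP0 : P ≠ 0 := pq_ne (hN a) (hv a)
    have hP2 : P.comp (Polynomial.C 2 * Polynomial.X) ≠ 0 := by
      intro h0
      apply hP0
      have h4 := congrArg (fun p => Polynomial.comp p (Polynomial.C (1 / 2) * Polynomial.X)) h0
      simp only [Polynomial.comp_assoc, Polynomial.zero_comp, Polynomial.mul_comp, Polynomial.C_comp,
        Polynomial.X_comp] at h4
      rw [← mul_assoc, ← Polynomial.C_mul] at h4
      norm_num at h4
      exact h4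
    obtain ⟨c, hc⟩ : ∃ c, (P * P.comp (Polynomial.C 2 * Polynomial.X)).eval c ≠ 0 := by
      by_contra hcon
      push Not at hcon
      exact mul_ne_zero hP0 hP2 (Polynomial.funext fun c => by rw [hcon c, Polynomial.eval_zero])
    rw [Polynomial.eval_mul, Polynomial.eval_comp] at hc
    have e2 : (Polynomial.C 2 * Polynomial.X : Polynomial ℂ).eval c = c + c := by
      simp
      ring
    rw [e2] at hc
    refine ⟨_, Dr.conj hN hNJ hE (Dr.trans hJ hvS (Dr.conj hN hNJ hE hvS c) 1) c, ?_⟩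
    have key : ∀ d, om (J d) (v d) (E (N d) c *ᵥ (E (N d) c *ᵥ v d + (1 * om (J d) (v d) (E (N d) c *ᵥ v d)) • v d)) =
        (pq (J d) (N d) (v d)).eval (c + c) + (pq (J d) (N d) (v d)).eval c ^ 2 := by
      intro d
      rw [mulVec_add, mulVec_smul, om_add, om_smul, mulVec_mulVec, ← E_add (hN d), pq_eval, pq_eval, one_mul, sq]
    rw [key a, key b, ← hP, ← hR, h3, Polynomial.eval_neg, Polynomial.eval_neg]
    intro h5
    have h6 : 4 * (P.eval c * (P.eval c * P.eval (c + c))) = 0 := by linear_combination h5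
    have h7 : P.eval c ≠ 0 := left_ne_zero_of_mul hc
    have h8 : P.eval (c + c) ≠ 0 := right_ne_zero_of_mul hc
    exact mul_ne_zero (by norm_num) (mul_ne_zero h7 (mul_ne_zero h7 h8)) h6

include hJ hdet hN hNJ hE hcl hv hvS in
/-- **Density of the joint monodromy.** -/
theorem sp_joint (hsep : ∀ a b, a ≠ b → pq (J a) (N a) (v a) ≠ pq (J b) (N b) (v b)) (g : TM n)
    (hg : ∀ a, (g a).transpose * J a * g a = J a) : g ∈ S := by
  classical
  have h1 := Wt.single hJ hcl hvS fun a b hab => separate hJ hN hNJ hE hv hvS (hsep a b hab)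
  have h2 : ∀ a, ∀ g : Matrix (Fin (n a)) (Fin (n a)) ℂ, g.transpose * J a * g = J a → (Pi.mulSingle a g : TM n) ∈ S := by
    intro a g hg
    have h3 := sp_all (hJ a) (hN a) (hNJ a) (hv a)
      (S.comap (MonoidHom.mulSingle (fun a => Matrix (Fin (n a)) (Fin (n a)) ℂ) a)) (fun c g hg => ?_) (fun s => ?_)
      (fun M hM => ?_) (hdet a) g hg
    · exact h3
    · rw [Submonoid.mem_comap] at hg ⊢
      have h4 := hE c _ hg
      refine (congrArg (· ∈ S) ?_).mp h4
      funext b
      show _ = (Pi.mulSingle a (E (N a) c * g * E (N a) (-c)) : TM n) b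
      by_cases hb : b = a
      · subst hb
        rw [Pi.mulSingle_eq_same]
        show _ * (Pi.mulSingle b g : TM n) b * _ = _
        rw [Pi.mulSingle_eq_same]
      · rw [Pi.mulSingle_eq_of_ne hb]
        show _ * (Pi.mulSingle a g : TM n) b * _ = _
        rw [Pi.mulSingle_eq_of_ne hb, mul_one, E_mul_neg (hN b)]
    · exact h1 a s
    · rw [Submonoid.mem_comap]
      have h4 := hcl (Pi.mulSingle a M) fun c hc => ?_
      · refine (congrArg (· ∈ S) ?_).mp h4
        funext b
        show _ = (Pi.mulSingle a (M.map (Polynomial.eval 0)) : TM n) b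
        by_cases hb : b = a
        · subst hb
          rw [Pi.mulSingle_eq_same, Pi.mulSingle_eq_same]
        · rw [Pi.mulSingle_eq_of_ne hb, Pi.mulSingle_eq_of_ne hb]
          exact Matrix.map_one _ (Polynomial.eval_zero) (Polynomial.eval_one)
      · have h5 := hM c hc
        rw [Submonoid.mem_comap] at h5
        refine (congrArg (· ∈ S) ?_).mp h5
        funext b
        show (Pi.mulSingle a (M.map (Polynomial.eval c)) : TM n) b = _
        by_cases hb : b = a
        · subst hb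
          rw [Pi.mulSingle_eq_same, Pi.mulSingle_eq_same]
        · rw [Pi.mulSingle_eq_of_ne hb, Pi.mulSingle_eq_of_ne hb]
          exact (Matrix.map_one _ (Polynomial.eval_zero) (Polynomial.eval_one)).symm
  have key : ∀ T : Finset (Fin q), (fun a => if a ∈ T then g a else 1 : TM n) ∈ S := by
    intro T
    induction T using Finset.induction_on with
    | empty =>
      simp only [Finset.notMem_empty, if_false]
      exact one_mem S
    | insert a T ha ih =>
      refine (congrArg (· ∈ S) ?_).mp (mul_mem ih (h2 a (g a) (hg a)))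
      funext b
      show (if b ∈ T then g b else 1) * (Pi.mulSingle a (g a) : TM n) b = _
      by_cases hb : b = a
      · subst hb
        rw [if_neg ha, Pi.mulSingle_eq_same, one_mul, if_pos (Finset.mem_insert_self _ _)]
      · rw [Pi.mulSingle_eq_of_ne hb, mul_one]
        by_cases hbT : b ∈ T
        · rw [if_pos hbT, if_pos (Finset.mem_insert_of_mem hbT)]
        · rw [if_neg hbT, if_neg (by rw [Finset.mem_insert, not_or]; exact ⟨hb, hbT⟩)]
  have h3 := key Finset.univ
  simp only [Finset.mem_univ, if_true] at h3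
  exact h3

end

end Run7.h309.JH
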