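import Pool.Agent.Run7.h309.JH.Sep
import Pool.Agent.Run7.h309.JH.Ent

/-!
# Joint hypergeometric families: two systems without common exponents at infinity are separated
-/

set_option autoImplicit false

open Filter Topology Matrix

namespace Run7.h309.JH

open Pool.Agent.Y119.HY

section gen

variable {n : ℕ}

/-- the chain of a vector -/
noncomputable def Ch (A : Matrix (Fin n) (Fin n) ℂ) (v : Fin n → ℂ) : Matrix (Fin n) (Fin n) ℂ :=
  Matrix.of fun r i => ((A ^ (i : ℕ)) *ᵥ v) r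

lemma mul_Ch (X A : Matrix (Fin n) (Fin n) ℂ) (v : Fin n → ℂ) (r i : Fin n) :
    (X * Ch A v) r i = (X *ᵥ ((A ^ (i : ℕ)) *ᵥ v)) r := rfl

lemma Ch_unit {A : Matrix (Fin n) (Fin n) ℂ} {v : Fin n → ℂ} (hA : A ^ n = 0) (hv : (A ^ (n - 1)) *ᵥ v ≠ 0) :
    IsUnit (Ch A v) := by
  rw [← Matrix.linearIndependent_cols_iff_isUnit]
  exact chain_li hA hv

lemma om_pow {J A : Matrix (Fin n) (Fin n) ℂ} (hAJ : A.transpose * J + J * A = 0) (v w : Fin n → ℂ) (i : ℕ) :
    om J ((A ^ i) *ᵥ v) w = (-1) ^ i * om J v ((A ^ i) *ᵥ w) := by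
  unfold om
  rw [← vecMul_transpose, ← dotProduct_mulVec, mulVec_mulVec, pow_skew hAJ, smul_mulVec, dotProduct_smul, smul_eq_mul,
    mulVec_mulVec]

lemma Ch_form {J A : Matrix (Fin n) (Fin n) ℂ} (hAJ : A.transpose * J + J * A = 0) (v : Fin n → ℂ) (i j : Fin n) :
    ((Ch A v).transpose * J * Ch A v) i j = (-1) ^ (i : ℕ) * om J v ((A ^ ((i : ℕ) + j)) *ᵥ v) := by
  have h1 : ((Ch A v).transpose * J * Ch A v) i j = om J ((A ^ (i : ℕ)) *ᵥ v) ((A ^ (j : ℕ)) *ᵥ v) := by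
    rw [Matrix.mul_assoc]
    rfl
  rw [h1, om_pow hAJ, mulVec_mulVec, ← pow_add]

/-- intertwining of the exponentials -/
lemma E_inter {N N' X : Matrix (Fin n) (Fin n) ℂ} (h : X * N = N' * X) (s : ℂ) : X * E N s = E N' s * X := by
  have hp : ∀ i : ℕ, X * N ^ i = N' ^ i * X := by
    intro i
    induction i with
    | zero => simp
    | succ i ih => rw [pow_succ, ← Matrix.mul_assoc, ih, Matrix.mul_assoc, h, ← Matrix.mul_assoc, ← pow_succ]
  unfold E
  rw [Finset.mul_sum, Finset.sum_mul]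
  refine Finset.sum_congr rfl fun i _ => ?_
  rw [mul_smul_comm, smul_mul_assoc, hp]

/-- the inverse of an isometry -/
noncomputable def Wi (J Y : Matrix (Fin n) (Fin n) ℂ) : Matrix (Fin n) (Fin n) ℂ := J⁻¹ * Y.transpose * J

lemma Wi_mul {J Y : Matrix (Fin n) (Fin n) ℂ} (hdet : J.det ≠ 0) (hY : Y.transpose * J * Y = J) : Wi J Y * Y = 1 := by
  unfold Wi
  rw [Matrix.mul_assoc, Matrix.mul_assoc, ← Matrix.mul_assoc Y.transpose, hY]
  exact nonsing_inv_mul _ (Ne.isUnit hdet)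

lemma mul_Wi {J Y : Matrix (Fin n) (Fin n) ℂ} (hdet : J.det ≠ 0) (hY : Y.transpose * J * Y = J) : Y * Wi J Y = 1 :=
  mul_eq_one_comm.1 (Wi_mul hdet hY)

lemma Wi_prod {J Y Z : Matrix (Fin n) (Fin n) ℂ} (hdet : J.det ≠ 0) : Wi J (Y * Z) = Wi J Z * Wi J Y := by
  unfold Wi
  rw [transpose_mul]
  have h1 : J * J⁻¹ = 1 := mul_nonsing_inv _ (Ne.isUnit hdet)
  calc J⁻¹ * (Z.transpose * Y.transpose) * J = J⁻¹ * Z.transpose * 1 * Y.transpose * J := by
        rw [mul_one]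
        simp only [Matrix.mul_assoc]
    _ = _ := by
      rw [← h1]
      simp only [Matrix.mul_assoc]

lemma Wi_unique {J Y Z : Matrix (Fin n) (Fin n) ℂ} (hdet : J.det ≠ 0) (hY : Y.transpose * J * Y = J) (hZ : Y * Z = 1) :
    Wi J Y = Z := by
  calc Wi J Y = Wi J Y * (Y * Z) := by rw [hZ, mul_one]
    _ = Z := by rw [← Matrix.mul_assoc, Wi_mul hdet hY, one_mul]

/-- gauge transformation by the exponentials -/
lemma gauge {J N N' T U U' : Matrix (Fin n) (Fin n) ℂ} (hdet : J.det ≠ 0) (hN : N ^ n = 0)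
    (hNJ : N.transpose * J + J * N = 0) (hT : T * N = N' * T) (s : ℂ) :
    (U' * E N' s) * T * Wi J (U * E N s) = U' * T * Wi J U := by
  rw [Wi_prod hdet, Wi_unique hdet (E_isom hN hNJ s) (E_mul_neg hN s)]
  calc U' * E N' s * T * (E N (-s) * Wi J U) = U' * (E N' s * T) * E N (-s) * Wi J U := by simp only [Matrix.mul_assoc]
    _ = U' * T * (E N s * E N (-s)) * Wi J U := by
      rw [← E_inter hT]
      simp only [Matrix.mul_assoc]
    _ = _ := by rw [E_mul_neg hN, mul_one]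

end gen

/-- a symplectic system with its connection matrix -/
structure CS {n : ℕ} (J A : Matrix (Fin n) (Fin n) ℂ) (u : Fin n → ℂ) (H K : ℕ → Matrix (Fin n) (Fin n) ℂ)
    (M Mi : Matrix (Fin n) (Fin n) ℂ) : Prop where
  two : 2 ≤ n
  skew : J.transpose = -J
  det : J.det ≠ 0
  nil : A ^ n = 0
  rel : A.transpose * J + J * A = 0
  solH : Sol A (-vecMulVec u (u ᵥ* J)) H
  solK : Sol (vecMulVec u (u ᵥ* J)) (-A) K
  inv : M * Mi = 1
  inv' : Mi * M = 1
  iso : M.transpose * J * M = J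
  conn : ∀ z ∈ Lens, Yf A H z = Yf (vecMulVec u (u ᵥ* J)) K (1 - z) * M
  om : om J (Mi *ᵥ u) ((A ^ (n - 1)) *ᵥ (Mi *ᵥ u)) ≠ 0

section

variable {n : ℕ} {J A : Matrix (Fin n) (Fin n) ℂ} {u : Fin n → ℂ} {H K : ℕ → Matrix (Fin n) (Fin n) ℂ}
  {M Mi : Matrix (Fin n) (Fin n) ℂ}

lemma CS.nilB (h : CS J A u H K M Mi) : (vecMulVec u (u ᵥ* J)) ^ n = 0 := tv_pow h.skew u h.two

lemma CS.relB (h : CS J A u H K M Mi) :
    (vecMulVec u (u ᵥ* J)).transpose * J + J * vecMulVec u (u ᵥ* J) = 0 := tv_skew h.skew u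

lemma CS.relB' (h : CS J A u H K M Mi) :
    (-vecMulVec u (u ᵥ* J)).transpose * J + J * (-vecMulVec u (u ᵥ* J)) = 0 := by
  rw [transpose_neg, neg_mul, mul_neg, ← neg_add, h.relB, neg_zero]

lemma CS.isoY (h : CS J A u H K M Mi) {z : ℂ} (hz : z ∈ Lens) : (Yf A H z).transpose * J * Yf A H z = J :=
  self_pair h.nil h.rel h.relB' h.solH hz

lemma CS.ode (h : CS J A u H K M Mi) {z : ℂ} (hz : z ∈ Lens) :
    HD (Yf A H) (Gm A (-vecMulVec u (u ᵥ* J)) z * Yf A H z) z :=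
  Yf_ode h.solH h.nil (mem_Lens.1 hz).1 (slit_Lens hz)

lemma CS.ne (h : CS J A u H K M Mi) : (A ^ (n - 1)) *ᵥ (Mi *ᵥ u) ≠ 0 := by
  intro h0
  apply h.om
  rw [h0]
  unfold Pool.Agent.Y119.HY.om
  rw [mulVec_zero, dotProduct_zero]

end

/-- there is no invertible horizontal polynomial matrix between two systems; `C₀`, `C'` are the residues at infinity -/
def NoHom {n n' : ℕ} (C₀ S : Matrix (Fin n) (Fin n) ℂ) (C' S' : Matrix (Fin n') (Fin n') ℂ) : Prop :=
  ∀ (d : ℕ) (Z : ℕ → Matrix (Fin n') (Fin n) ℂ) (W : Matrix (Fin n) (Fin n') ℂ), (∀ k, d < k → Z k = 0) → W * Z 0 = 1 →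
    Z 0 * W = 1 → Z 1 = (2 : ℂ) • (S' * Z 0 - Z 0 * S) →
    (∀ k : ℕ, C' * Z k - Z k * C₀ = (k : ℂ) • Z k - (1 / 4 : ℂ) • (((k : ℂ) + 2) • Z (k + 2)) +
        (1 / 2 : ℂ) • (S' * Z (k + 1) - Z (k + 1) * S)) → False

/-- the same size -/
theorem sep_same {n : ℕ} {J A J' A' : Matrix (Fin n) (Fin n) ℂ} {u u' : Fin n → ℂ}
    {H K H' K' : ℕ → Matrix (Fin n) (Fin n) ℂ} {M Mi M' Mi' : Matrix (Fin n) (Fin n) ℂ}
    (h : CS J A u H K M Mi) (h' : CS J' A' u' H' K' M' Mi')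
    (hno : NoHom (A + vecMulVec u (u ᵥ* J)) (A - vecMulVec u (u ᵥ* J)) (A' + vecMulVec u' (u' ᵥ* J'))
      (A' - vecMulVec u' (u' ᵥ* J')))
    (hom : ∀ i : ℕ, om J (Mi *ᵥ u) ((A ^ i) *ᵥ (Mi *ᵥ u)) = om J' (Mi' *ᵥ u') ((A' ^ i) *ᵥ (Mi' *ᵥ u'))) : False := by
  classical
  set v := Mi *ᵥ u with hv
  set v' := Mi' *ᵥ u' with hv'
  set B := vecMulVec u (u ᵥ* J) with hB
  set B' := vecMulVec u' (u' ᵥ* J') with hB'
  have hP := Ch_unit h.nil h.ne
  have hP' := Ch_unit h'.nil h'.ne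
  set P := Ch A v with hPd
  set P' := Ch A' v' with hPd'
  have hPd1 : IsUnit P.det := (Matrix.isUnit_iff_isUnit_det _).1 hP
  obtain ⟨T, hTP⟩ : ∃ T, T * P = P' := ⟨P' * P⁻¹, by rw [Matrix.mul_assoc, nonsing_inv_mul _ hPd1, mul_one]⟩
  have hcancel : ∀ X Y : Matrix (Fin n) (Fin n) ℂ, X * P = Y * P → X = Y := by
    intro X Y hXY
    calc X = X * (P * P⁻¹) := by rw [mul_nonsing_inv _ hPd1, mul_one]
      _ = Y * (P * P⁻¹) := by rw [← Matrix.mul_assoc, hXY, Matrix.mul_assoc]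
      _ = Y := by rw [mul_nonsing_inv _ hPd1, mul_one]
  have hTv : ∀ i : ℕ, T *ᵥ ((A ^ i) *ᵥ v) = (A' ^ i) *ᵥ v' := by
    intro i
    by_cases hi : i < n
    · funext r
      have h1 := congrFun (congrFun hTP r) ⟨i, hi⟩
      exact h1
    · rw [pow_eq_zero_of_le (not_lt.1 hi) h.nil, pow_eq_zero_of_le (not_lt.1 hi) h'.nil, zero_mulVec, zero_mulVec,
        mulVec_zero]
  have hTA : T * A = A' * T := by
    refine hcancel _ _ ?_
    ext r i
    rw [hPd, mul_Ch, mul_Ch, ← mulVec_mulVec, ← mulVec_mulVec, hTv, mulVec_mulVec v A, ← pow_succ', hTv,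
      mulVec_mulVec v' A', ← pow_succ']
  have hTJ : T.transpose * J' * T = J := by
    have h1 : P'.transpose * J' * P' = P.transpose * J * P := by
      ext i j
      rw [hPd, hPd', Ch_form h.rel, Ch_form h'.rel, hom]
    have h2 : P.transpose * (T.transpose * J' * T) * P = P.transpose * J * P := by
      rw [← h1, ← hTP, transpose_mul]
      simp only [Matrix.mul_assoc]
    obtain ⟨Z, hZ⟩ : ∃ Z, Z = T.transpose * J' * T := ⟨_, rfl⟩
    rw [← hZ] at h2 ⊢
    have h3 := hcancel _ _ h2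
    have h4 : Z.transpose * P = J.transpose * P := by
      have := congrArg Matrix.transpose h3
      rwa [transpose_mul, transpose_mul, transpose_transpose] at this
    have h5 := hcancel _ _ h4
    exact Matrix.transpose_injective h5
  -- the inverse of the connection matrix
  have hMiJ : Mi.transpose * J * Mi = J := by
    calc Mi.transpose * J * Mi = Mi.transpose * (M.transpose * J * M) * Mi := by rw [h.iso]
      _ = (M * Mi).transpose * J * (M * Mi) := by rw [transpose_mul]; simp only [Matrix.mul_assoc]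
      _ = J := by rw [h.inv, transpose_one, one_mul, mul_one]
  set T' := M' * T * Mi with hT'
  have hT'J : T'.transpose * J' * T' = J := by
    calc T'.transpose * J' * T' = Mi.transpose * (T.transpose * (M'.transpose * J' * M') * T) * Mi := by
          rw [hT', transpose_mul, transpose_mul]
          simp only [Matrix.mul_assoc]
      _ = J := by rw [h'.iso, hTJ, hMiJ]
  have hT'u : T' *ᵥ u = u' := by
    have h1 := hTv 0
    rw [pow_zero, pow_zero, one_mulVec, one_mulVec] at h1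
    rw [hT', ← mulVec_mulVec, ← hv, ← mulVec_mulVec, h1, hv', mulVec_mulVec, h'.inv, one_mulVec]
  have hT'B : T' * B = B' * T' := by
    rw [hB, hB', mul_vecMulVec, vecMulVec_mul, hT'u]
    congr 1
    rw [vecMul_vecMul, ← hT'u, ← vecMul_transpose, vecMul_vecMul, ← Matrix.mul_assoc, hT'J]
  -- the two expressions
  set F1 : ℂ → Matrix (Fin n) (Fin n) ℂ := fun z => Hf H' z * T * Wi J (Hf H z) with hF1
  set F2 : ℂ → Matrix (Fin n) (Fin n) ℂ := fun z => Hf K' (1 - z) * T' * Wi J (Hf K (1 - z)) with hF2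
  set F0 : ℂ → Matrix (Fin n) (Fin n) ℂ := fun z => Yf A' H' z * T * Wi J (Yf A H z) with hF0
  have h01 : ∀ z, F0 z = F1 z := fun z => gauge h.det h.nil h.rel hTA _
  have h02 : ∀ z ∈ Lens, F0 z = F2 z := by
    intro z hz
    have h1 : F2 z = Yf B' K' (1 - z) * T' * Wi J (Yf B K (1 - z)) := (gauge h.det h.nilB h.relB hT'B _).symm
    rw [h1, hF0]
    simp only
    rw [h.conn z hz, h'.conn z hz, Wi_prod h.det, Wi_unique h.det h.iso h.inv, hT']
    simp only [Matrix.mul_assoc]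
    rfl
  set F : ℂ → Matrix (Fin n) (Fin n) ℂ := fun z => if ‖z‖ < 1 then F1 z else F2 z with hF
  have hF2e : ∀ z ∈ Metric.ball (1 : ℂ) 1, F z = F2 z := by
    intro z hz
    rw [hF]
    simp only
    by_cases h1 : ‖z‖ < 1
    · rw [if_pos h1]
      have h2 : z ∈ Lens := ⟨by rwa [Metric.mem_ball, dist_zero_right], hz⟩
      rw [← h01, h02 z h2]
    · rw [if_neg h1]
  have hWan : ∀ {L : ℕ → Matrix (Fin n) (Fin n) ℂ} {N0 N1 : Matrix (Fin n) (Fin n) ℂ}, Sol N0 N1 L → N0 ^ n = 0 →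
      ∀ i j, AnalyticOnNhd ℂ (fun z => Wi J (Hf L z) i j) (Metric.ball 0 1) := by
    intro L N0 N1 hL hN i j
    unfold Wi
    simp only [Matrix.mul_apply, Matrix.transpose_apply]
    refine Finset.analyticOnNhd_fun_sum _ fun l _ => AnalyticOnNhd.mul ?_ analyticOnNhd_const
    exact Finset.analyticOnNhd_fun_sum _ fun k _ => analyticOnNhd_const.mul (Hf_an hL hN _ _)
  have hgan : ∀ {L L' : ℕ → Matrix (Fin n) (Fin n) ℂ} {N0 N1 N0' N1' : Matrix (Fin n) (Fin n) ℂ} (T : Matrix (Fin n) (Fin n) ℂ),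
      Sol N0 N1 L → N0 ^ n = 0 → Sol N0' N1' L' → N0' ^ n = 0 →
      ∀ i j, AnalyticOnNhd ℂ (fun z => (Hf L' z * T * Wi J (Hf L z)) i j) (Metric.ball 0 1) := by
    intro L L' N0 N1 N0' N1' T hL hN hL' hN' i j
    simp only [Matrix.mul_apply]
    refine Finset.analyticOnNhd_fun_sum _ fun l _ => AnalyticOnNhd.mul ?_ (hWan hL hN _ _)
    exact Finset.analyticOnNhd_fun_sum _ fun k _ => (Hf_an hL' hN' _ _).mul analyticOnNhd_const
  have hFan : ∀ i j, AnalyticOnNhd ℂ (fun z => F z i j) (Metric.ball (1 / 2) (6 / 7)) := by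
    intro i j z hz
    by_cases h1 : ‖z‖ < 1
    · have h2 : AnalyticAt ℂ (fun z => F1 z i j) z := hgan T h.solH h.nil h'.solH h'.nil i j z (by
        rwa [Metric.mem_ball, dist_zero_right])
      refine h2.congr ?_
      filter_upwards [Metric.isOpen_ball.mem_nhds (show z ∈ Metric.ball (0 : ℂ) 1 by
        rwa [Metric.mem_ball, dist_zero_right])] with y hy
      rw [Metric.mem_ball, dist_zero_right] at hy
      rw [hF]
      simp only
      rw [if_pos hy]
    · have hz1 : ‖1 - z‖ < 1 := by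
        rw [Metric.mem_ball, dist_eq_norm] at hz
        have e1 : ‖z‖ ^ 2 + ‖1 - z‖ ^ 2 = 2 * ‖z - 1 / 2‖ ^ 2 + 1 / 2 := by
          rw [← Complex.normSq_eq_norm_sq, ← Complex.normSq_eq_norm_sq, ← Complex.normSq_eq_norm_sq]
          simp only [Complex.normSq_apply, Complex.sub_re, Complex.sub_im, Complex.one_re, Complex.one_im,
            Complex.div_ofNat_re, Complex.div_ofNat_im]
          ring
        have e2 : ‖z - 1 / 2‖ ^ 2 < (6 / 7) ^ 2 := pow_lt_pow_left₀ hz (norm_nonneg _) (by norm_num)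
        have e3 : 1 ≤ ‖z‖ ^ 2 := one_le_pow₀ (not_lt.1 h1)
        have e4 : ‖1 - z‖ ^ 2 < 1 := by norm_num at e2; linarith
        by_contra hcon
        have := one_le_pow₀ (not_lt.1 hcon) (n := 2)
        linarith
      have h2 : AnalyticAt ℂ (fun w => (Hf K' w * T' * Wi J (Hf K w)) i j) (1 - z) :=
        hgan T' h.solK h.nilB h'.solK h'.nilB i j (1 - z) (by rwa [Metric.mem_ball, dist_zero_right])
      have h3 : AnalyticAt ℂ (fun w : ℂ => 1 - w) z := analyticAt_const.sub analyticAt_id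
      have h4 : AnalyticAt ℂ (fun w => F2 w i j) z := h2.fun_comp h3
      refine h4.congr ?_
      filter_upwards [Metric.isOpen_ball.mem_nhds (show z ∈ Metric.ball (1 : ℂ) 1 by
        rwa [Metric.mem_ball, dist_comm, dist_eq_norm])] with y hy
      rw [hF2e y hy]
  have hF0e : ∀ z ∈ Lens, F z = F0 z := by
    intro z hz
    rw [hF2e z hz.2, h02 z hz]
  have hode : ∀ z ∈ Lens, HD F ((1 / z) • (A' * F z - F z * A) + (1 / (1 - z)) • ((-B') * F z - F z * (-B))) z := by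
    intro z hz
    have hY := h.ode hz
    have hY' := h'.ode hz
    rw [← hB] at hY
    rw [← hB'] at hY'
    set G := Gm A (-B) z with hG
    set G' := Gm A' (-B') z with hG'
    have hGJ : G.transpose * J + J * G = 0 := Gm_skew h.rel h.relB' z
    have hW : HD (fun w => Wi J (Yf A H w)) (-(Wi J (Yf A H z) * G)) z := by
      have h1 := ((HD.const J⁻¹ z).mul hY.transpose).mul (HD.const J z)
      refine HD.congr h1 ?_
      rw [zero_mul, zero_add, mul_zero, add_zero, transpose_mul]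
      unfold Wi
      have e1 : G.transpose * J = -(J * G) := eq_neg_of_add_eq_zero_left hGJ
      calc J⁻¹ * ((Yf A H z).transpose * G.transpose) * J = J⁻¹ * (Yf A H z).transpose * (G.transpose * J) := by
            simp only [Matrix.mul_assoc]
        _ = _ := by
          rw [e1]
          simp only [Matrix.mul_neg, Matrix.mul_assoc]
    have h2 := (hY'.mul (HD.const T z)).mul hW
    have h3 : HD F0 ((1 / z) • (A' * F0 z - F0 z * A) + (1 / (1 - z)) • ((-B') * F0 z - F0 z * (-B))) z := by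
      refine HD.congr h2 ?_
      rw [mul_zero, add_zero]
      have e1 : F0 z = Yf A' H' z * T * Wi J (Yf A H z) := rfl
      have e2 : G' * Yf A' H' z * T * Wi J (Yf A H z) + Yf A' H' z * T * -(Wi J (Yf A H z) * G) =
          G' * F0 z - F0 z * G := by
        rw [e1, Matrix.mul_neg, ← sub_eq_add_neg]
        simp only [Matrix.mul_assoc]
      rw [e2, hG, hG']
      unfold Gm
      simp only [add_mul, mul_add, smul_mul_assoc, mul_smul_comm, smul_sub]
      abel
    rw [hF0e z hz]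
    intro i j
    refine (h3 i j).congr_of_eventuallyEq ?_
    filter_upwards [isOpen_Lens.mem_nhds hz] with y hy
    rw [hF0e y hy]
  have hhalf : ((1 / 2 : ℝ) : ℂ) ∈ Lens := real_mem_Lens (by norm_num) (by norm_num)
  have ehalf : ((1 / 2 : ℝ) : ℂ) = 1 / 2 := by push_cast; rfl
  rw [ehalf] at hhalf
  obtain ⟨d, Z, hZd, hZ0, hZ1, hrec⟩ := ent hFan hode
  rw [hF0e _ hhalf] at hZ0
  simp only [sub_neg_eq_add, ← sub_eq_add_neg] at hZ1 hrec
  have e1 := Wi_mul h'.det (h'.isoY hhalf)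
  have e2 := mul_Wi h.det (h.isoY hhalf)
  set W := Yf A H (1 / 2) * (J⁻¹ * T.transpose * J') * Wi J' (Yf A' H' (1 / 2)) with hW
  have hWZ : W * Z 0 = 1 := by
    rw [hZ0, hW, hF0]
    calc Yf A H (1 / 2) * (J⁻¹ * T.transpose * J') * Wi J' (Yf A' H' (1 / 2)) *
          (Yf A' H' (1 / 2) * T * Wi J (Yf A H (1 / 2)))
        = Yf A H (1 / 2) * (J⁻¹ * T.transpose * J') * (Wi J' (Yf A' H' (1 / 2)) * Yf A' H' (1 / 2)) * T *
          Wi J (Yf A H (1 / 2)) := by simp only [Matrix.mul_assoc]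
      _ = Yf A H (1 / 2) * (J⁻¹ * (T.transpose * J' * T)) * Wi J (Yf A H (1 / 2)) := by
        rw [e1, mul_one]
        simp only [Matrix.mul_assoc]
      _ = 1 := by rw [hTJ, nonsing_inv_mul _ (Ne.isUnit h.det), mul_one, e2]
  exact hno d Z W hZd hWZ (mul_eq_one_comm.1 hWZ) hZ1 hrec

/-- **Two systems without invertible horizontal polynomial matrix are separated.** -/
theorem sep_two {n n' : ℕ} {J A : Matrix (Fin n) (Fin n) ℂ} {J' A' : Matrix (Fin n') (Fin n') ℂ} {u : Fin n → ℂ}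
    {u' : Fin n' → ℂ} {H K : ℕ → Matrix (Fin n) (Fin n) ℂ} {H' K' : ℕ → Matrix (Fin n') (Fin n') ℂ}
    {M Mi : Matrix (Fin n) (Fin n) ℂ} {M' Mi' : Matrix (Fin n') (Fin n') ℂ}
    (h : CS J A u H K M Mi) (h' : CS J' A' u' H' K' M' Mi')
    (hno : n = n' → NoHom (A + vecMulVec u (u ᵥ* J)) (A - vecMulVec u (u ᵥ* J)) (A' + vecMulVec u' (u' ᵥ* J'))
      (A' - vecMulVec u' (u' ᵥ* J'))) :
    pq J A (Mi *ᵥ u) ≠ pq J' A' (Mi' *ᵥ u') := by
  intro heq
  have hc : ∀ {n : ℕ} {J A : Matrix (Fin n) (Fin n) ℂ} {v : Fin n → ℂ} (i : Fin n),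
      (pq J A v).coeff i = om J v ((A ^ (i : ℕ)) *ᵥ v) / ((i : ℕ).factorial : ℂ) := fun i => pl_coeff _ _ i
  have hc0 : ∀ {n : ℕ} {J A : Matrix (Fin n) (Fin n) ℂ} {v : Fin n → ℂ} (i : ℕ), n ≤ i → (pq J A v).coeff i = 0 := by
    intro n J A v i hi
    unfold pq pl
    rw [Polynomial.finsetSum_coeff]
    refine Finset.sum_eq_zero fun j _ => ?_
    rw [Polynomial.coeff_monomial, if_neg (by have := j.2; omega)]
  have hn := h.two
  have hn' := h'.two
  have hfac : ∀ i : ℕ, ((i.factorial : ℕ) : ℂ) ≠ 0 := fun i => by exact_mod_cast i.factorial_ne_zero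
  have hnn : n = n' := by
    rcases lt_trichotomy n n' with hlt | heq' | hgt
    · exfalso
      have h1 := hc (J := J') (A := A') (v := Mi' *ᵥ u') ⟨n' - 1, by omega⟩
      rw [← heq, hc0 _ (by simp only; omega)] at h1
      have h2 := (div_eq_zero_iff.1 h1.symm).resolve_right (hfac _)
      exact h'.om h2
    · exact heq'
    · exfalso
      have h1 := hc (J := J) (A := A) (v := Mi *ᵥ u) ⟨n - 1, by omega⟩
      rw [heq, hc0 _ (by simp only; omega)] at h1
      have h2 := (div_eq_zero_iff.1 h1.symm).resolve_right (hfac _)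
      exact h.om h2
  subst hnn
  refine sep_same h h' (hno rfl) fun i => ?_
  by_cases hi : i < n
  · have h1 := hc (J := J) (A := A) (v := Mi *ᵥ u) ⟨i, hi⟩
    have h2 := hc (J := J') (A := A') (v := Mi' *ᵥ u') ⟨i, hi⟩
    rw [heq] at h1
    have h3 := h1.symm.trans h2
    exact (div_left_inj' (hfac i)).1 h3
  · rw [pow_eq_zero_of_le (not_lt.1 hi) h.nil, pow_eq_zero_of_le (not_lt.1 hi) h'.nil, zero_mulVec, zero_mulVec]
    unfold Pool.Agent.Y119.HY.om
    rw [mulVec_zero, mulVec_zero, dotProduct_zero, dotProduct_zero]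

end Run7.h309.JH
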